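import Pool.Agent.P.MP_3ef9ff_gt.Follow

/-!
An amalgamation base is continuously ray extendable.
-/

set_option autoImplicit false

open Set Metric Filter Topology Relation

namespace Pool.Agent.P.MP_3ef9ff_gt

theorem rayExt_of_base {M : Type} [MetricSpace M] [CompactSpace M] (hM : Base M) : RayExt M := by
  intro X _ _ _ f hf hfs Y _ _ j hj hd ⟨h⟩
  have : Nonempty M := ⟨f (Classical.arbitrary X)⟩
  obtain ⟨l, hl, hls, hl1, hl2⟩ := exists_ray_param hd h
  obtain ⟨t, ht0, ht, hosc⟩ := exists_ray_walk hl
  have hjc := hj.continuous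
  have hm : ∀ k, ∃ m : M, ∀ m', dist (l (t k)) (j m) ≤ dist (l (t k)) (j m') := by
    intro k
    obtain ⟨m, -, hm⟩ := (isCompact_univ (X := M)).exists_isMinOn univ_nonempty
      (f := fun m => dist (l (t k)) (j m)) (by fun_prop)
    exact ⟨m, fun m' => hm (mem_univ m')⟩
  choose m hm using hm
  have hmclose : ∀ ε > 0, ∀ᶠ k in atTop, dist (l (t k)) (j (m k)) < ε := by
    intro ε hε
    filter_upwards [ht.eventually (hl1 ε hε)] with k ⟨m', hm'⟩
    exact (hm k m').trans_lt hm'
  obtain ⟨p, s, hs, hs2, hp, hpd, hs3⟩ := follow hM hf hfs (m := m)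
    (by
      refine Metric.tendsto_nhds.2 fun ε hε => ?_
      obtain ⟨δ, hδ, hδ'⟩ := inverse_uniform hjc hj.injective hε
      have h3 : 0 < δ / 3 := by positivity
      filter_upwards [hmclose _ h3, (tendsto_add_atTop_nat 1).eventually (hmclose _ h3),
        hosc _ h3] with k h1 h2 h4
      rw [Real.dist_eq, sub_zero, abs_of_nonneg dist_nonneg]
      apply hδ'
      have h5 := h4 _ right_mem_uIcc
      have h6 := dist_triangle4 (j (m k)) (l (t k)) (l (t (k + 1))) (j (m (k + 1)))
      rw [dist_comm] at h1 h5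
      linarith)
    (by
      intro y ε hε K
      obtain ⟨δ, hδ, hδ'⟩ := inverse_uniform hjc hj.injective hε
      have h3 : 0 < δ / 3 := by positivity
      obtain ⟨K', hK'⟩ := eventually_atTop.1 (((hmclose _ h3).and (hosc _ h3)).and
        (eventually_ge_atTop K))
      obtain ⟨u, hu, hu'⟩ := hl2 y _ h3 (t K')
      obtain ⟨k, hk, hk'⟩ := exists_bracket ht hu
      obtain ⟨⟨h1, h2⟩, h4⟩ := hK' k hk
      refine ⟨k, h4, hδ' _ _ ?_⟩
      have h5 := h2 u hk'
      have h6 := dist_triangle4 (j (m k)) (l (t k)) (l u) (j y)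
      rw [dist_comm] at h1 h5
      linarith)
  obtain ⟨W, iW, cW, i, hi1, hi2, hi3, F, hF1, hF2, hF3, -⟩ := build_ray (φ := fun z => j (f z))
    (hjc.comp hf) hl (p := p) (q := fun k => if k = 0 then 0 else t (s k))
    (by simp)
    (by
      refine (ht.comp hs2).congr' ?_
      filter_upwards [eventually_gt_atTop 0] with k hk
      simp [hk.ne'])
    hp hpd
    (by
      intro ε hε
      have h4 : 0 < ε / 4 := by positivity
      obtain ⟨δ, hδ, hδ'⟩ := Metric.uniformContinuous_iff.1
        (CompactSpace.uniformContinuous_of_continuous hjc) _ h4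
      obtain ⟨K, hK⟩ := eventually_atTop.1 (hosc _ h4)
      filter_upwards [hs2.eventually (eventually_ge_atTop (K + 1)), eventually_gt_atTop 0,
        hs2.eventually (hmclose _ h4), hs3.eventually (gt_mem_nhds hδ)] with k hk hk0 h1 h2 u hu
      simp only [hk0.ne', Nat.succ_ne_zero, if_false] at hu
      have h3 := hδ' h2
      have h5 : dist (l u) (l (t (s k))) < ε / 4 + ε / 4 := by
        have h6 := (hs k).1
        have h7 := (hs k).2
        rcases lt_trichotomy (s k) (s (k + 1)) with h | h | h
        · rw [show s (k + 1) = s k + 1 by omega] at hu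
          have := hK _ (by omega) u hu
          linarith
        · rw [← h, uIcc_self, mem_singleton_iff] at hu
          rw [hu, dist_self]
          linarith
        · rw [show s k = s (k + 1) + 1 by omega, uIcc_comm] at hu
          rw [show s k = s (k + 1) + 1 by omega]
          have h8 := hK _ (show K ≤ s (k + 1) by omega)
          exact (dist_triangle_right _ _ _).trans_lt
            (add_lt_add (h8 u hu) (h8 _ right_mem_uIcc))
      have h6 := dist_triangle4 (l u) (l (t (s k))) (j (m (s k))) (j (f (p k)))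
      rw [dist_comm] at h3
      linarith)
  refine ⟨W, iW, cW, i, hi1, hi2, hi3, F, hF1, fun y => ?_, hF3⟩
  by_cases hy : y ∈ range j
  · obtain ⟨m', rfl⟩ := hy
    obtain ⟨z, rfl⟩ := hfs m'
    exact ⟨i z, hF3 z⟩
  · obtain ⟨u, hu, rfl⟩ := hls y hy
    exact hF2 u hu

end Pool.Agent.P.MP_3ef9ff_gt
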