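import Mathlib

/-!
Construction of a ray compactification from two synchronised sequences.
-/

set_option autoImplicit false

open Set Metric Filter Topology

namespace Pool.Agent.P.MP_3ef9ff_gt

/-- Piecewise linear interpolation of a sequence. -/
lemma exists_pl {E : Type*} [NormedAddCommGroup E] [NormedSpace ℝ E] (u : ℕ → E) :
    ∃ σ : ℝ → E, ContinuousOn σ (Ici 0) ∧
      ∀ (k : ℕ) (τ : ℝ), (k : ℝ) ≤ τ → τ ≤ k + 1 → σ τ = u k + (τ - k) • (u (k + 1) - u k) := by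
  let σ : ℝ → E := fun τ => u ⌊τ⌋₊ + (τ - ⌊τ⌋₊) • (u (⌊τ⌋₊ + 1) - u ⌊τ⌋₊)
  have hσ : ∀ (k : ℕ) (τ : ℝ), (k : ℝ) ≤ τ → τ ≤ k + 1 →
      σ τ = u k + (τ - k) • (u (k + 1) - u k) := by
    intro k τ h1 h2
    rcases h2.lt_or_eq with h | h
    · have : ⌊τ⌋₊ = k := (Nat.floor_eq_iff ((Nat.cast_nonneg k).trans h1)).2 ⟨h1, h⟩
      simp only [σ, this]
    · have : ⌊τ⌋₊ = k + 1 := by
        rw [h]
        exact_mod_cast Nat.floor_natCast (R := ℝ) (k + 1)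
      simp only [σ, this]
      rw [h]
      simp
  refine ⟨σ, ?_, hσ⟩
  have hlf : LocallyFinite fun k : ℕ => Icc (k : ℝ) (k + 1) := by
    intro x
    obtain ⟨N, hN⟩ := exists_nat_gt (x + 1)
    refine ⟨Iio (x + 1), Iio_mem_nhds (lt_add_one x), (finite_lt_nat N).subset ?_⟩
    rintro k ⟨y, hy1, hy2⟩
    have : (k : ℝ) < N := lt_of_le_of_lt hy1.1 (lt_trans hy2 hN)
    exact_mod_cast this
  have hcov : Ici (0 : ℝ) = ⋃ k : ℕ, Icc (k : ℝ) (k + 1) := by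
    ext x
    simp only [mem_Ici, mem_iUnion, mem_Icc]
    constructor
    · intro hx
      exact ⟨⌊x⌋₊, Nat.floor_le hx, (Nat.lt_floor_add_one x).le⟩
    · rintro ⟨k, hk, -⟩
      exact (Nat.cast_nonneg k).trans hk
  rw [hcov]
  refine hlf.continuousOn_iUnion (fun _ => isClosed_Icc) fun k => ?_
  have hc : Continuous fun τ : ℝ => u k + (τ - k) • (u (k + 1) - u k) := by fun_prop
  exact hc.continuousOn.congr fun τ hτ => hσ k τ hτ.1 hτ.2

lemma isCompact_union_ray {E : Type*} [MetricSpace E] {K : Set E} (hK : IsCompact K) {ρ : ℝ → E}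
    (hρ : ContinuousOn ρ (Ici 0))
    (hlim : ∀ δ > 0, ∃ T : ℝ, ∀ τ, T ≤ τ → ∃ k ∈ K, dist (ρ τ) k < δ) :
    IsCompact (K ∪ ρ '' Ici 0) := by
  classical
  refine isCompact_of_finite_subcover fun U hU hcov => ?_
  obtain ⟨t1, ht1⟩ := hK.elim_finite_subcover U hU (subset_union_left.trans hcov)
  obtain ⟨δ, hδ, hth⟩ := hK.exists_thickening_subset_open (isOpen_biUnion fun i _ => hU i) ht1
  obtain ⟨T, hT⟩ := hlim δ hδ
  have hc : IsCompact (ρ '' Icc 0 T) :=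
    isCompact_Icc.image_of_continuousOn (hρ.mono Icc_subset_Ici_self)
  obtain ⟨t2, ht2⟩ := hc.elim_finite_subcover U hU
    ((image_mono Icc_subset_Ici_self).trans (subset_union_right.trans hcov))
  refine ⟨t1 ∪ t2, ?_⟩
  rw [Finset.set_biUnion_union]
  rintro x (hx | ⟨τ, hτ, rfl⟩)
  · exact Or.inl (ht1 hx)
  · by_cases h : τ ≤ T
    · exact Or.inr (ht2 ⟨τ, ⟨hτ, h⟩, rfl⟩)
    · exact Or.inl (hth (mem_thickening_iff.2 (hT τ (not_le.1 h).le)))

theorem build_ray {X Y : Type} [MetricSpace X] [CompactSpace X] [MetricSpace Y]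
    {φ : X → Y} (hφ : Continuous φ) {l : ℝ → Y} (hl : Continuous l)
    {p : ℕ → X} {q : ℕ → ℝ} (hq0 : q 0 = 0) (hq : Tendsto q atTop atTop)
    (hp : Tendsto (fun k => dist (p k) (p (k + 1))) atTop (𝓝 0))
    (hpd : ∀ x : X, ∀ ε > 0, ∀ K, ∃ k, K ≤ k ∧ dist (p k) x < ε)
    (hpq : ∀ ε > 0, ∀ᶠ k in atTop, ∀ u ∈ uIcc (q k) (q (k + 1)), dist (l u) (φ (p k)) < ε) :
    ∃ (W : Type) (_ : MetricSpace W) (_ : CompactSpace W) (i : X → W),
      Topology.IsEmbedding i ∧ Dense (Set.range i)ᶜ ∧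
      Nonempty (↥((Set.range i)ᶜ) ≃ₜ ↥(Set.Ici (0:ℝ))) ∧
      ∃ F : W → Y, Continuous F ∧ (∀ t, 0 ≤ t → ∃ w, F w = l t) ∧ (∀ x, F (i x) = φ x) ∧
        ∀ w, w ∉ Set.range i → ∃ k : ℕ, ∃ u ∈ uIcc (q k) (q (k + 1)), F w = l u := by
  let e := kuratowskiEmbedding X
  have he : Isometry e := kuratowskiEmbedding.isometry X
  obtain ⟨σ, hσc, hσ⟩ := exists_pl fun k => e (p k)
  obtain ⟨lam, hlamc, hlam⟩ := exists_pl q
  let ι : X → (lp (fun _ : ℕ => ℝ) ⊤) × Y × ℝ := fun x => (e x, φ x, 0)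
  let ρ : ℝ → (lp (fun _ : ℕ => ℝ) ⊤) × Y × ℝ := fun τ => (σ τ, l (lam τ), 1 / (1 + τ))
  have hιc : Continuous ι := he.continuous.prodMk (hφ.prodMk continuous_const)
  have hρc : ContinuousOn ρ (Ici 0) := by
    refine hσc.prodMk ((hl.comp_continuousOn hlamc).prodMk ?_)
    refine continuousOn_const.div (by fun_prop) fun τ hτ => ?_
    have : (0 : ℝ) ≤ τ := hτ
    positivity
  have hlam_mem : ∀ (k : ℕ) (τ : ℝ), (k : ℝ) ≤ τ → τ ≤ k + 1 → lam τ ∈ uIcc (q k) (q (k + 1)) := by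
    intro k τ h1 h2
    rw [hlam k τ h1 h2, ← segment_eq_uIcc, segment_eq_image']
    exact ⟨τ - k, ⟨by linarith, by linarith⟩, rfl⟩
  have key : ∀ ε > 0, ∃ K : ℕ, ∀ k, K ≤ k → ∀ τ : ℝ, (k : ℝ) ≤ τ → τ ≤ k + 1 →
      dist (ρ τ) (ι (p k)) < ε := by
    intro ε hε
    obtain ⟨K1, h1⟩ := eventually_atTop.1 (hp.eventually (gt_mem_nhds hε))
    obtain ⟨K2, h2⟩ := eventually_atTop.1 (hpq ε hε)
    obtain ⟨K3, h3⟩ := exists_nat_gt (1 / ε)
    refine ⟨K1 + K2 + K3, fun k hk τ hτ1 hτ2 => ?_⟩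
    simp only [ρ, ι, Prod.dist_eq, max_lt_iff]
    refine ⟨?_, h2 k (by omega) _ (hlam_mem k τ hτ1 hτ2), ?_⟩
    · rw [hσ k τ hτ1 hτ2, dist_eq_norm, add_sub_cancel_left, norm_smul,
        ← dist_eq_norm (e _), he.dist_eq, dist_comm, Real.norm_eq_abs, abs_of_nonneg (by linarith)]
      calc (τ - k) * dist (p k) (p (k + 1)) ≤ 1 * dist (p k) (p (k + 1)) :=
            mul_le_mul_of_nonneg_right (by linarith) dist_nonneg
        _ < ε := by rw [one_mul]; exact h1 k (by omega)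
    · have hk3 : (K3 : ℝ) ≤ k := by exact_mod_cast (show K3 ≤ k by omega)
      have hτ0 : 0 ≤ τ := (Nat.cast_nonneg k).trans hτ1
      rw [Real.dist_eq, sub_zero, abs_of_nonneg (by positivity), div_lt_iff₀ (by positivity)]
      rw [div_lt_iff₀ hε] at h3
      nlinarith
  let S := range ι ∪ ρ '' Ici 0
  have hS : IsCompact S := by
    refine isCompact_union_ray (isCompact_range hιc) hρc fun δ hδ => ?_
    obtain ⟨K, hK⟩ := key δ hδ
    refine ⟨K, fun τ hτ => ?_⟩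
    have hτ0 : 0 ≤ τ := (Nat.cast_nonneg K).trans hτ
    exact ⟨_, mem_range_self _,
      hK ⌊τ⌋₊ (Nat.le_floor hτ) τ (Nat.floor_le hτ0) (Nat.lt_floor_add_one τ).le⟩
  let i : X → S := fun x => ⟨ι x, Or.inl (mem_range_self x)⟩
  have hic : Continuous i := hιc.subtype_mk _
  have hii : Function.Injective i := fun x y h =>
    he.injective (congrArg (fun w : S => w.1.1) h)
  have hnot : ∀ τ (hτ : 0 ≤ τ), (⟨ρ τ, Or.inr ⟨τ, hτ, rfl⟩⟩ : S) ∈ (range i)ᶜ := by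
    rintro τ hτ ⟨x, hx⟩
    have h0 : (0 : ℝ) = 1 / (1 + τ) := congrArg (fun w : S => w.1.2.2) hx
    have : 0 < 1 / (1 + τ) := by positivity
    linarith
  have hmem : ∀ w : S, w ∈ (range i)ᶜ → ∃ τ, 0 ≤ τ ∧ ρ τ = w.1 := by
    rintro ⟨w, (⟨x, rfl⟩ | ⟨τ, hτ, rfl⟩)⟩ hw
    · exact absurd ⟨x, rfl⟩ hw
    · exact ⟨τ, hτ, rfl⟩
  have hinv : ∀ τ : ℝ, 0 ≤ τ → 1 / (ρ τ).2.2 - 1 = τ := by
    intro τ hτ
    simp [ρ]
  refine ⟨S, inferInstance, isCompact_iff_compactSpace.1 hS, i,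
    (hic.isClosedEmbedding hii).isEmbedding, ?_, ⟨?_⟩, fun w => w.1.2.1, by fun_prop, ?_,
    fun x => rfl, fun w hw => ?_⟩
  rotate_right
  · obtain ⟨τ, hτ, hw'⟩ := hmem w hw
    exact ⟨⌊τ⌋₊, lam τ, hlam_mem _ τ (Nat.floor_le hτ) (Nat.lt_floor_add_one τ).le,
      by simp only [← hw', ρ]⟩
  · intro w
    by_cases hw : w ∈ (range i)ᶜ
    · exact subset_closure hw
    · obtain ⟨x, rfl⟩ := not_not.1 hw
      rw [Metric.mem_closure_iff]
      intro ε hε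
      obtain ⟨δ, hδ, hδ'⟩ := Metric.continuous_iff.1 hιc x (ε / 2) (half_pos hε)
      obtain ⟨K, hK⟩ := key (ε / 2) (half_pos hε)
      obtain ⟨k, hk, hkx⟩ := hpd x δ hδ K
      refine ⟨_, hnot k (Nat.cast_nonneg k), ?_⟩
      rw [Subtype.dist_eq]
      calc dist (ι x) (ρ k) ≤ dist (ι (p k)) (ι x) + dist (ι (p k)) (ρ k) :=
            dist_triangle_left _ _ _
        _ < ε / 2 + ε / 2 := add_lt_add (hδ' _ hkx)
            (by rw [dist_comm]; exact hK k hk k le_rfl (by linarith))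
        _ = ε := add_halves ε
  · refine
      { toFun := fun w => ⟨1 / w.1.1.2.2 - 1, ?_⟩
        invFun := fun τ => ⟨⟨ρ τ.1, Or.inr ⟨τ.1, τ.2, rfl⟩⟩, hnot τ.1 τ.2⟩
        left_inv := ?_
        right_inv := ?_
        continuous_toFun := ?_
        continuous_invFun := ?_ }
    · obtain ⟨τ, hτ, hw⟩ := hmem w.1 w.2
      rw [← hw, hinv τ hτ]
      exact hτ
    · intro w
      obtain ⟨τ, hτ, hw⟩ := hmem w.1 w.2
      apply Subtype.ext
      apply Subtype.ext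
      simp only
      rw [← hw, hinv τ hτ]
    · intro τ
      exact Subtype.ext (hinv τ.1 τ.2)
    · refine Continuous.subtype_mk ?_ _
      refine Continuous.sub (Continuous.div continuous_const (by fun_prop) fun w => ?_)
        continuous_const
      obtain ⟨τ, hτ, hw⟩ := hmem w.1 w.2
      rw [← hw]
      have : 0 < 1 / (1 + τ) := by positivity
      exact this.ne'
    · exact ((continuousOn_iff_continuous_domRestrict.1 hρc).subtype_mk _).subtype_mk _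
  · intro t ht
    obtain ⟨k, hk⟩ := (hq.eventually (eventually_ge_atTop t)).exists
    have h0 : lam 0 = 0 := by
      rw [hlam 0 0 (by simp) (by simp)]
      simp [hq0]
    have hk' : lam k = q k := by
      rw [hlam k k le_rfl (by linarith)]
      simp
    obtain ⟨τ, hτ, hτt⟩ := intermediate_value_Icc (Nat.cast_nonneg k)
      (hlamc.mono Icc_subset_Ici_self) (show t ∈ Icc (lam 0) (lam k) by rw [h0, hk']; exact ⟨ht, hk⟩)
    exact ⟨⟨ρ τ, Or.inr ⟨τ, hτ.1, rfl⟩⟩, by simp only [ρ, hτt]⟩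

end Pool.Agent.P.MP_3ef9ff_gt
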