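import Mathlib

/-!
Chains with small steps in compact sets, and the uniform chain lemma.
-/

set_option autoImplicit false

open Set Metric Filter Topology

namespace Pool.Agent.P.MP_3ef9ff_gt

variable {E M : Type*} [MetricSpace E] [MetricSpace M]

/-- One step of a `δ`-chain inside `K`. -/
def Step (δ : ℝ) (K : Set E) (a b : E) : Prop := a ∈ K ∧ b ∈ K ∧ dist a b < δ

/-- `δ`-chains inside `K`. -/
def Ch (δ : ℝ) (K : Set E) : E → E → Prop := Relation.ReflTransGen (Step δ K)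

lemma Step.symm {δ : ℝ} {K : Set E} {a b : E} (h : Step δ K a b) : Step δ K b a :=
  ⟨h.2.1, h.1, by rw [dist_comm]; exact h.2.2⟩

lemma Ch.refl (δ : ℝ) (K : Set E) (a : E) : Ch δ K a a := Relation.ReflTransGen.refl

lemma Ch.trans {δ : ℝ} {K : Set E} {a b c : E} (h : Ch δ K a b) (h' : Ch δ K b c) : Ch δ K a c :=
  Relation.ReflTransGen.trans h h'

lemma Ch.single {δ : ℝ} {K : Set E} {a b : E} (h : Step δ K a b) : Ch δ K a b :=
  Relation.ReflTransGen.single h

lemma Ch.symm {δ : ℝ} {K : Set E} {a b : E} (h : Ch δ K a b) : Ch δ K b a := by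
  induction h with
  | refl => exact Ch.refl _ _ _
  | tail _ hs ih => exact (Ch.single hs.symm).trans ih

lemma Ch.mono {δ δ' : ℝ} {K : Set E} {a b : E} (hδ : δ ≤ δ') (h : Ch δ K a b) : Ch δ' K a b := by
  induction h with
  | refl => exact Ch.refl _ _ _
  | tail _ hs ih => exact ih.trans (Ch.single ⟨hs.1, hs.2.1, hs.2.2.trans_le hδ⟩)

lemma Ch.mem {δ : ℝ} {K : Set E} {a b : E} (h : Ch δ K a b) (ha : a ∈ K) : b ∈ K := by
  induction h with
  | refl => exact ha
  | tail _ hs _ => exact hs.2.1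

lemma ch_of_preconnected {δ : ℝ} (hδ : 0 < δ) {K S : Set E} (hS : IsPreconnected S) (hSK : S ⊆ K)
    {a b : E} (ha : a ∈ S) (hb : b ∈ S) : Ch δ K a b := by
  refine hS.induction₂' (Ch δ K) ?_ (fun x y z _ _ _ h h' => h.trans h') ha hb
  intro x hx
  have h1 : ∀ᶠ y in 𝓝[S] x, y ∈ ball x δ := mem_nhdsWithin_of_mem_nhds (ball_mem_nhds x hδ)
  filter_upwards [h1, self_mem_nhdsWithin] with y hy hyS
  have : Step δ K x y := ⟨hSK hx, hSK hyS, by rw [dist_comm]; exact hy⟩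
  exact ⟨Ch.single this, Ch.single this.symm⟩

lemma exists_pos_le_dist {S T : Set E} (hS : IsCompact S) (hT : IsClosed T) (h : Disjoint S T) :
    ∃ δ > 0, ∀ a ∈ S, ∀ b ∈ T, δ ≤ dist a b := by
  obtain ⟨δ, hδ, hd⟩ := h.exists_thickenings hS hT
  refine ⟨δ, hδ, fun a ha b hb => ?_⟩
  by_contra hlt
  push Not at hlt
  have h1 : a ∈ thickening δ S := self_subset_thickening hδ _ ha
  have h2 : a ∈ thickening δ T := mem_thickening_iff.2 ⟨b, hb, hlt⟩
  exact Set.disjoint_left.1 hd h1 h2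

/-- Pointwise chain lemma. -/
lemma pointwise_chain {K : Set E} (hK : IsCompact K) {g : E → M} (hg : Continuous g)
    {y : E} (hy : y ∈ K) {b : M} (hb : b ∉ g '' connectedComponentIn K y) :
    ∃ δ > 0, ∀ z, Ch δ K y z → δ ≤ dist (g z) b := by
  have : CompactSpace K := isCompact_iff_compactSpace.1 hK
  set y' : K := ⟨y, hy⟩ with hy'
  have hF : IsCompact ((fun z : K => g z) ⁻¹' {b}) :=
    (isClosed_singleton.preimage (hg.comp continuous_subtype_val)).isCompact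
  have hdisj : ((fun z : K => g z) ⁻¹' {b}) ∩
      ⋂ s : {s : Set K // IsClopen s ∧ y' ∈ s}, (s : Set K) = ∅ := by
    rw [← connectedComponent_eq_iInter_isClopen]
    ext z
    simp only [mem_inter_iff, mem_preimage, mem_singleton_iff, mem_empty_iff_false, iff_false,
      not_and]
    intro hz hzc
    apply hb
    rw [connectedComponentIn_eq_image hy]
    exact ⟨z, ⟨z, hzc, rfl⟩, hz⟩
  obtain ⟨u, hu⟩ := hF.elim_finite_subfamily_closed _ (fun s => s.2.1.1) hdisj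
  set U : Set K := ⋂ s ∈ u, (s : Set K) with hU
  have hUc : IsClopen U := isClopen_biInter_finset fun i _ => i.2.1
  have hyU : y' ∈ U := mem_iInter₂.2 fun s _ => s.2.2
  have hU1 : IsCompact ((↑) '' U : Set E) := hUc.1.isCompact.image continuous_subtype_val
  have hU2 : IsCompact ((↑) '' Uᶜ : Set E) := hUc.compl.1.isCompact.image continuous_subtype_val
  have hd : Disjoint ((↑) '' U : Set E) ((↑) '' Uᶜ : Set E) :=
    (Set.disjoint_image_iff Subtype.val_injective).2 disjoint_compl_right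
  obtain ⟨δ1, hδ1, h1⟩ := exists_pos_le_dist hU1 hU2.isClosed hd
  have hd2 : Disjoint (g '' ((↑) '' U : Set E)) {b} := by
    rw [Set.disjoint_singleton_right]
    rintro ⟨z, ⟨z', hz', rfl⟩, hz⟩
    have : z' ∈ ((fun z : K => g z) ⁻¹' {b}) ∩ U := ⟨hz, hz'⟩
    rw [hu] at this
    exact this
  obtain ⟨δ2, hδ2, h2⟩ := exists_pos_le_dist (hU1.image hg) isClosed_singleton hd2
  refine ⟨min δ1 δ2, lt_min hδ1 hδ2, fun z hz => ?_⟩
  have hzU : z ∈ ((↑) '' U : Set E) := by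
    induction hz with
    | refl => exact ⟨y', hyU, rfl⟩
    | @tail c d _ hs ih =>
      by_contra hd'
      have : d ∈ ((↑) '' Uᶜ : Set E) := ⟨⟨d, hs.2.1⟩, fun h => hd' ⟨_, h, rfl⟩, rfl⟩
      exact absurd (h1 c ih d this) (not_le.2 (hs.2.2.trans_le (min_le_left _ _)))
  exact (min_le_right _ _).trans (h2 _ ⟨z, hzU, rfl⟩ b rfl)

/-- Uniform chain lemma. -/
lemma uniform_chain {K : Set E} (hK : IsCompact K) {g : E → M} (hg : Continuous g) {B : Set M}
    (h : ∀ y ∈ K, ∃ b ∈ B, b ∉ g '' connectedComponentIn K y) :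
    ∃ δ > 0, ∀ y ∈ K, ∃ b ∈ B, ∀ z, Ch δ K y z → δ ≤ dist (g z) b := by
  have h' : ∀ y ∈ K, ∃ δ > 0, ∃ b ∈ B, ∀ z, Ch δ K y z → δ ≤ dist (g z) b := by
    intro y hy
    obtain ⟨b, hb, hb'⟩ := h y hy
    obtain ⟨δ, hδ, h2⟩ := pointwise_chain hK hg hy hb'
    exact ⟨δ, hδ, b, hb, h2⟩
  choose! d hd hb using h'
  obtain ⟨t, htK, ht⟩ := hK.elim_nhds_subcover (fun y => ball y (d y))
    (fun y hy => ball_mem_nhds y (hd y hy))
  have : ∃ δ > 0, ∀ y ∈ t, δ ≤ d y := by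
    rcases t.eq_empty_or_nonempty with rfl | hne
    · exact ⟨1, one_pos, by simp⟩
    · obtain ⟨y, hy, hmin⟩ := t.exists_min_image d hne
      exact ⟨d y, hd y (htK y hy), hmin⟩
  obtain ⟨δ, hδ, hle⟩ := this
  refine ⟨δ, hδ, fun y hy => ?_⟩
  obtain ⟨w, hw, hyw⟩ := mem_iUnion₂.1 (ht hy)
  obtain ⟨b, hbB, hb'⟩ := hb w (htK w hw)
  refine ⟨b, hbB, fun z hz => (hle w hw).trans (hb' z ?_)⟩
  exact (Ch.single ⟨htK w hw, hy, by rw [dist_comm]; exact hyw⟩).trans (hz.mono (hle w hw))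

end Pool.Agent.P.MP_3ef9ff_gt
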