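import Pool.Agent.P.MP_3ef9ff_gt.Fwd

/-!
Two essential maps of continua to the circle can be amalgamated.
-/

set_option autoImplicit false

open Set Metric Filter Topology Relation

namespace Pool.Agent.P.MP_3ef9ff_gt

lemma exists_near_lift (a : ℝ) (t : UnitAddCircle) :
    ∃ a' : ℝ, (a' : UnitAddCircle) = t ∧ dist a a' = dist (a : UnitAddCircle) t := by
  induction t using QuotientAddGroup.induction_on with
  | H b =>
    refine ⟨b + round (a - b), by simp, ?_⟩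
    rw [dist_eq_norm (a : UnitAddCircle), ← QuotientAddGroup.mk_sub, UnitAddCircle.norm_eq,
      Real.dist_eq, sub_sub]

lemma dist_coe_le (a b : ℝ) : dist (a : UnitAddCircle) (b : UnitAddCircle) ≤ |a - b| := by
  rw [dist_eq_norm, ← QuotientAddGroup.mk_sub]
  exact QuotientAddGroup.norm_mk_le_norm

lemma exists_int_of_coe_eq {a b : ℝ} (h : (a : UnitAddCircle) = b) : ∃ k : ℤ, b = a + k := by
  obtain ⟨k, hk⟩ := AddSubgroup.mem_zmultiples_iff.1 (QuotientAddGroup.eq.1 h)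
  refine ⟨k, ?_⟩
  simp only [zsmul_eq_mul, mul_one] at hk
  linarith

variable {X : Type*} [MetricSpace X]

/-- the pull back of the universal cover -/
def Cov (φ : X → UnitAddCircle) : Set (X × ℝ) := {v | (v.2 : UnitAddCircle) = φ v.1}

lemma step_shift {φ : X → UnitAddCircle} {ε : ℝ} {v w : X × ℝ} (k : ℤ) (h : Step ε (Cov φ) v w) :
    Step ε (Cov φ) (v.1, v.2 + k) (w.1, w.2 + k) := by
  refine ⟨?_, ?_, ?_⟩
  · simpa [Cov] using h.1
  · simpa [Cov] using h.2.1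
  · simpa [Prod.dist_eq] using h.2.2

lemma ch_shift {φ : X → UnitAddCircle} {ε : ℝ} {v w : X × ℝ} (k : ℤ) (h : Ch ε (Cov φ) v w) :
    Ch ε (Cov φ) (v.1, v.2 + k) (w.1, w.2 + k) := by
  induction h with
  | refl => exact Ch.refl _ _ _
  | tail _ hs ih => exact ih.trans (Ch.single (step_shift k hs))

lemma step_near {φ : X → UnitAddCircle} {ε : ℝ} {x y : X} (h1 : dist x y < ε)
    (h2 : dist (φ x) (φ y) < ε) {a : ℝ} (ha : (x, a) ∈ Cov φ) :
    ∃ b, Step ε (Cov φ) (x, a) (y, b) ∧ dist a b = dist (φ x) (φ y) := by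
  obtain ⟨b, hb, hab⟩ := exists_near_lift a (φ y)
  rw [show (a : UnitAddCircle) = φ x from ha] at hab
  exact ⟨b, ⟨ha, hb, max_lt h1 (hab ▸ h2)⟩, hab⟩

lemma eventually_near {φ : X → UnitAddCircle} (hφ : Continuous φ) {ε : ℝ} (hε : 0 < ε) (x : X) :
    ∀ᶠ y in 𝓝 x, dist y x < ε ∧ dist (φ y) (φ x) < ε :=
  (Metric.tendsto_nhds.1 tendsto_id ε hε).and (Metric.tendsto_nhds.1 (hφ.tendsto x) ε hε)

lemma ch_lift [ConnectedSpace X] {φ : X → UnitAddCircle} (hφ : Continuous φ) {ε : ℝ} (hε : 0 < ε)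
    (x y : X) : ∀ a, (x, a) ∈ Cov φ → ∃ b, Ch ε (Cov φ) (x, a) (y, b) := by
  refine isPreconnected_univ.induction₂'
    (fun x y => ∀ a, (x, a) ∈ Cov φ → ∃ b, Ch ε (Cov φ) (x, a) (y, b)) ?_ ?_ trivial trivial
  · intro x _
    filter_upwards [mem_nhdsWithin_of_mem_nhds (eventually_near hφ hε x)] with y hy
    refine ⟨fun a ha => ?_, fun a ha => ?_⟩
    · obtain ⟨b, hb, -⟩ := step_near (by rw [dist_comm]; exact hy.1)
        (by rw [dist_comm]; exact hy.2) ha
      exact ⟨b, Ch.single hb⟩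
    · obtain ⟨b, hb, -⟩ := step_near hy.1 hy.2 ha
      exact ⟨b, Ch.single hb⟩
  · intro x y z _ _ _ h h' a ha
    obtain ⟨b, hb⟩ := h a ha
    obtain ⟨c, hc⟩ := h' b (hb.mem ha)
    exact ⟨c, hb.trans hc⟩

/-- `φ` has no continuous lift to the real line -/
def Ess (φ : X → UnitAddCircle) : Prop :=
  ¬ ∃ l : X → ℝ, Continuous l ∧ ∀ x, (l x : UnitAddCircle) = φ x

lemma exists_loop [ConnectedSpace X] {φ : X → UnitAddCircle} (hφ : Continuous φ) (hE : Ess φ)
    {ε : ℝ} (hε : 0 < ε) {x0 : X} {a0 : ℝ} (h0 : (x0, a0) ∈ Cov φ) :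
    ∃ k : ℤ, 0 < k ∧ Ch ε (Cov φ) (x0, a0) (x0, a0 + k) := by
  by_contra hcon
  push Not at hcon
  have huniq : ∀ x a b, Ch ε (Cov φ) (x0, a0) (x, a) → Ch ε (Cov φ) (x0, a0) (x, b) → a ≤ b := by
    intro x a b ha hb
    obtain ⟨k, hk⟩ := exists_int_of_coe_eq ((hb.mem h0).trans (ha.mem h0).symm)
    by_contra hlt
    refine hcon k ?_ (ha.trans ?_)
    · have : (0 : ℝ) < k := by
        simp only at hk
        linarith
      exact_mod_cast this
    · have := (ch_shift k hb).symm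
      simp only at hk this
      rwa [← hk] at this
  choose l hl using fun x => ch_lift hφ hε x0 x a0 h0
  refine hE ⟨l, continuous_iff_continuousAt.2 fun x => Metric.tendsto_nhds.2 fun η hη => ?_,
    fun x => (hl x).mem h0⟩
  filter_upwards [eventually_near hφ hε x, eventually_near hφ hη x] with y h1 h2
  obtain ⟨b, hb, hb'⟩ := step_near h1.1 h1.2 ((hl y).mem h0)
  have h3 := (hl y).trans (Ch.single hb)
  rw [le_antisymm (huniq _ _ _ (hl x) h3) (huniq _ _ _ h3 (hl x)), hb']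
  exact h2.2

lemma exists_periodic_walk [CompactSpace X] [ConnectedSpace X] {φ : X → UnitAddCircle}
    (hφ : Continuous φ) (hE : Ess φ) {ε : ℝ} (hε : 0 < ε) :
    ∃ (q : ℕ → X × ℝ) (P : ℕ), (∀ j, Step ε (Cov φ) (q j) (q (j + 1))) ∧
      (∀ j0 x, ∃ j, j0 ≤ j ∧ j ≤ j0 + P ∧ dist (q j).1 x < ε) ∧
      ∀ (c : ℝ) (J : ℕ), ∃ j, J ≤ j ∧ c ≤ (q j).2 := by
  obtain ⟨x0⟩ : Nonempty X := inferInstance
  obtain ⟨a0, h0, -⟩ := exists_near_lift 0 (φ x0)
  replace h0 : (x0, a0) ∈ Cov φ := h0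
  obtain ⟨k, hk, hloop⟩ := exists_loop hφ hE hε h0
  let e := TopologicalSpace.denseSeq X
  choose l hl using fun x => ch_lift hφ hε x0 x a0 h0
  let v : ℕ → X × ℝ := fun n => if n = 0 then (x0, a0) else if n % 2 = 0 then (x0, a0 + k)
    else (e (Nat.unpair (n / 2)).1, l (e (Nat.unpair (n / 2)).1))
  have hv : ∀ n, Ch ε (Cov φ) (x0, a0) (v n) := by
    intro n
    simp only [v]
    split_ifs
    exacts [Ch.refl _ _ _, hloop, hl _]
  obtain ⟨p, -, -, hp, hp0, hpv⟩ := concat_paths (fun _ => Step ε (Cov φ)) v fun n =>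
    TransGen.head' ⟨(hv n).mem h0, (hv n).mem h0, by rwa [dist_self]⟩
      ((hv n).symm.trans (hv (n + 1)))
  obtain ⟨K, hK⟩ := dense_block (a := fun i => (p i).1) (fun x η hη K => by
    obtain ⟨n, hn⟩ := (TopologicalSpace.denseRange_denseSeq X).exists_dist_lt x hη
    obtain ⟨i, hi, hi'⟩ := hpv (2 * Nat.pair n K + 1)
    have h1 := Nat.right_le_pair n K
    refine ⟨i, by omega, ?_⟩
    have h2 : (2 * Nat.pair n K + 1) / 2 = Nat.pair n K := by omega
    have h3 : ¬ (2 * Nat.pair n K + 1) % 2 = 0 := by omega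
    simp only [hi', v, Nat.succ_ne_zero, if_false, h3, h2, Nat.unpair_pair]
    rwa [dist_comm]) hε 0
  obtain ⟨L, hL, hL'⟩ := hpv (2 * (K + 1))
  have hpL : p L = (x0, a0 + k) := by
    rw [hL']
    simp only [v]
    rw [if_neg (by omega), if_pos (by omega)]
  have hp0' : p 0 = (x0, a0) := hp0
  have hLpos : 0 < L := by omega
  let q : ℕ → X × ℝ := fun j => ((p (j % L)).1, (p (j % L)).2 + ((j / L : ℕ) * k : ℤ))
  have hq : ∀ n i, i ≤ L → q (i + L * n) = ((p i).1, (p i).2 + ((n : ℤ) * k : ℤ)) := by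
    intro n i hi
    rcases hi.lt_or_eq with h | h
    · simp only [q, Nat.add_mul_mod_self_left, Nat.mod_eq_of_lt h,
        Nat.add_mul_div_left _ _ hLpos, Nat.div_eq_of_lt h, zero_add]
    · simp only [q, h, Nat.add_mul_mod_self_left, Nat.mod_self,
        Nat.add_mul_div_left _ _ hLpos, Nat.div_self hLpos, hp0', hpL]
      push_cast
      ring_nf
  refine ⟨q, 2 * L, fun j => ?_, fun j0 x => ?_, fun c J => ?_⟩
  · have h1 := Nat.mod_lt j hLpos
    have h2 := hq (j / L) (j % L) h1.le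
    have h3 := hq (j / L) (j % L + 1) h1
    rw [Nat.add_right_comm, Nat.mod_add_div] at h3
    rw [Nat.mod_add_div] at h2
    rw [h2, h3]
    exact step_shift _ (hp _)
  · obtain ⟨i, -, hi, hi'⟩ := hK x
    have h1 := Nat.mod_lt j0 hLpos
    have h2 := Nat.mod_add_div j0 L
    refine ⟨i + L * (j0 / L + 1), ?_, ?_, ?_⟩
    · rw [mul_add]
      omega
    · rw [mul_add]
      omega
    · rw [hq _ _ (by omega)]
      exact hi'
  · obtain ⟨n, hn⟩ := exists_nat_ge (c - a0)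
    refine ⟨0 + L * (n + J), ?_, ?_⟩
    · nlinarith
    · rw [hq _ _ (Nat.zero_le L), hp0']
      have h1 : (1 : ℝ) ≤ k := by exact_mod_cast hk
      have h2 : (0 : ℝ) ≤ n + J := by positivity
      have h3 := mul_le_mul_of_nonneg_left h1 h2
      have h4 : (0 : ℝ) ≤ J := by positivity
      push_cast
      linarith

lemma abs_sub_le_of_steps {a : ℕ → ℝ} {ε : ℝ} (h : ∀ j, dist (a j) (a (j + 1)) < ε) (i n : ℕ) :
    |a (i + n) - a i| ≤ n * ε := by
  induction n with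
  | zero => simp
  | succ n ih =>
    have h1 := h (i + n)
    rw [Real.dist_eq, abs_lt] at h1
    rw [abs_le] at ih ⊢
    rw [← add_assoc]
    push_cast
    constructor <;> linarith

lemma approx_amalgam {Y : Type*} [MetricSpace Y] [CompactSpace X] [ConnectedSpace X]
    [CompactSpace Y] [ConnectedSpace Y] {φ : X → UnitAddCircle} {ψ : Y → UnitAddCircle}
    (hφ : Continuous φ) (hψ : Continuous ψ) (hE : Ess φ) (hE' : Ess ψ) {ε : ℝ} (hε : 0 < ε) :
    ∃ C : Set (X × Y), C.Nonempty ∧ (∀ a ∈ C, ∀ b ∈ C, Ch ε C a b) ∧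
      (∀ x, ∃ c ∈ C, dist c.1 x < ε) ∧ (∀ y, ∃ c ∈ C, dist c.2 y < ε) ∧
      ∀ c ∈ C, dist (φ c.1) (ψ c.2) < ε := by
  obtain ⟨p, P, hp, hpd, hpu⟩ := exists_periodic_walk hφ hE hε
  obtain ⟨q, Q, hq, hqd, hqu⟩ := exists_periodic_walk hψ hE' hε
  have hp1 : ∀ j, dist (p j).1 (p (j + 1)).1 < ε := fun j => (le_max_left _ _).trans_lt (hp j).2.2
  have hp2 : ∀ j, dist (p j).2 (p (j + 1)).2 < ε := fun j => (le_max_right _ _).trans_lt (hp j).2.2
  have hq1 : ∀ j, dist (q j).1 (q (j + 1)).1 < ε := fun j => (le_max_left _ _).trans_lt (hq j).2.2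
  have hq2 : ∀ j, dist (q j).2 (q (j + 1)).2 < ε := fun j => (le_max_right _ _).trans_lt (hq j).2.2
  obtain ⟨L, hL, hL'⟩ := hpu ((p 0).2 + (Q + 2) * ε) P
  obtain ⟨n, hn⟩ := exists_nat_ge ((q 0).2 - (p 0).2 + L * ε)
  obtain ⟨N, hN, hN'⟩ := hqu ((p 0).2 + L * ε + n) L
  have hbd : ∀ i, |(p (min i L)).2 - (p 0).2| ≤ L * ε := fun i => by
    have h1 := abs_sub_le_of_steps hp2 0 (min i L)
    rw [zero_add] at h1
    exact h1.trans (mul_le_mul_of_nonneg_right (by exact_mod_cast min_le_right i L) hε.le)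
  let d : ℕ × ℕ → ℝ := fun v => (p (min v.1 L)).2 - ((q v.2).2 - n)
  have hadj : ∀ v w, Adj v w → dist (p (min v.1 L)).1 (p (min w.1 L)).1 < ε ∧
      dist (q v.2).1 (q w.2).1 < ε ∧ |d v - d w| < 2 * ε := by
    intro v w h
    obtain ⟨h1, h2, h3, h4⟩ := h
    refine ⟨dist_floor_lt (y := fun j => (p j).1) hε (K := 0) (fun k _ => hp1 k) (Nat.zero_le _)
      (Nat.zero_le _) (by omega) (by omega), dist_floor_lt (y := fun j => (q j).1) hε (K := 0)
      (fun k _ => hq1 k) (Nat.zero_le _) (Nat.zero_le _) h3 h4, ?_⟩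
    have h5 := dist_floor_lt (y := fun j => (p j).2) hε (K := 0) (fun k _ => hp2 k)
      (Nat.zero_le (min v.1 L)) (Nat.zero_le (min w.1 L)) (by omega) (by omega)
    have h6 := dist_floor_lt (y := fun j => (q j).2) hε (K := 0) (fun k _ => hq2 k)
      (Nat.zero_le _) (Nat.zero_le _) h3 h4
    rw [Real.dist_eq, abs_lt] at h5 h6
    simp only [d, abs_lt]
    constructor <;> linarith
  obtain ⟨u, v, hu0, hu, huv, hvN⟩ := hex (fun v => |d v| < ε) N (by
    intro u v hu0 hu hpath hvN hle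
    have h1 : ε ≤ d u := by
      have h2 := (abs_le.1 (hbd u.1)).1
      have h3 : 0 ≤ d u := by
        simp only [d, hu0]
        linarith
      rwa [abs_of_nonneg h3, not_lt] at hu
    have h2 : ε ≤ d v := by
      clear hvN hle
      induction hpath with
      | refl => exact h1
      | @tail a b _ hab ih =>
        have h3 := abs_lt.1 (hadj a b hab.1).2.2
        exact not_lt.1 fun h4 => hab.2 (abs_lt.2 ⟨by linarith, h4⟩)
    have h3 := (abs_le.1 (hbd v.1)).2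
    simp only [d, hvN] at h2
    linarith)
  let c : ℕ × ℕ → X × Y := fun w => ((p (min w.1 L)).1, (q w.2).1)
  have hch : ∀ w, Path (fun v => |d v| < ε) u w →
      Ch ε (c '' {w | Path (fun v => |d v| < ε) u w}) (c u) (c w) := by
    intro w hw
    induction hw with
    | refl => exact Ch.refl _ _ _
    | @tail a b ha hab ih =>
      exact ih.trans (Ch.single ⟨⟨a, ha, rfl⟩, ⟨b, ReflTransGen.tail ha hab, rfl⟩,
        max_lt (hadj a b hab.1).1 (hadj a b hab.1).2.1⟩)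
  refine ⟨c '' {w | Path (fun v => |d v| < ε) u w}, ⟨_, u, ReflTransGen.refl, rfl⟩, ?_,
    fun x => ?_, fun y => ?_, ?_⟩
  · rintro _ ⟨a, ha, rfl⟩ _ ⟨b, hb, rfl⟩
    exact (hch a ha).symm.trans (hch b hb)
  · obtain ⟨j, -, hj, hjx⟩ := hpd 0 x
    obtain ⟨w, hw, hwj⟩ := path_ivt_fst huv j (Or.inl ⟨by omega, by omega⟩)
    refine ⟨_, ⟨w, hw, rfl⟩, ?_⟩
    simp only [c, hwj, min_eq_left (show j ≤ L by omega)]
    exact hjx
  · have h1 := abs_lt.1 hu
    have h2 := abs_lt.1 (huv.mem hu)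
    simp only [d, hu0, hvN, min_eq_right hN, Nat.zero_min] at h1 h2
    have h3 : Q * ε < (q v.2).2 - (q u.2).2 := by linarith
    have h4 : u.2 + Q ≤ v.2 ∨ v.2 + Q ≤ u.2 := by
      by_contra hcon
      have h5 : ∀ a b : ℕ, a ≤ b → b < a + Q → |(q b).2 - (q a).2| ≤ Q * ε := by
        intro a b hab hb
        have h6 := abs_sub_le_of_steps hq2 a (b - a)
        rw [Nat.add_sub_cancel' hab] at h6
        exact h6.trans (mul_le_mul_of_nonneg_right (by exact_mod_cast (by omega)) hε.le)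
      rcases le_total u.2 v.2 with h | h
      · linarith [(abs_le.1 (h5 _ _ h (by omega))).2]
      · linarith [(abs_le.1 (h5 _ _ h (by omega))).1]
    obtain ⟨j, hj1, hj2, hjy⟩ := hqd (min u.2 v.2) y
    obtain ⟨w, hw, hwj⟩ := path_ivt_snd huv j (by omega)
    exact ⟨_, ⟨w, hw, rfl⟩, by simp only [c, hwj]; exact hjy⟩
  · rintro _ ⟨w, hw, rfl⟩
    have h1 : ((p (min w.1 L)).2 : UnitAddCircle) = φ (p (min w.1 L)).1 := (hp _).1
    have h2 : (((q w.2).2 - n : ℝ) : UnitAddCircle) = ψ (q w.2).1 := by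
      rw [← show ((q w.2).2 : UnitAddCircle) = ψ (q w.2).1 from (hq _).1]
      have := (AddCircle.coe_eq_zero_iff (1 : ℝ) (x := n)).2 ⟨n, by simp⟩
      rw [QuotientAddGroup.mk_sub, this, sub_zero]
    simp only [c]
    rw [← h1, ← h2]
    exact (dist_coe_le _ _).trans_lt (Path.mem hw hu)

theorem ess_amalgam {Y : Type*} [MetricSpace Y] [CompactSpace X] [ConnectedSpace X]
    [CompactSpace Y] [ConnectedSpace Y] {φ : X → UnitAddCircle} {ψ : Y → UnitAddCircle}
    (hφ : Continuous φ) (hψ : Continuous ψ) (hE : Ess φ) (hE' : Ess ψ) :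
    ∃ K : Set (X × Y), IsConnected K ∧ Prod.fst '' K = univ ∧ Prod.snd '' K = univ ∧
      ∀ z ∈ K, φ z.1 = ψ z.2 := by
  choose C h1 h2 h3 h4 h5 using fun n : ℕ => approx_amalgam hφ hψ hE hE'
    (show 0 < 1 / ((n : ℝ) + 1) by positivity)
  have hlim : ∀ δ > 0, ∀ᶠ n : ℕ in atTop, 1 / ((n : ℝ) + 1) < δ := fun δ hδ =>
    (tendsto_one_div_add_atTop_nhds_zero_nat (𝕜 := ℝ)).eventually (gt_mem_nhds hδ)
  obtain ⟨K, -, hK2, hK3, hK4, hK5⟩ := amalgam C h1
    (fun δ hδ => (hlim δ hδ).mono fun n hn a ha b hb => (h2 n a ha b hb).mono hn.le)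
    (fun δ hδ x => (hlim δ hδ).mono fun n hn => by
      obtain ⟨c, hc, h⟩ := h3 n x
      exact ⟨c, hc, h.trans hn⟩)
    (fun δ hδ y => (hlim δ hδ).mono fun n hn => by
      obtain ⟨c, hc, h⟩ := h4 n y
      exact ⟨c, hc, h.trans hn⟩)
  exact ⟨K, hK2, hK3, hK4, fun z hz => dist_le_zero.1 (hK5 (fun z => dist (φ z.1) (ψ z.2))
    (by fun_prop) (fun δ hδ => (hlim δ hδ).mono fun n hn c hc => (h5 n c hc).trans hn) z hz)⟩

end Pool.Agent.P.MP_3ef9ff_gt
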