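import Mathlib

/-!
Discrete lemmas: the game of Hex with king moves, a compactness lemma for infinite paths, and
concatenation of finite paths.
-/

set_option autoImplicit false

open Relation Filter

namespace Pool.Agent.P.MP_3ef9ff_gt

/-- King adjacency on the quarter grid. -/
def Adj (v w : ℕ × ℕ) : Prop :=
  v.1 ≤ w.1 + 1 ∧ w.1 ≤ v.1 + 1 ∧ v.2 ≤ w.2 + 1 ∧ w.2 ≤ v.2 + 1

/-- King paths all of whose vertices after the first satisfy `P`. -/
def Path (P : ℕ × ℕ → Prop) : ℕ × ℕ → ℕ × ℕ → Prop := ReflTransGen fun a b => Adj a b ∧ P b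

lemma Path.mem {P : ℕ × ℕ → Prop} {a b : ℕ × ℕ} (h : Path P a b) (ha : P a) : P b := by
  induction h with
  | refl => exact ha
  | tail _ hs _ => exact hs.2

lemma Path.mono {P Q : ℕ × ℕ → Prop} (hPQ : ∀ v, P v → Q v) {a b : ℕ × ℕ} (h : Path P a b) :
    Path Q a b := by
  induction h with
  | refl => exact ReflTransGen.refl
  | tail _ hs ih => exact ReflTransGen.tail ih ⟨hs.1, hPQ _ hs.2⟩

/-- The Hex lemma for king moves. -/
theorem hex (Wh : ℕ × ℕ → Prop) (N : ℕ)
    (hblack : ∀ u v : ℕ × ℕ, u.2 = 0 → ¬ Wh u → Path (fun x => ¬ Wh x) u v → v.2 = N → v.1 ≤ N →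
      False) :
    ∃ u v : ℕ × ℕ, u.1 = 0 ∧ Wh u ∧ Path Wh u v ∧ v.1 = N := by
  classical
  by_contra hwhite
  push Not at hwhite
  set L : ℕ × ℕ → Prop := fun v => ∃ u : ℕ × ℕ, u.1 = 0 ∧ Wh u ∧ Path Wh u v with hL
  set B : ℕ × ℕ → Prop := fun v => ∃ u : ℕ × ℕ, u.2 = 0 ∧ ¬ Wh u ∧ Path (fun x => ¬ Wh x) u v
    with hB
  have hLW : ∀ v, L v → Wh v := fun v ⟨u, _, hu, hp⟩ => hp.mem hu
  have hBW : ∀ v, B v → ¬ Wh v := fun v ⟨u, _, hu, hp⟩ => hp.mem hu
  have hLa : ∀ v w, L v → Adj v w → Wh w → L w := fun v w ⟨u, h0, hu, hp⟩ ha hw =>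
    ⟨u, h0, hu, ReflTransGen.tail hp ⟨ha, hw⟩⟩
  have hBa : ∀ v w, B v → Adj v w → ¬ Wh w → B w := fun v w ⟨u, h0, hu, hp⟩ ha hw =>
    ⟨u, h0, hu, ReflTransGen.tail hp ⟨ha, hw⟩⟩
  have hL0 : ∀ v : ℕ × ℕ, v.1 = 0 → Wh v → L v := fun v h0 hv => ⟨v, h0, hv, ReflTransGen.refl⟩
  have hB0 : ∀ v : ℕ × ℕ, v.2 = 0 → ¬ Wh v → B v := fun v h0 hv => ⟨v, h0, hv, ReflTransGen.refl⟩
  have hLN : ∀ v : ℕ × ℕ, v.1 = N → ¬ L v := fun v hN ⟨u, h0, hu, hp⟩ => hwhite u v h0 hu hp hN
  have hBN : ∀ v : ℕ × ℕ, v.2 = N → v.1 ≤ N → ¬ B v := fun v hN hle ⟨u, h0, hu, hp⟩ =>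
    hblack u v h0 hu hp hN hle
  set l : ℕ × ℕ → ZMod 2 := fun v => if L v then 1 else 0 with hl
  set b : ℕ × ℕ → ZMod 2 := fun v => if B v then 1 else 0 with hb
  set g : ℕ × ℕ → ℕ × ℕ → ZMod 2 := fun u v => l u * b v + b u * l v with hg
  have sq : ∀ i j, g (i, j) (i + 1, j) + g (i, j + 1) (i + 1, j + 1) =
      g (i, j) (i, j + 1) + g (i + 1, j) (i + 1, j + 1) := by
    intro i j
    have a12 : Adj (i, j) (i + 1, j) := by simp only [Adj]; omega
    have a13 : Adj (i, j) (i, j + 1) := by simp only [Adj]; omega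
    have a14 : Adj (i, j) (i + 1, j + 1) := by simp only [Adj]; omega
    have a21 : Adj (i + 1, j) (i, j) := by simp only [Adj]; omega
    have a23 : Adj (i + 1, j) (i, j + 1) := by simp only [Adj]; omega
    have a24 : Adj (i + 1, j) (i + 1, j + 1) := by simp only [Adj]; omega
    have a31 : Adj (i, j + 1) (i, j) := by simp only [Adj]; omega
    have a32 : Adj (i, j + 1) (i + 1, j) := by simp only [Adj]; omega
    have a34 : Adj (i, j + 1) (i + 1, j + 1) := by simp only [Adj]; omega
    have a41 : Adj (i + 1, j + 1) (i, j) := by simp only [Adj]; omega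
    have a42 : Adj (i + 1, j + 1) (i + 1, j) := by simp only [Adj]; omega
    have a43 : Adj (i + 1, j + 1) (i, j + 1) := by simp only [Adj]; omega
    by_cases hexL : L (i, j) ∨ L (i + 1, j) ∨ L (i, j + 1) ∨ L (i + 1, j + 1)
    · by_cases hexB : B (i, j) ∨ B (i + 1, j) ∨ B (i, j + 1) ∨ B (i + 1, j + 1)
      · have key : ∀ v : ℕ × ℕ, Adj (i, j) v → Adj (i + 1, j) v → Adj (i, j + 1) v →
            Adj (i + 1, j + 1) v → b v = 1 + l v := by
          intro v h1 h2 h3 h4
          by_cases hv : Wh v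
          · have h5 : L v := by
              rcases hexL with h | h | h | h
              exacts [hLa _ _ h h1 hv, hLa _ _ h h2 hv, hLa _ _ h h3 hv, hLa _ _ h h4 hv]
            have h6 : ¬ B v := fun h => hBW v h hv
            simp only [hl, hb, if_pos h5, if_neg h6]
            decide
          · have h5 : B v := by
              rcases hexB with h | h | h | h
              exacts [hBa _ _ h h1 hv, hBa _ _ h h2 hv, hBa _ _ h h3 hv, hBa _ _ h h4 hv]
            have h6 : ¬ L v := fun h => hv (hLW v h)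
            simp only [hl, hb, if_pos h5, if_neg h6]
            decide
        have ar : ∀ v, Adj v v := fun v => by simp only [Adj]; omega
        simp only [hg]
        rw [key _ (ar _) a21 a31 a41, key _ a12 (ar _) a32 a42, key _ a13 a23 (ar _) a43,
          key _ a14 a24 a34 (ar _)]
        generalize l (i, j) = x1
        generalize l (i + 1, j) = x2
        generalize l (i, j + 1) = x3
        generalize l (i + 1, j + 1) = x4
        revert x1 x2 x3 x4
        decide
      · push Not at hexB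
        simp only [hg, hb, if_neg hexB.1, if_neg hexB.2.1, if_neg hexB.2.2.1, if_neg hexB.2.2.2]
        simp
    · push Not at hexL
      simp only [hg, hl, if_neg hexL.1, if_neg hexL.2.1, if_neg hexL.2.2.1, if_neg hexL.2.2.2]
      simp
  have two : ∀ x : ZMod 2, x + x = 0 := by decide
  have row : ∀ j n, (∑ i ∈ Finset.range n, g (i, j) (i + 1, j)) +
      (∑ i ∈ Finset.range n, g (i, j + 1) (i + 1, j + 1)) =
      g (0, j) (0, j + 1) + g (n, j) (n, j + 1) := by
    intro j n
    induction n with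
    | zero => simp [two]
    | succ n ih =>
      rw [Finset.sum_range_succ, Finset.sum_range_succ]
      have := sq n j
      have h2 := two (g (n, j) (n, j + 1))
      linear_combination ih + this + h2
  have left : ∀ j, g (0, j) (0, j + 1) = b (0, j) + b (0, j + 1) := by
    intro j
    have a1 : Adj (0, j) (0, j + 1) := by simp only [Adj]; omega
    have a2 : Adj (0, j + 1) (0, j) := by simp only [Adj]; omega
    by_cases h1 : Wh (0, j) <;> by_cases h2 : Wh (0, j + 1)
    · have e1 : ¬ B (0, j) := fun h => hBW _ h h1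
      have e2 : ¬ B (0, j + 1) := fun h => hBW _ h h2
      simp [hg, hb, e1, e2]
    · have e1 : ¬ B (0, j) := fun h => hBW _ h h1
      have e2 : L (0, j) := hL0 _ rfl h1
      simp only [hg, hb, hl, if_neg e1, if_pos e2]
      simp
    · have e1 : ¬ B (0, j + 1) := fun h => hBW _ h h2
      have e2 : L (0, j + 1) := hL0 _ rfl h2
      simp only [hg, hb, hl, if_neg e1, if_pos e2]
      simp
    · have e1 : ¬ L (0, j) := fun h => h1 (hLW _ h)
      have e2 : ¬ L (0, j + 1) := fun h => h2 (hLW _ h)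
      have e3 : b (0, j) = b (0, j + 1) := by
        simp only [hb]
        by_cases h : B (0, j)
        · rw [if_pos h, if_pos (hBa _ _ h a1 h2)]
        · rw [if_neg h, if_neg fun h' => h (hBa _ _ h' a2 h1)]
      simp only [hg, hl, if_neg e1, if_neg e2, e3, two]
      simp
  have bottom : ∀ i, g (i, 0) (i + 1, 0) = l (i, 0) + l (i + 1, 0) := by
    intro i
    have a1 : Adj (i, 0) (i + 1, 0) := by simp only [Adj]; omega
    have a2 : Adj (i + 1, 0) (i, 0) := by simp only [Adj]; omega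
    by_cases h1 : Wh (i, 0) <;> by_cases h2 : Wh (i + 1, 0)
    · have e1 : ¬ B (i, 0) := fun h => hBW _ h h1
      have e2 : ¬ B (i + 1, 0) := fun h => hBW _ h h2
      have e3 : l (i, 0) = l (i + 1, 0) := by
        simp only [hl]
        by_cases h : L (i, 0)
        · rw [if_pos h, if_pos (hLa _ _ h a1 h2)]
        · rw [if_neg h, if_neg fun h' => h (hLa _ _ h' a2 h1)]
      simp only [hg, hb, if_neg e1, if_neg e2, e3, two]
      simp
    · have e1 : ¬ L (i + 1, 0) := fun h => h2 (hLW _ h)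
      have e2 : B (i + 1, 0) := hB0 _ rfl h2
      simp only [hg, hb, hl, if_neg e1, if_pos e2]
      simp
    · have e1 : ¬ L (i, 0) := fun h => h1 (hLW _ h)
      have e2 : B (i, 0) := hB0 _ rfl h1
      simp only [hg, hb, hl, if_neg e1, if_pos e2]
      simp
    · have e1 : ¬ L (i, 0) := fun h => h1 (hLW _ h)
      have e2 : ¬ L (i + 1, 0) := fun h => h2 (hLW _ h)
      simp only [hg, hl, if_neg e1, if_neg e2]
      simp
  have right : ∀ j, g (N, j) (N, j + 1) = 0 := by
    intro j
    simp only [hg, hl, if_neg (hLN (N, j) rfl), if_neg (hLN (N, j + 1) rfl)]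
    simp
  have inv : ∀ j, (∑ i ∈ Finset.range N, g (i, j) (i + 1, j)) + b (0, j) = 1 := by
    intro j
    induction j with
    | zero =>
      have tel : ∀ n, (∑ i ∈ Finset.range n, g (i, 0) (i + 1, 0)) = l (0, 0) + l (n, 0) := by
        intro n
        induction n with
        | zero => simp [two]
        | succ n ih =>
          rw [Finset.sum_range_succ, ih, bottom]
          have h2 := two (l (n, 0))
          linear_combination h2
      rw [tel]
      by_cases h : Wh (0, 0)
      · have e1 : ¬ B (0, 0) := fun h' => hBW _ h' h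
        simp only [hl, hb, if_neg (hLN (N, 0) rfl), if_pos (hL0 (0, 0) rfl h), if_neg e1]
        simp
      · have e1 : ¬ L (0, 0) := fun h' => h (hLW _ h')
        simp only [hl, hb, if_neg (hLN (N, 0) rfl), if_pos (hB0 (0, 0) rfl h), if_neg e1]
        simp
    | succ j ih =>
      have h1 := row j N
      rw [left, right] at h1
      have h2 := two (∑ i ∈ Finset.range N, g (i, j) (i + 1, j))
      have h3 := two (b (0, j + 1))
      have h4 := two (b (0, j))
      linear_combination h1 + ih - h2 + h3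
  have fin := inv N
  have top : (∑ i ∈ Finset.range N, g (i, N) (i + 1, N)) = 0 := by
    refine Finset.sum_eq_zero fun i hi => ?_
    have hi' := Finset.mem_range.1 hi
    simp only [hg, hb, if_neg (hBN (i, N) rfl hi'.le), if_neg (hBN (i + 1, N) rfl hi')]
    simp
  rw [top] at fin
  simp only [hb, if_neg (hBN (0, N) rfl (Nat.zero_le N))] at fin
  exact absurd fin (by decide)

/-- Concatenation of finite paths into an infinite path. -/
theorem concat_paths {α : Type*} (R : ℕ → α → α → Prop) (v : ℕ → α)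
    (h : ∀ n, TransGen (R n) (v n) (v (n + 1))) :
    ∃ (s : ℕ → α) (c : ℕ → ℕ), Tendsto c atTop atTop ∧ (∀ k, R (c k) (s k) (s (k + 1))) ∧
      s 0 = v 0 ∧ ∀ n, ∃ k, n ≤ k ∧ s k = v n := by
  have hfin : ∀ (n : ℕ) (a b : α), TransGen (R n) a b → ∃ (L : ℕ) (p : ℕ → α), p 0 = a ∧
      p (L + 1) = b ∧ ∀ i ≤ L, R n (p i) (p (i + 1)) := by
    intro n a b hab
    induction hab with
    | @single b hb => exact ⟨0, fun i => if i = 0 then a else b, by simp, by simp, fun i hi => by
        obtain rfl : i = 0 := by omega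
        simpa using hb⟩
    | @tail b c _ hbc ih =>
      obtain ⟨L, p, h0, h1, h2⟩ := ih
      refine ⟨L + 1, fun i => if i ≤ L + 1 then p i else c, by simp [h0], by simp, fun i hi => ?_⟩
      by_cases hi' : i ≤ L
      · simp only [if_pos (show i ≤ L + 1 by omega), if_pos (show i + 1 ≤ L + 1 by omega)]
        exact h2 i hi'
      · obtain rfl : i = L + 1 := by omega
        simp only [le_refl, if_true, if_neg (show ¬ L + 1 + 1 ≤ L + 1 by omega), h1]
        exact hbc
  choose L p hp0 hpL hpR using fun n => hfin n _ _ (h n)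
  let nxt : ℕ × ℕ → ℕ × ℕ := fun x => if x.2 < L x.1 then (x.1, x.2 + 1) else (x.1 + 1, 0)
  let st : ℕ → ℕ × ℕ := fun k => nxt^[k] (0, 0)
  have hst : ∀ k, st (k + 1) = nxt (st k) := fun k => Function.iterate_succ_apply' _ _ _
  have hle : ∀ k, (st k).2 ≤ L (st k).1 := by
    intro k
    induction k with
    | zero => exact Nat.zero_le _
    | succ k ih =>
      rw [hst]
      simp only [nxt]
      split_ifs with h
      · exact h
      · exact Nat.zero_le _
  have hmono : Monotone fun k => (st k).1 := monotone_nat_of_le_succ fun k => by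
    simp only [hst, nxt]
    split_ifs <;> simp
  have hvisit : ∀ n, ∃ k, n ≤ k ∧ st k = (n, 0) := by
    intro n
    induction n with
    | zero => exact ⟨0, le_rfl, rfl⟩
    | succ n ih =>
      obtain ⟨k, hk, hk'⟩ := ih
      have : ∀ i ≤ L n, st (k + i) = (n, i) := by
        intro i hi
        induction i with
        | zero => exact hk'
        | succ i ih' =>
          rw [← add_assoc, hst, ih' (by omega)]
          simp only [nxt]
          rw [if_pos (by omega)]
      refine ⟨k + L n + 1, by omega, ?_⟩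
      rw [hst, this _ le_rfl]
      simp [nxt]
  refine ⟨fun k => p (st k).1 (st k).2, fun k => (st k).1, ?_, fun k => ?_, hp0 0, fun n => ?_⟩
  · refine tendsto_atTop_atTop.2 fun n => ?_
    obtain ⟨k, -, hk⟩ := hvisit n
    refine ⟨k, fun m hm => ?_⟩
    have := hmono hm
    simp only [hk] at this
    exact this
  · have h1 := hpR (st k).1 (st k).2 (hle k)
    simp only [hst, nxt]
    split_ifs with h
    · exact h1
    · have e : (st k).2 = L (st k).1 := le_antisymm (hle k) (not_lt.1 h)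
      rw [hp0, ← hpL, ← e]
      exact h1
  · obtain ⟨k, hk, hk'⟩ := hvisit n
    exact ⟨k, hk, by simp only [hk', hp0]⟩

lemma exists_forall_of_finite {α : Type*} {F : Set α} (hF : F.Finite) (P : α → ℕ → Prop)
    (hanti : ∀ a m m', m ≤ m' → P a m' → P a m) (h : ∀ m, ∃ a ∈ F, P a m) :
    ∃ a ∈ F, ∀ m, P a m := by
  by_contra hn
  push Not at hn
  choose! f hf using hn
  obtain ⟨C, hC⟩ := (hF.image f).bddAbove
  obtain ⟨a, ha, hP⟩ := h C
  exact hf a ha (hanti a _ _ (hC ⟨a, ha, rfl⟩) hP)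

/-- Last visit to a column. -/
lemma last_visit {P : ℕ × ℕ → Prop} {v w : ℕ × ℕ} (c : ℕ) (hvc : v.1 < c) (h : Path P v w) :
    w.1 < c ∨ ∃ u : ℕ × ℕ, u.1 = c ∧ P u ∧ Path P v u ∧ Path (fun x => P x ∧ c ≤ x.1) u w := by
  induction h with
  | refl => exact Or.inl hvc
  | @tail a b hva hab ih =>
    by_cases hb : b.1 < c
    · exact Or.inl hb
    · right
      rcases ih with ha | ⟨u, hu, hPu, h1, h2⟩
      · refine ⟨b, ?_, hab.2, ReflTransGen.tail hva hab, ReflTransGen.refl⟩
        have := hab.1.2.1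
        omega
      · exact ⟨u, hu, hPu, h1, ReflTransGen.tail h2 ⟨hab.1, hab.2, not_lt.1 hb⟩⟩

/-- From long paths to an infinite path, when columns are finite. -/
theorem infinite_path (Wh : ℕ × ℕ → Prop) (hfin : ∀ i, {v : ℕ × ℕ | v.1 = i ∧ Wh v}.Finite)
    (h : ∀ N, ∃ u v : ℕ × ℕ, u.1 = 0 ∧ Wh u ∧ Path Wh u v ∧ v.1 = N) :
    ∃ s : ℕ → ℕ × ℕ, (∀ k, Adj (s k) (s (k + 1))) ∧ (∀ k, Wh (s k)) ∧
      Tendsto (fun k => (s k).1) atTop atTop := by
  let reach : ℕ → ℕ × ℕ → ℕ → Prop := fun n v m =>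
    ∃ w : ℕ × ℕ, m ≤ w.1 ∧ Path (fun x => Wh x ∧ n ≤ x.1) v w
  have hanti : ∀ n a m m', m ≤ m' → reach n a m' → reach n a m :=
    fun n a m m' hm ⟨w, hw, hp⟩ => ⟨w, hm.trans hw, hp⟩
  let good : ℕ → ℕ × ℕ → Prop := fun n v => (v.1 = n ∧ Wh v) ∧ ∀ m, reach n v m
  have h0 : ∃ v, good 0 v := by
    obtain ⟨a, ha, hP⟩ := exists_forall_of_finite (hfin 0) (reach 0) (hanti 0) (fun m => by
      obtain ⟨u, v, hu, hWu, hp, hv⟩ := h m
      exact ⟨u, ⟨hu, hWu⟩, v, hv.ge, hp.mono fun x hx => ⟨hx, Nat.zero_le _⟩⟩)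
    exact ⟨a, ha, hP⟩
  have hstep : ∀ n v, good n v → ∃ u, good (n + 1) u ∧ Path (fun x => Wh x ∧ n ≤ x.1) v u := by
    intro n v hv
    obtain ⟨a, ha, hP⟩ := exists_forall_of_finite (hfin (n + 1))
      (fun u m => Path (fun x => Wh x ∧ n ≤ x.1) v u ∧ reach (n + 1) u m)
      (fun a m m' hm hh => ⟨hh.1, hanti _ _ _ _ hm hh.2⟩) (fun m => by
        obtain ⟨w, hw, hp⟩ := hv.2 (max m (n + 1))
        rcases last_visit (n + 1) (by rw [hv.1.1]; omega) hp with hlt | ⟨u, hu, hPu, h1, h2⟩
        · exact absurd ((le_max_right _ _).trans hw) (not_le.2 hlt)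
        · exact ⟨u, ⟨hu, hPu.1⟩, h1, w, (le_max_left _ _).trans hw,
            h2.mono fun x hx => ⟨hx.1.1, hx.2⟩⟩)
    exact ⟨a, ⟨ha, fun m => (hP m).2⟩, (hP 0).1⟩
  choose! nxt hnxt using hstep
  obtain ⟨v0, hv0⟩ := h0
  let v : ℕ → ℕ × ℕ := fun n => Nat.rec v0 (fun n x => nxt n x) n
  have hv : ∀ n, good n (v n) := by
    intro n
    induction n with
    | zero => exact hv0
    | succ n ih => exact (hnxt n _ ih).1
  obtain ⟨s, c, hc, hR, hs0, -⟩ := concat_paths
    (fun n a b => Adj a b ∧ Wh b ∧ n ≤ b.1) v (fun n => by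
      have hp := (hnxt n _ (hv n)).2
      rcases reflTransGen_iff_eq_or_transGen.1 hp with he | ht
      · exfalso
        have h1 := (hv n).1.1
        have h2 := (hv (n + 1)).1.1
        have h3 : v (n + 1) = v n := he
        rw [h3] at h2
        omega
      · exact ht)
  refine ⟨s, fun k => (hR k).1, fun k => ?_, ?_⟩
  · cases k with
    | zero => rw [hs0]; exact hv0.1.2
    | succ k => exact (hR k).2.1
  · rw [← tendsto_add_atTop_iff_nat 1]
    exact tendsto_atTop_mono (fun k => (hR k).2.2) hc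

end Pool.Agent.P.MP_3ef9ff_gt
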