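import Pool.Agent.P.MP_3ef9ff_gt.Span
import Pool.Agent.P.MP_3ef9ff_gt.Hex

/-!
Two sequences with vanishing steps and dense tails in a span zero compactum can be synchronised.
-/

set_option autoImplicit false

open Set Metric Filter Topology Relation

namespace Pool.Agent.P.MP_3ef9ff_gt

variable {M : Type*} [MetricSpace M]

lemma path_ivt_fst {P : ℕ × ℕ → Prop} {v w : ℕ × ℕ} (h : Path P v w) (c : ℕ)
    (hc : (v.1 ≤ c ∧ c ≤ w.1) ∨ (w.1 ≤ c ∧ c ≤ v.1)) : ∃ u : ℕ × ℕ, Path P v u ∧ u.1 = c := by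
  induction h with
  | refl => exact ⟨v, ReflTransGen.refl, by omega⟩
  | @tail a b hva hab ih =>
    by_cases h' : (v.1 ≤ c ∧ c ≤ a.1) ∨ (a.1 ≤ c ∧ c ≤ v.1)
    · exact ih h'
    · refine ⟨b, ReflTransGen.tail hva hab, ?_⟩
      have h1 := hab.1.1
      have h2 := hab.1.2.1
      omega

lemma path_ivt_snd {P : ℕ × ℕ → Prop} {v w : ℕ × ℕ} (h : Path P v w) (c : ℕ)
    (hc : (v.2 ≤ c ∧ c ≤ w.2) ∨ (w.2 ≤ c ∧ c ≤ v.2)) : ∃ u : ℕ × ℕ, Path P v u ∧ u.2 = c := by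
  induction h with
  | refl => exact ⟨v, ReflTransGen.refl, by omega⟩
  | @tail a b hva hab ih =>
    by_cases h' : (v.2 ≤ c ∧ c ≤ a.2) ∨ (a.2 ≤ c ∧ c ≤ v.2)
    · exact ih h'
    · refine ⟨b, ReflTransGen.tail hva hab, ?_⟩
      have h1 := hab.1.2.2.1
      have h2 := hab.1.2.2.2
      omega

lemma dense_block [CompactSpace M] {a : ℕ → M}
    (hd : ∀ x : M, ∀ ε > 0, ∀ K, ∃ i, K ≤ i ∧ dist (a i) x < ε) {δ : ℝ} (hδ : 0 < δ) (K : ℕ) :
    ∃ K', ∀ x : M, ∃ i, K ≤ i ∧ i ≤ K' ∧ dist (a i) x < δ := by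
  obtain ⟨t, -, ht⟩ := (isCompact_univ (X := M)).elim_nhds_subcover (fun y => ball y (δ / 2))
    (fun y _ => ball_mem_nhds y (half_pos hδ))
  choose f hf using fun x => hd x (δ / 2) (half_pos hδ) K
  refine ⟨t.sup f, fun x => ?_⟩
  obtain ⟨y, hy, hxy⟩ := mem_iUnion₂.1 (ht (mem_univ x))
  refine ⟨f y, (hf y).1, Finset.le_sup hy, ?_⟩
  calc dist (a (f y)) x ≤ dist (a (f y)) y + dist x y := dist_triangle_right _ _ _
    _ < δ / 2 + δ / 2 := add_lt_add (hf y).2 hxy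
    _ = δ := add_halves δ

/-- The block structure. -/
lemma exists_blocks [CompactSpace M] (hM : SpanZero M) {a b : ℕ → M}
    (ha : Tendsto (fun i => dist (a i) (a (i + 1))) atTop (𝓝 0))
    (hb : Tendsto (fun i => dist (b i) (b (i + 1))) atTop (𝓝 0))
    (hda : ∀ x : M, ∀ ε > 0, ∀ K, ∃ i, K ≤ i ∧ dist (a i) x < ε)
    (hdb : ∀ x : M, ∀ ε > 0, ∀ K, ∃ i, K ≤ i ∧ dist (b i) x < ε) :
    ∃ α : ℕ → ℕ, α 0 = 0 ∧ Monotone α ∧ (∀ i, α (i + 1) ≤ α i + 1) ∧ Tendsto α atTop atTop ∧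
      ∀ (n : ℕ) (v w : ℕ × ℕ), n ≤ α v.1 → n ≤ α v.2 → 1 ≤ (n : ℝ) * dist (a v.1) (b v.2) →
        Path (fun x => n ≤ α x.1 ∧ n ≤ α x.2 ∧ 1 ≤ (n : ℝ) * dist (a x.1) (b x.2)) v w →
        α w.1 ≤ α v.1 + 1 ∧ α v.1 ≤ α w.1 + 1 ∧ α w.2 ≤ α v.2 + 1 ∧ α v.2 ≤ α w.2 + 1 := by
  classical
  let K : ℕ → Set (M × M) := fun n => {p | 1 ≤ (n : ℝ) * dist p.1 p.2}
  have hK : ∀ n, ∃ δ > 0, ∀ y ∈ K n, ∃ m1 m2 : M, ∀ z, Ch δ (K n) y z →
      δ ≤ dist z.1 m1 ∧ δ ≤ dist z.2 m2 := fun n =>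
    no_dense_far_chain hM (isClosed_le continuous_const (by fun_prop)) (by
      intro p hp h
      simp only [K, mem_ofPred_eq, h, dist_self, mul_zero] at hp
      exact absurd hp (by norm_num))
  choose d hd hdK using hK
  let δ : ℕ → ℝ := fun n => Nat.rec (d 0) (fun n x => min x (d (n + 1))) n
  have hδs : ∀ n, δ (n + 1) = min (δ n) (d (n + 1)) := fun n => rfl
  have hδpos : ∀ n, 0 < δ n := by
    intro n
    induction n with
    | zero => exact hd 0
    | succ n ih => exact lt_min ih (hd _)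
  have hδanti : Antitone δ := antitone_nat_of_succ_le fun n => min_le_left _ _
  have hδd : ∀ n, δ n ≤ d n := by
    intro n
    cases n with
    | zero => exact le_rfl
    | succ n => exact min_le_right _ _
  have hnext : ∀ n k : ℕ, ∃ k', k < k' ∧
      (∀ i, k' ≤ i → dist (a i) (a (i + 1)) < δ (n + 1) ∧ dist (b i) (b (i + 1)) < δ (n + 1)) ∧
      (∀ x : M, ∃ i, k ≤ i ∧ i ≤ k' ∧ dist (a i) x < δ n) ∧
      (∀ x : M, ∃ i, k ≤ i ∧ i ≤ k' ∧ dist (b i) x < δ n) := by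
    intro n k
    obtain ⟨k1, h1⟩ := eventually_atTop.1 (ha.eventually (gt_mem_nhds (hδpos (n + 1))))
    obtain ⟨k2, h2⟩ := eventually_atTop.1 (hb.eventually (gt_mem_nhds (hδpos (n + 1))))
    obtain ⟨k3, h3⟩ := dense_block hda (hδpos n) k
    obtain ⟨k4, h4⟩ := dense_block hdb (hδpos n) k
    refine ⟨k + 1 + k1 + k2 + k3 + k4, by omega,
      fun i hi => ⟨h1 i (by omega), h2 i (by omega)⟩, fun x => ?_, fun x => ?_⟩
    · obtain ⟨i, hi1, hi2, hi3⟩ := h3 x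
      exact ⟨i, hi1, by omega, hi3⟩
    · obtain ⟨i, hi1, hi2, hi3⟩ := h4 x
      exact ⟨i, hi1, by omega, hi3⟩
  choose nxt hnxt using hnext
  obtain ⟨A, hA0, hAs⟩ : ∃ A : ℕ → ℕ, A 0 = 0 ∧ ∀ n, A (n + 1) = nxt n (A n) :=
    ⟨fun n => Nat.rec 0 (fun n x => nxt n x) n, rfl, fun n => rfl⟩
  have hAmono : StrictMono A := strictMono_nat_of_lt_succ fun n => by
    rw [hAs]
    exact (hnxt n (A n)).1
  let α : ℕ → ℕ := fun i => @Nat.findGreatest (fun n => A n ≤ i) (fun n => Nat.decLe (A n) i) i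
  have hα : ∀ n i, n ≤ α i ↔ A n ≤ i := by
    intro n i
    constructor
    · intro h
      have h0 : A (α i) ≤ i :=
        Nat.findGreatest_spec (P := fun n => A n ≤ i) (Nat.zero_le i) (by simp [hA0])
      exact (hAmono.monotone h).trans h0
    · intro h
      exact Nat.le_findGreatest ((hAmono.id_le n).trans h) h
  have hαlt : ∀ n i, α i < n ↔ i < A n := fun n i => by rw [← not_le, hα, not_le]
  refine ⟨α, ?_, fun i j hij => (hα _ _).2 (((hα _ _).1 le_rfl).trans hij), fun i => ?_,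
    tendsto_atTop_atTop.2 fun n => ⟨A n, fun i hi => (hα _ _).2 hi⟩, ?_⟩
  · have : α 0 < 1 := (hαlt _ _).2 (hAmono.id_le 1)
    omega
  · by_contra h
    have h1 : α i + 2 ≤ α (i + 1) := by omega
    have h2 := (hα _ _).1 h1
    have h3 : α i < α i + 1 := Nat.lt_succ_self _
    have h4 := (hαlt _ _).1 h3
    have h5 : A (α i + 1) < A (α i + 2) := hAmono (Nat.lt_succ_self _)
    omega
  intro n v w hv1 hv2 hfar hp
  rcases n with _ | n
  · exfalso
    simp only [Nat.cast_zero, zero_mul] at hfar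
    exact absurd hfar (by norm_num)
  have hsa : ∀ i j, n + 1 ≤ α i → n + 1 ≤ α j → i ≤ j + 1 → j ≤ i + 1 →
      dist (a i) (a j) < d (n + 1) ∧ dist (b i) (b j) < d (n + 1) := by
    intro i j hi hj hij hji
    have key := (hnxt n (A n)).2.1
    rw [← hAs] at key
    have hle := hδd (n + 1)
    rcases lt_trichotomy i j with h | h | h
    · obtain rfl : j = i + 1 := by omega
      exact ⟨(key i ((hα _ _).1 hi)).1.trans_le hle, (key i ((hα _ _).1 hi)).2.trans_le hle⟩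
    · subst h
      simp [hd]
    · obtain rfl : i = j + 1 := by omega
      rw [dist_comm (a _), dist_comm (b _)]
      exact ⟨(key j ((hα _ _).1 hj)).1.trans_le hle, (key j ((hα _ _).1 hj)).2.trans_le hle⟩
  obtain ⟨m1, m2, hm⟩ := hdK (n + 1) (a v.1, b v.2) hfar
  have hch : ∀ u : ℕ × ℕ, Path (fun x => n + 1 ≤ α x.1 ∧ n + 1 ≤ α x.2 ∧
      1 ≤ ((n + 1 : ℕ) : ℝ) * dist (a x.1) (b x.2)) v u →
      Ch (d (n + 1)) (K (n + 1)) (a v.1, b v.2) (a u.1, b u.2) := by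
    intro u hu
    induction hu with
    | refl => exact Ch.refl _ _ _
    | @tail x y hvx hxy ih =>
      have hx := Path.mem hvx ⟨hv1, hv2, hfar⟩
      refine ih.trans (Ch.single ⟨hx.2.2, hxy.2.2.2, ?_⟩)
      rw [Prod.dist_eq, max_lt_iff]
      exact ⟨(hsa _ _ hx.1 hxy.2.1 hxy.1.1 hxy.1.2.1).1,
        (hsa _ _ hx.2.1 hxy.2.2.1 hxy.1.2.2.1 hxy.1.2.2.2).2⟩
  have hw := Path.mem hp ⟨hv1, hv2, hfar⟩
  have blockA : ∀ i i' : ℕ, n + 1 ≤ α i → α i + 2 ≤ α i' →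
      ∃ c, i ≤ c ∧ c ≤ i' ∧ dist (a c) m1 < d (n + 1) := by
    intro i i' hi hii'
    obtain ⟨c, hc1, hc2, hc3⟩ := (hnxt (α i + 1) (A (α i + 1))).2.2.1 m1
    rw [← hAs] at hc2
    have h1 : i < A (α i + 1) := (hαlt _ _).1 (Nat.lt_succ_self (α i))
    have h2 := (hα _ _).1 hii'
    refine ⟨c, by omega, hc2.trans h2, 
      hc3.trans_le ((hδanti (show n + 1 ≤ α i + 1 by omega)).trans (hδd (n + 1)))⟩
  have blockB : ∀ i i' : ℕ, n + 1 ≤ α i → α i + 2 ≤ α i' →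
      ∃ c, i ≤ c ∧ c ≤ i' ∧ dist (b c) m2 < d (n + 1) := by
    intro i i' hi hii'
    obtain ⟨c, hc1, hc2, hc3⟩ := (hnxt (α i + 1) (A (α i + 1))).2.2.2 m2
    rw [← hAs] at hc2
    have h1 : i < A (α i + 1) := (hαlt _ _).1 (Nat.lt_succ_self (α i))
    have h2 := (hα _ _).1 hii'
    refine ⟨c, by omega, hc2.trans h2, 
      hc3.trans_le ((hδanti (show n + 1 ≤ α i + 1 by omega)).trans (hδd (n + 1)))⟩
  refine ⟨?_, ?_, ?_, ?_⟩
  · by_contra h
    obtain ⟨c, hc1, hc2, hc3⟩ := blockA v.1 w.1 hv1 (by omega)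
    obtain ⟨u, hu, rfl⟩ := path_ivt_fst hp c (Or.inl ⟨hc1, hc2⟩)
    exact absurd (hm _ (hch u hu)).1 (not_le.2 hc3)
  · by_contra h
    obtain ⟨c, hc1, hc2, hc3⟩ := blockA w.1 v.1 hw.1 (by omega)
    obtain ⟨u, hu, rfl⟩ := path_ivt_fst hp c (Or.inr ⟨hc1, hc2⟩)
    exact absurd (hm _ (hch u hu)).1 (not_le.2 hc3)
  · by_contra h
    obtain ⟨c, hc1, hc2, hc3⟩ := blockB v.2 w.2 hv2 (by omega)
    obtain ⟨u, hu, rfl⟩ := path_ivt_snd hp c (Or.inl ⟨hc1, hc2⟩)
    exact absurd (hm _ (hch u hu)).2 (not_le.2 hc3)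
  · by_contra h
    obtain ⟨c, hc1, hc2, hc3⟩ := blockB w.2 v.2 hw.2.1 (by omega)
    obtain ⟨u, hu, rfl⟩ := path_ivt_snd hp c (Or.inr ⟨hc1, hc2⟩)
    exact absurd (hm _ (hch u hu)).2 (not_le.2 hc3)

/-- Synchronisation of two sequences. -/
theorem synchronise [CompactSpace M] (hM : SpanZero M) {a b : ℕ → M}
    (ha : Tendsto (fun i => dist (a i) (a (i + 1))) atTop (𝓝 0))
    (hb : Tendsto (fun i => dist (b i) (b (i + 1))) atTop (𝓝 0))
    (hda : ∀ x : M, ∀ ε > 0, ∀ K, ∃ i, K ≤ i ∧ dist (a i) x < ε)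
    (hdb : ∀ x : M, ∀ ε > 0, ∀ K, ∃ i, K ≤ i ∧ dist (b i) x < ε) :
    ∃ s : ℕ → ℕ × ℕ, (∀ k, Adj (s k) (s (k + 1))) ∧ Tendsto (fun k => (s k).1) atTop atTop ∧
      Tendsto (fun k => (s k).2) atTop atTop ∧
      Tendsto (fun k => dist (a (s k).1) (b (s k).2)) atTop (𝓝 0) := by
  obtain ⟨α, hα0, hαm, hαs, hαt, hP⟩ := exists_blocks hM ha hb hda hdb
  let lvl : ℕ × ℕ → ℕ := fun v => min (α v.1) (α v.2) - 4
  let black : ℕ × ℕ → Prop := fun v => 1 ≤ (lvl v : ℝ) * dist (a v.1) (b v.2)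
  have hadj : ∀ i j, i ≤ j + 1 → α i ≤ α j + 1 := fun i j h => (hαm h).trans (hαs j)
  have small : ∀ v w, black v → Path black v w →
      α w.1 ≤ α v.1 + 1 ∧ α v.1 ≤ α w.1 + 1 ∧ α w.2 ≤ α v.2 + 1 ∧ α v.2 ≤ α w.2 + 1 := by
    intro v w hv hp
    set n := min (α v.1) (α v.2) - 2 with hn
    have far : ∀ x : ℕ × ℕ, black x → lvl x ≤ n → 1 ≤ (n : ℝ) * dist (a x.1) (b x.2) :=
      fun x hx hl => le_trans hx (mul_le_mul_of_nonneg_right (Nat.cast_le.2 hl) dist_nonneg)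
    have hv' : 1 ≤ (n : ℝ) * dist (a v.1) (b v.2) := far v hv (by simp only [lvl]; omega)
    have key : Path (fun x => n ≤ α x.1 ∧ n ≤ α x.2 ∧ 1 ≤ (n : ℝ) * dist (a x.1) (b x.2)) v w := by
      induction hp with
      | refl => exact ReflTransGen.refl
      | @tail x y _ hxy ih =>
        have h1 := hP n v x (by omega) (by omega) hv' ih
        have h2 := hadj _ _ hxy.1.1
        have h3 := hadj _ _ hxy.1.2.1
        have h4 := hadj _ _ hxy.1.2.2.1
        have h5 := hadj _ _ hxy.1.2.2.2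
        exact ReflTransGen.tail ih ⟨hxy.1, by omega, by omega,
          far y hxy.2 (by simp only [lvl]; omega)⟩
    exact hP n v w (by omega) (by omega) hv' key
  let Wh : ℕ × ℕ → Prop := fun v => ¬ black v ∧ α v.1 < α v.2 + 5 ∧ α v.2 < α v.1 + 5
  have hblack : ∀ N, 2 ≤ α N → ∀ u v : ℕ × ℕ, u.2 = 0 → ¬ Wh u → Path (fun x => ¬ Wh x) u v →
      v.2 = N → v.1 ≤ N → False := by
    intro N hN u v hu0 hu hp hvN hvle
    have inv : α v.2 + 5 ≤ α v.1 ∨
        ∃ v0, black v0 ∧ Path black v0 v ∧ (α v0.2 = 0 ∨ α v0.2 + 3 ≤ α v0.1) := by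
      clear hvN hvle
      induction hp with
      | refl =>
        by_cases hbl : black u
        · exact Or.inr ⟨u, hbl, ReflTransGen.refl, Or.inl (by rw [hu0, hα0])⟩
        · left
          by_contra hlt
          apply hu
          refine ⟨hbl, by omega, ?_⟩
          rw [hu0, hα0]
          omega
      | @tail x y _ hxy ih =>
        have h2 := hadj _ _ hxy.1.1
        have h3 := hadj _ _ hxy.1.2.1
        have h4 := hadj _ _ hxy.1.2.2.1
        have h5 := hadj _ _ hxy.1.2.2.2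
        by_cases hbl : black y
        · right
          rcases ih with h | ⟨v0, h0, h1, h6⟩
          · exact ⟨y, hbl, ReflTransGen.refl, Or.inr (by omega)⟩
          · exact ⟨v0, h0, ReflTransGen.tail h1 ⟨hxy.1, hbl⟩, h6⟩
        · left
          by_contra hlt
          apply hxy.2
          refine ⟨hbl, by omega, ?_⟩
          rcases ih with h | ⟨v0, h0, h1, h6⟩
          · omega
          · have := small v0 x h0 h1
            omega
    have hle := hαm hvle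
    rcases inv with h | ⟨v0, h0, h1, h6⟩
    · rw [hvN] at h
      omega
    · have := small v0 v h0 h1
      rw [hvN] at this
      omega
  obtain ⟨s, hs1, hs2, hs3⟩ := infinite_path Wh (fun i => by
      obtain ⟨J, hJ⟩ := eventually_atTop.1 (hαt.eventually (eventually_ge_atTop (α i + 5)))
      refine ((finite_singleton i).prod (finite_lt_nat J)).subset ?_
      rintro ⟨i', j⟩ ⟨rfl, hW⟩
      refine ⟨rfl, ?_⟩
      by_contra hj
      have := hJ j (not_lt.1 hj)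
      have h2 := hW.2.2
      simp only at this h2
      omega) (fun N => by
      obtain ⟨J, hJ⟩ := eventually_atTop.1 (hαt.eventually (eventually_ge_atTop 2))
      obtain ⟨u, v, hu, hWu, hp, hv⟩ := hex Wh (max N J) (hblack _ (hJ _ (le_max_right _ _)))
      obtain ⟨w, hw, hwN⟩ := path_ivt_fst hp N (Or.inl ⟨by omega, by rw [hv]; exact le_max_left _ _⟩)
      exact ⟨u, w, hu, hWu, hw, hwN⟩)
  have t1 : Tendsto (fun k => α (s k).1) atTop atTop := hαt.comp hs3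
  have t2 : Tendsto (fun k => α (s k).2) atTop atTop := by
    refine tendsto_atTop.2 fun n => ?_
    filter_upwards [t1.eventually (eventually_ge_atTop (n + 5))] with k hk
    have := (hs2 k).2.1
    omega
  refine ⟨s, hs1, hs3, ?_, ?_⟩
  · refine tendsto_atTop.2 fun n => ?_
    filter_upwards [t2.eventually (eventually_gt_atTop (α n))] with k hk
    by_contra h
    exact absurd (hαm (not_le.1 h).le) (not_le.2 hk)
  · refine Metric.tendsto_nhds.2 fun ε hε => ?_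
    obtain ⟨n, hn⟩ := exists_nat_gt (1 / ε)
    filter_upwards [t1.eventually (eventually_ge_atTop (n + 4)),
      t2.eventually (eventually_ge_atTop (n + 4))] with k h1 h2
    have h3 : n ≤ lvl (s k) := by simp only [lvl]; omega
    have h4 : (lvl (s k) : ℝ) * dist (a (s k).1) (b (s k).2) < 1 := not_le.1 (hs2 k).1
    have h5 : (n : ℝ) * dist (a (s k).1) (b (s k).2) < 1 :=
      lt_of_le_of_lt (mul_le_mul_of_nonneg_right (Nat.cast_le.2 h3) dist_nonneg) h4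
    rw [Real.dist_eq, sub_zero, abs_of_nonneg dist_nonneg]
    by_contra h6
    push Not at h6
    rw [div_lt_iff₀ hε] at hn
    have : (n : ℝ) * ε ≤ n * dist (a (s k).1) (b (s k).2) :=
      mul_le_mul_of_nonneg_left h6 (Nat.cast_nonneg n)
    linarith

end Pool.Agent.P.MP_3ef9ff_gt
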