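import Mathlib

/-!
Continuous ray extendability and amalgamation bases.
-/

set_option autoImplicit false

namespace Pool.Agent.P.MP_3ef9ff_gt

/-- `M` is continuously ray extendable: for every map `f` of a continuum `X` onto `M` and every
compactification `Y` of a ray with remainder `M` there is a compactification `W` of a ray with
remainder `X` and a map of `W` onto `Y` extending `f`. -/
def RayExt (M : Type) [MetricSpace M] : Prop :=
  ∀ (X : Type) [MetricSpace X] [CompactSpace X] [ConnectedSpace X] (f : X → M),
    Continuous f → Function.Surjective f →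
    ∀ (Y : Type) [MetricSpace Y] [CompactSpace Y] (j : M → Y),
      Topology.IsEmbedding j → Dense (Set.range j)ᶜ →
      Nonempty (↥((Set.range j)ᶜ) ≃ₜ ↥(Set.Ici (0:ℝ))) →
      ∃ (W : Type) (_ : MetricSpace W) (_ : CompactSpace W) (i : X → W),
        Topology.IsEmbedding i ∧ Dense (Set.range i)ᶜ ∧
        Nonempty (↥((Set.range i)ᶜ) ≃ₜ ↥(Set.Ici (0:ℝ))) ∧
        ∃ F : W → Y, Continuous F ∧ Function.Surjective F ∧ ∀ x, F (i x) = j (f x)

/-- `M` is an amalgamation base: for all maps `f`, `h` of continua `X`, `Y` onto `M` the fibre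
product contains a continuum that projects onto `X` and onto `Y`. -/
def Base (M : Type) [MetricSpace M] : Prop :=
  ∀ (X Y : Type) [MetricSpace X] [CompactSpace X] [ConnectedSpace X]
    [MetricSpace Y] [CompactSpace Y] [ConnectedSpace Y] (f : X → M) (h : Y → M),
    Continuous f → Function.Surjective f → Continuous h → Function.Surjective h →
    ∃ K : Set (X × Y), IsCompact K ∧ IsConnected K ∧ Prod.fst '' K = Set.univ ∧
      Prod.snd '' K = Set.univ ∧ ∀ p ∈ K, f p.1 = h p.2

end Pool.Agent.P.MP_3ef9ff_gt
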