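import Pool.Agent.P.MP_3ef9ff_gt.Core
import Pool.Agent.P.MP_3ef9ff_gt.Build

/-!
Every continuum of span zero is continuously ray extendable.
-/

set_option autoImplicit false

open Set Metric Filter Topology Relation

namespace Pool.Agent.P.MP_3ef9ff_gt

lemma tendsto_inv_succ_of_tendsto {c : ℕ → ℕ} (hc : Tendsto c atTop atTop) :
    Tendsto (fun k => 1 / ((c k : ℝ) + 1)) atTop (𝓝 0) :=
  (tendsto_one_div_add_atTop_nhds_zero_nat (𝕜 := ℝ)).comp hc

/-- A sequence with vanishing steps and dense tails in a continuum. -/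
lemma exists_dense_walk (X : Type*) [MetricSpace X] [CompactSpace X] [ConnectedSpace X] :
    ∃ x : ℕ → X, Tendsto (fun k => dist (x k) (x (k + 1))) atTop (𝓝 0) ∧
      ∀ y : X, ∀ ε > 0, ∀ K, ∃ k, K ≤ k ∧ dist (x k) y < ε := by
  let e := TopologicalSpace.denseSeq X
  obtain ⟨s, c, hc, hR, -, hv⟩ := concat_paths
    (fun n (a b : X) => Step (1 / ((n : ℝ) + 1)) univ a b) (fun n => e (Nat.unpair n).1)
    (fun n => TransGen.head' ⟨trivial, trivial, by rw [dist_self]; positivity⟩
      (ch_of_preconnected (by positivity) isPreconnected_univ Subset.rfl trivial trivial))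
  refine ⟨s, squeeze_zero (fun _ => dist_nonneg) (fun k => (hR k).2.2.le)
    (tendsto_inv_succ_of_tendsto hc), fun y ε hε K => ?_⟩
  obtain ⟨n, hn⟩ := (TopologicalSpace.denseRange_denseSeq X).exists_dist_lt y hε
  obtain ⟨k, hk, hk'⟩ := hv (Nat.pair n K)
  refine ⟨k, (Nat.right_le_pair n K).trans hk, ?_⟩
  rw [hk', Nat.unpair_pair, dist_comm]
  exact hn

/-- A discretisation of a ray with vanishing oscillation. -/
lemma exists_ray_walk {Y : Type*} [MetricSpace Y] {l : ℝ → Y} (hl : Continuous l) :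
    ∃ t : ℕ → ℝ, t 0 = 0 ∧ Tendsto t atTop atTop ∧
      ∀ ε > 0, ∀ᶠ k in atTop, ∀ u ∈ uIcc (t k) (t (k + 1)), dist (l u) (l (t k)) < ε := by
  obtain ⟨s, c, hc, hR, h0, -⟩ := concat_paths
    (fun n (a b : ℝ) => (n : ℝ) ≤ a ∧ ∀ u ∈ uIcc a b, dist (l u) (l a) < 1 / ((n : ℝ) + 1))
    (fun n => (n : ℝ)) (fun n => by
      refine (isPreconnected_Icc (a := (n : ℝ)) (b := n + 1)).induction₂' _ ?_
        (fun x y z _ _ _ h h' => h.trans h') ⟨le_rfl, by linarith⟩ ⟨by push_cast; linarith, by
          push_cast; linarith⟩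
      intro x hx
      have hpos : (0 : ℝ) < 1 / ((n : ℝ) + 1) / 2 := by positivity
      obtain ⟨η, hη, hη'⟩ := Metric.continuous_iff.1 hl x _ hpos
      have h1 : ∀ᶠ y in 𝓝[Icc (n : ℝ) (n + 1)] x, y ∈ ball x η :=
        mem_nhdsWithin_of_mem_nhds (ball_mem_nhds x hη)
      filter_upwards [h1, self_mem_nhdsWithin] with y hy hyI
      have hsub : uIcc x y ⊆ ball x η :=
        (convex_ball x η).ordConnected.uIcc_subset (mem_ball_self hη) hy
      refine ⟨TransGen.single ⟨hx.1, fun u hu => ?_⟩, TransGen.single ⟨hyI.1, fun u hu => ?_⟩⟩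
      · exact (hη' u (hsub hu)).trans (half_lt_self (by positivity))
      · rw [uIcc_comm] at hu
        calc dist (l u) (l y) ≤ dist (l u) (l x) + dist (l y) (l x) := dist_triangle_right _ _ _
          _ < _ + _ := add_lt_add (hη' u (hsub hu)) (hη' y hy)
          _ = _ := add_halves _)
  refine ⟨s, by simpa using h0, tendsto_atTop_mono (fun k => (hR k).1)
    (tendsto_natCast_atTop_atTop.comp hc), fun ε hε => ?_⟩
  filter_upwards [(tendsto_inv_succ_of_tendsto hc).eventually (gt_mem_nhds hε)] with k hk u hu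
  exact ((hR k).2 u hu).trans hk

lemma exists_bracket {t : ℕ → ℝ} (ht : Tendsto t atTop atTop) {K : ℕ} {u : ℝ} (hu : t K ≤ u) :
    ∃ k, K ≤ k ∧ u ∈ uIcc (t k) (t (k + 1)) := by
  by_contra h
  push Not at h
  have hall : ∀ k, K ≤ k → t k ≤ u := by
    intro k hk
    induction k, hk using Nat.le_induction with
    | base => exact hu
    | succ k hk ih =>
      by_contra h'
      exact h k hk (mem_uIcc.2 (Or.inl ⟨ih, (not_le.1 h').le⟩))
  obtain ⟨k, hk1, hk2⟩ := ((ht.eventually (eventually_gt_atTop u)).and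
    (eventually_ge_atTop K)).exists
  exact absurd (hall k hk2) (not_le.2 hk1)

lemma inverse_uniform {M Y : Type*} [MetricSpace M] [CompactSpace M] [MetricSpace Y] {j : M → Y}
    (hj : Continuous j) (hinj : Function.Injective j) {ε : ℝ} (hε : 0 < ε) :
    ∃ δ > 0, ∀ a b, dist (j a) (j b) < δ → dist a b < ε := by
  have hK : IsCompact {p : M × M | ε ≤ dist p.1 p.2} :=
    (isClosed_le continuous_const (by fun_prop)).isCompact
  rcases Set.eq_empty_or_nonempty {p : M × M | ε ≤ dist p.1 p.2} with h | h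
  · refine ⟨1, one_pos, fun a b _ => ?_⟩
    by_contra h'
    have : (a, b) ∈ {p : M × M | ε ≤ dist p.1 p.2} := not_lt.1 h'
    rw [h] at this
    exact this
  · obtain ⟨p, hp, hmin⟩ := hK.exists_isMinOn h
      (f := fun p : M × M => dist (j p.1) (j p.2)) (by fun_prop)
    refine ⟨dist (j p.1) (j p.2), dist_pos.2 fun h' => ?_, fun a b hab => ?_⟩
    · have h1 : ε ≤ dist p.1 p.2 := hp
      rw [hinj h', dist_self] at h1
      exact absurd h1 (not_le.2 hε)
    · by_contra h'
      exact absurd (hmin (show (a, b) ∈ {p : M × M | ε ≤ dist p.1 p.2} from not_lt.1 h'))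
        (not_le.2 hab)

/-- Parametrisation of the ray. -/
lemma exists_ray_param {M Y : Type*} [MetricSpace Y] [CompactSpace Y] {j : M → Y}
    (hd : Dense (range j)ᶜ) (h : ↥((range j)ᶜ) ≃ₜ ↥(Ici (0 : ℝ))) :
    ∃ l : ℝ → Y, Continuous l ∧ (∀ y, y ∉ range j → ∃ t, 0 ≤ t ∧ l t = y) ∧
      (∀ ε > 0, ∀ᶠ t in atTop, ∃ m, dist (l t) (j m) < ε) ∧
      ∀ m, ∀ ε > 0, ∀ T : ℝ, ∃ t, T ≤ t ∧ dist (l t) (j m) < ε := by
  let l : ℝ → Y := fun t => (h.symm ⟨max t 0, le_max_right t 0⟩ : Y)
  have hl : Continuous l :=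
    continuous_subtype_val.comp (h.symm.continuous.comp (Continuous.subtype_mk (by fun_prop) _))
  have hsurj : ∀ y, y ∉ range j → ∃ t, 0 ≤ t ∧ l t = y := by
    intro y hy
    refine ⟨(h ⟨y, hy⟩).1, (h ⟨y, hy⟩).2, ?_⟩
    have : (⟨max (h ⟨y, hy⟩).1 0, le_max_right (h ⟨y, hy⟩).1 0⟩ : Ici (0 : ℝ)) = h ⟨y, hy⟩ :=
      Subtype.ext (max_eq_left (h ⟨y, hy⟩).2)
    simp only [l, this, Homeomorph.symm_apply_apply]
  have hnot : ∀ t, l t ∉ range j := fun t => (h.symm _).2
  refine ⟨l, hl, hsurj, fun ε hε => ?_, fun m ε hε T => ?_⟩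
  · have hK : IsCompact {y : Y | ∀ m, ε ≤ dist y (j m)} := by
      refine IsClosed.isCompact ?_
      simp only [ofPred_forall]
      exact isClosed_iInter fun m => isClosed_le continuous_const (by fun_prop)
    have hK' : IsCompact ((↑) ⁻¹' {y : Y | ∀ m, ε ≤ dist y (j m)} : Set ↥((range j)ᶜ)) := by
      refine Topology.IsInducing.subtypeVal.isCompact_preimage' hK ?_
      intro y hy
      rw [Subtype.range_coe]
      rintro ⟨m, rfl⟩
      have := hy m
      rw [dist_self] at this
      exact absurd this (not_le.2 hε)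
    obtain ⟨T, hT⟩ := (hK'.image (continuous_subtype_val.comp h.continuous)).bddAbove
    filter_upwards [eventually_gt_atTop T] with t ht
    by_contra hn
    push Not at hn
    have := hT ⟨h.symm ⟨max t 0, le_max_right t 0⟩, hn, rfl⟩
    simp only [Function.comp, Homeomorph.apply_symm_apply] at this
    exact absurd ((le_max_left t 0).trans this) (not_le.2 ht)
  · obtain ⟨δ, hδ, hδ'⟩ := exists_pos_le_dist ((isCompact_Icc (a := 0) (b := T)).image hl)
      (isClosed_singleton (x := j m)) (by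
        rw [Set.disjoint_singleton_right]
        rintro ⟨t, -, ht⟩
        exact hnot t ⟨m, ht.symm⟩)
    obtain ⟨y, hy, hym⟩ := hd.exists_dist_lt (j m) (lt_min hε hδ)
    obtain ⟨t, ht, rfl⟩ := hsurj y hy
    rw [dist_comm] at hym
    refine ⟨t, ?_, hym.trans_le (min_le_left _ _)⟩
    by_contra hT
    exact absurd (hδ' _ ⟨t, ⟨ht, (not_le.1 hT).le⟩, rfl⟩ _ rfl)
      (not_le.2 (hym.trans_le (min_le_right _ _)))

theorem ray_extendable (M : Type) [MetricSpace M] [CompactSpace M] (hM : SpanZero M)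
    (X : Type) [MetricSpace X] [CompactSpace X] [ConnectedSpace X] (f : X → M)
    (hf : Continuous f) (hfs : Function.Surjective f)
    (Y : Type) [MetricSpace Y] [CompactSpace Y] (j : M → Y)
    (hj : Topology.IsEmbedding j) (hd : Dense (Set.range j)ᶜ)
    (h : ↥((Set.range j)ᶜ) ≃ₜ ↥(Set.Ici (0:ℝ))) :
    ∃ (W : Type) (_ : MetricSpace W) (_ : CompactSpace W) (i : X → W),
      Topology.IsEmbedding i ∧ Dense (Set.range i)ᶜ ∧
      Nonempty (↥((Set.range i)ᶜ) ≃ₜ ↥(Set.Ici (0:ℝ))) ∧
      ∃ F : W → Y, Continuous F ∧ Function.Surjective F ∧ ∀ x, F (i x) = j (f x) := by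
  have : Nonempty M := ⟨f (Classical.arbitrary X)⟩
  obtain ⟨l, hl, hls, hl1, hl2⟩ := exists_ray_param hd h
  obtain ⟨x, hx, hxd⟩ := exists_dense_walk X
  obtain ⟨t, ht0, ht, hosc⟩ := exists_ray_walk hl
  have hjc := hj.continuous
  have hm : ∀ k, ∃ m : M, ∀ m', dist (l (t k)) (j m) ≤ dist (l (t k)) (j m') := by
    intro k
    obtain ⟨m, -, hm⟩ := (isCompact_univ (X := M)).exists_isMinOn univ_nonempty
      (f := fun m => dist (l (t k)) (j m)) (by fun_prop)
    exact ⟨m, fun m' => hm (mem_univ m')⟩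
  choose m hm using hm
  have hmclose : ∀ ε > 0, ∀ᶠ k in atTop, dist (l (t k)) (j (m k)) < ε := by
    intro ε hε
    filter_upwards [ht.eventually (hl1 ε hε)] with k ⟨m', hm'⟩
    exact (hm k m').trans_lt hm'
  obtain ⟨s, hs, hs1, hs2, hs3⟩ := synchronise hM (a := fun i => f (x i)) (b := m)
    (by
      refine Metric.tendsto_nhds.2 fun ε hε => ?_
      obtain ⟨δ, hδ, hδ'⟩ := Metric.uniformContinuous_iff.1
        (CompactSpace.uniformContinuous_of_continuous hf) ε hε
      filter_upwards [hx.eventually (gt_mem_nhds hδ)] with k hk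
      rw [Real.dist_eq, sub_zero, abs_of_nonneg dist_nonneg]
      exact hδ' hk)
    (by
      refine Metric.tendsto_nhds.2 fun ε hε => ?_
      obtain ⟨δ, hδ, hδ'⟩ := inverse_uniform hjc hj.injective hε
      have h3 : 0 < δ / 3 := by positivity
      filter_upwards [hmclose _ h3, (tendsto_add_atTop_nat 1).eventually (hmclose _ h3),
        hosc _ h3] with k h1 h2 h4
      rw [Real.dist_eq, sub_zero, abs_of_nonneg dist_nonneg]
      apply hδ'
      have h5 := h4 _ right_mem_uIcc
      have h6 := dist_triangle4 (j (m k)) (l (t k)) (l (t (k + 1))) (j (m (k + 1)))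
      rw [dist_comm] at h1 h5
      linarith)
    (by
      intro y ε hε K
      obtain ⟨z, rfl⟩ := hfs y
      obtain ⟨δ, hδ, hδ'⟩ := Metric.continuous_iff.1 hf z ε hε
      obtain ⟨k, hk, hk'⟩ := hxd z δ hδ K
      exact ⟨k, hk, hδ' _ hk'⟩)
    (by
      intro y ε hε K
      obtain ⟨δ, hδ, hδ'⟩ := inverse_uniform hjc hj.injective hε
      have h3 : 0 < δ / 3 := by positivity
      obtain ⟨K', hK'⟩ := eventually_atTop.1 (((hmclose _ h3).and (hosc _ h3)).and
        (eventually_ge_atTop K))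
      obtain ⟨u, hu, hu'⟩ := hl2 y _ h3 (t K')
      obtain ⟨k, hk, hk'⟩ := exists_bracket ht hu
      obtain ⟨⟨h1, h2⟩, h4⟩ := hK' k hk
      refine ⟨k, h4, hδ' _ _ ?_⟩
      have h5 := h2 u hk'
      have h6 := dist_triangle4 (j (m k)) (l (t k)) (l u) (j y)
      rw [dist_comm] at h1 h5
      linarith)
  obtain ⟨W, iW, cW, i, hi1, hi2, hi3, F, hF1, hF2, hF3, -⟩ := build_ray (φ := fun z => j (f z))
    (hjc.comp hf) hl (p := fun k => x (s k).1) (q := fun k => if k = 0 then 0 else t (s k).2)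
    (by simp)
    (by
      refine (ht.comp hs2).congr' ?_
      filter_upwards [eventually_gt_atTop 0] with k hk
      simp [hk.ne'])
    (by
      refine Metric.tendsto_nhds.2 fun ε hε => ?_
      obtain ⟨K, hK⟩ := eventually_atTop.1 (hx.eventually (gt_mem_nhds hε))
      filter_upwards [hs1.eventually (eventually_ge_atTop (K + 1))] with k hk
      rw [Real.dist_eq, sub_zero, abs_of_nonneg dist_nonneg]
      have h1 := (hs k).1
      have h2 := (hs k).2.1
      rcases lt_trichotomy (s k).1 (s (k + 1)).1 with h | h | h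
      · rw [show (s (k + 1)).1 = (s k).1 + 1 by omega]
        exact hK _ (by omega)
      · rw [h, dist_self]
        exact hε
      · rw [show (s k).1 = (s (k + 1)).1 + 1 by omega, dist_comm]
        exact hK _ (by omega))
    (by
      intro y ε hε K
      obtain ⟨n, hn, hn'⟩ := hxd y ε hε (s K).1
      have : ∃ k, K ≤ k ∧ (s k).1 = n := by
        by_contra hcon
        push Not at hcon
        have hall : ∀ k, K ≤ k → (s k).1 < n := by
          intro k hk
          induction k, hk using Nat.le_induction with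
          | base => exact lt_of_le_of_ne hn (hcon K le_rfl)
          | succ k hk ih =>
            have h2 := (hs k).2.1
            have h3 := hcon (k + 1) (by omega)
            omega
        obtain ⟨k, hk1, hk2⟩ := ((hs1.eventually (eventually_ge_atTop n)).and
          (eventually_ge_atTop K)).exists
        exact absurd (hall k hk2) (not_lt.2 hk1)
      obtain ⟨k, hk, hk'⟩ := this
      exact ⟨k, hk, by rw [hk']; exact hn'⟩)
    (by
      intro ε hε
      have h4 : 0 < ε / 4 := by positivity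
      obtain ⟨δ, hδ, hδ'⟩ := Metric.uniformContinuous_iff.1
        (CompactSpace.uniformContinuous_of_continuous hjc) _ h4
      obtain ⟨K, hK⟩ := eventually_atTop.1 (hosc _ h4)
      filter_upwards [hs2.eventually (eventually_ge_atTop (K + 1)), eventually_gt_atTop 0,
        hs2.eventually (hmclose _ h4), hs3.eventually (gt_mem_nhds hδ)] with k hk hk0 h1 h2 u hu
      simp only [hk0.ne', Nat.succ_ne_zero, if_false] at hu
      have h3 := hδ' h2
      have h5 : dist (l u) (l (t (s k).2)) < ε / 4 + ε / 4 := by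
        have h6 := (hs k).2.2.1
        have h7 := (hs k).2.2.2
        rcases lt_trichotomy (s k).2 (s (k + 1)).2 with h | h | h
        · rw [show (s (k + 1)).2 = (s k).2 + 1 by omega] at hu
          have := hK _ (by omega) u hu
          linarith
        · rw [← h, uIcc_self, mem_singleton_iff] at hu
          rw [hu, dist_self]
          linarith
        · rw [show (s k).2 = (s (k + 1)).2 + 1 by omega, uIcc_comm] at hu
          rw [show (s k).2 = (s (k + 1)).2 + 1 by omega]
          have h8 := hK _ (show K ≤ (s (k + 1)).2 by omega)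
          exact (dist_triangle_right _ _ _).trans_lt
            (add_lt_add (h8 u hu) (h8 _ right_mem_uIcc))
      have h6 := dist_triangle4 (l u) (l (t (s k).2)) (j (m (s k).2)) (j (f (x (s k).1)))
      rw [dist_comm] at h3
      linarith)
  refine ⟨W, iW, cW, i, hi1, hi2, hi3, F, hF1, fun y => ?_, hF3⟩
  by_cases hy : y ∈ range j
  · obtain ⟨m', rfl⟩ := hy
    obtain ⟨z, rfl⟩ := hfs m'
    exact ⟨i z, hF3 z⟩
  · obtain ⟨u, hu, rfl⟩ := hls y hy
    exact hF2 u hu

end Pool.Agent.P.MP_3ef9ff_gt
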