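import Pool.Agent.P.MP_3ef9ff_gt.Key
import Pool.Agent.P.MP_3ef9ff_gt.Main

/-!
Over an amalgamation base every walk with vanishing steps and dense tails can be followed
upstairs by such a walk.
-/

set_option autoImplicit false

open Set Metric Filter Topology Relation

namespace Pool.Agent.P.MP_3ef9ff_gt

theorem follow {M X : Type} [MetricSpace M] [CompactSpace M] [MetricSpace X] [CompactSpace X]
    [ConnectedSpace X] (hM : Base M) {f : X → M} (hf : Continuous f)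
    (hfs : Function.Surjective f) {m : ℕ → M}
    (hm : Tendsto (fun k => dist (m k) (m (k + 1))) atTop (𝓝 0))
    (hmd : ∀ x : M, ∀ ε > 0, ∀ K, ∃ k, K ≤ k ∧ dist (m k) x < ε) :
    ∃ (p : ℕ → X) (s : ℕ → ℕ), (∀ k, s k ≤ s (k + 1) + 1 ∧ s (k + 1) ≤ s k + 1) ∧
      Tendsto s atTop atTop ∧ Tendsto (fun k => dist (p k) (p (k + 1))) atTop (𝓝 0) ∧
      (∀ x : X, ∀ ε > 0, ∀ K, ∃ k, K ≤ k ∧ dist (p k) x < ε) ∧
      Tendsto (fun k => dist (f (p k)) (m (s k))) atTop (𝓝 0) := by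
  let U : Ultrafilter ℕ := Ultrafilter.of atTop
  have hU : (U : Filter ℕ) ≤ atTop := Ultrafilter.of_le _
  let ε : ℕ → ℝ := fun n => 1 / ((n : ℝ) + 1)
  have hε : ∀ n, 0 < ε n := fun n => by positivity
  have hanti : ∀ n N, n ≤ N → ε N ≤ ε n := fun n N h => Nat.one_div_le_one_div h
  have hnear : ∀ n k (x x' z : X), Vx f m (ε n) (Ici n) (x, k) → Vx f m (ε n) (Ici n) (x', k) →
      dist x z < ε n / 2 → dist x' z < ε n / 2 → Re f m (ε n) (Ici n) (x, k) (x', k) := by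
    intro n k x x' z hx hx' h h'
    refine Re.single ⟨hx, hx', ?_, Nat.le_succ k, Nat.le_succ k⟩
    have := dist_triangle_right x x' z
    change dist x x' < ε n
    linarith
  choose N hN using fun n => exists_net X (half_pos (hε n))
  have hgood : ∀ n, ∃ v, Vx f m (ε n) (Ici n) v ∧
      (∀ b, ∃ w, Re f m (ε n) (Ici n) v w ∧ b ≤ w.2) ∧
      ∀ x, ∃ w, Re f m (ε n) (Ici n) v w ∧ dist w.1 x < ε n := by
    intro n
    obtain ⟨δ, hδ, hw⟩ := window hM hf hfs (hε n)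
    obtain ⟨a, ha, han⟩ : ∃ a, (∀ k, a ≤ k → dist (m k) (m (k + 1)) < δ) ∧ n ≤ a := by
      obtain ⟨a, ha⟩ := eventually_atTop.1 (hm.eventually (gt_mem_nhds hδ))
      exact ⟨a + n, fun k hk => ha k (by omega), by omega⟩
    obtain ⟨b0, hb0⟩ := dense_block hmd hδ a
    have hsub : ∀ b, Icc a b ⊆ Ici n := fun b k hk => han.trans hk.1
    have h1 : ∀ᶠ b in U, ∃ z ∈ (N n : Set X), ∃ x, dist x z < ε n / 2 ∧
        Vx f m (ε n) (Ici n) (x, a) ∧ (∃ w, Re f m (ε n) (Ici n) (x, a) w ∧ w.2 = b) ∧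
        ∀ y, ∃ w, Re f m (ε n) (Ici n) (x, a) w ∧ dist w.1 y < ε n := by
      filter_upwards [hU (eventually_ge_atTop (a + b0))] with b hb
      obtain ⟨⟨x, k⟩, h1, rfl, ⟨w, h2, h3⟩, h4⟩ := hw m a b (by omega) (fun k hk _ => ha k hk)
        fun y => by
          obtain ⟨k, h1, h2, h3⟩ := hb0 y
          exact ⟨k, h1, by omega, h3⟩
      obtain ⟨z, hz, hxz⟩ := hN n x
      refine ⟨z, hz, x, hxz, h1.mono le_rfl (hsub b), ⟨w, h2.mono le_rfl (hsub b), h3⟩,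
        fun y => ?_⟩
      obtain ⟨w, h5, h6⟩ := h4 y
      exact ⟨w, h5.mono le_rfl (hsub b), h6⟩
    obtain ⟨z, -, hz⟩ := (Ultrafilter.eventually_exists_mem_iff (N n).finite_toSet).1 h1
    obtain ⟨b1, x, h1, h2, -, h3⟩ := hz.exists
    refine ⟨(x, a), h2, fun b => ?_, h3⟩
    obtain ⟨b', ⟨x', h4, h5, ⟨w, h6, h7⟩, -⟩, hb'⟩ := (hz.and (hU (eventually_ge_atTop b))).exists
    exact ⟨w, (hnear n a x x' z h2 h5 h1 h4).trans h6, h7 ▸ hb'⟩
  choose u hu1 hu2 hu3 using hgood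
  have hcol : ∀ n, ∃ z, ∀ᶠ L in U, n ≤ L ∧
      ∀ᶠ k in U, ∃ x, Re f m (ε n) (Ici n) (u L) (x, k) ∧ dist x z < ε n / 2 := by
    intro n
    have h1 : ∀ᶠ L in U, ∃ z ∈ (N n : Set X), n ≤ L ∧
        ∀ᶠ k in U, ∃ x, Re f m (ε n) (Ici n) (u L) (x, k) ∧ dist x z < ε n / 2 := by
      filter_upwards [hU (eventually_ge_atTop n)] with L hL
      have h2 : ∀ᶠ k in U, ∃ z ∈ (N n : Set X),
          ∃ x, Re f m (ε n) (Ici n) (u L) (x, k) ∧ dist x z < ε n / 2 := by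
        filter_upwards [hU (eventually_ge_atTop (u L).2)] with k hk
        obtain ⟨w, hw, hkw⟩ := hu2 L k
        obtain ⟨x, hx⟩ := hw.ivt hk hkw
        obtain ⟨z, hz, hxz⟩ := hN n x
        exact ⟨z, hz, x, hx.mono (hanti n L hL) (Ici_subset_Ici.2 hL), hxz⟩
      obtain ⟨z, hz, h3⟩ := (Ultrafilter.eventually_exists_mem_iff (N n).finite_toSet).1 h2
      exact ⟨z, hz, hL, h3⟩
    obtain ⟨z, -, hz⟩ := (Ultrafilter.eventually_exists_mem_iff (N n).finite_toSet).1 h1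
    exact ⟨z, hz⟩
  choose z hz using hcol
  choose L hL1 hL2 using fun n => ((hz n).and (hz (n - 1))).exists
  have hvx : ∀ n L, n ≤ L → Vx f m (ε n) (Ici n) (u L) := fun n L h =>
    (hu1 L).mono (hanti n L h) (Ici_subset_Ici.2 h)
  have hthread : ∀ n, Re f m (ε n) (Ici n) (u (L n)) (u (L (n + 1))) := by
    intro n
    have h1 := hL2 (n + 1)
    rw [Nat.add_sub_cancel] at h1
    obtain ⟨k, ⟨x, h2, h3⟩, x', h4, h5⟩ := ((hL1 n).2.and h1.2).exists
    exact h2.trans ((hnear n k x x' _ (h2.vx (hvx n _ (hL1 n).1)) (h4.vx (hvx n _ h1.1)) h3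
      h5).trans h4.symm)
  let e := TopologicalSpace.denseSeq X
  choose v hv1 hv2 using fun n => hu3 (L n) (e (Nat.unpair n).1)
  have hv3 : ∀ n n', n ≤ n' → Re f m (ε n) (Ici n) (u (L n')) (v n') := fun n n' h =>
    (hv1 n').mono (hanti _ _ (h.trans (hL1 n').1)) (Ici_subset_Ici.2 (h.trans (hL1 n').1))
  obtain ⟨s, c, hc, hR, -, hs⟩ := concat_paths (fun n => Ed f m (ε n) (Ici n)) v fun n => by
    have h1 := (hv3 n n le_rfl).vx (hvx n _ (hL1 n).1)
    exact TransGen.head' ⟨h1, h1, by rw [dist_self]; exact hε n, Nat.le_succ _, Nat.le_succ _⟩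
      ((hv3 n n le_rfl).symm.trans ((hthread n).trans (hv3 n (n + 1) (Nat.le_succ n))))
  have hc' := tendsto_inv_succ_of_tendsto hc
  refine ⟨fun k => (s k).1, fun k => (s k).2, fun k => (hR k).2.2.2,
    tendsto_atTop_mono (fun k => (hR k).1.1) hc,
    squeeze_zero (fun _ => dist_nonneg) (fun k => (hR k).2.2.1.le) hc', fun x η hη K => ?_,
    squeeze_zero (fun _ => dist_nonneg) (fun k => (hR k).1.2.le) hc'⟩
  obtain ⟨j, hj⟩ := (TopologicalSpace.denseRange_denseSeq X).exists_dist_lt x (half_pos hη)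
  obtain ⟨K', hK'⟩ := exists_nat_one_div_lt (half_pos hη)
  obtain ⟨k, hk, hk'⟩ := hs (Nat.pair j (K + K'))
  have h1 := Nat.right_le_pair j (K + K')
  refine ⟨k, by omega, ?_⟩
  have h2 := (hv2 (Nat.pair j (K + K'))).trans_le
    (hanti K' _ (le_trans (by omega) (hL1 (Nat.pair j (K + K'))).1))
  rw [Nat.unpair_pair] at h2
  have h3 := dist_triangle_right (v (Nat.pair j (K + K'))).1 x (e j)
  simp only [hk']
  change ε K' < η / 2 at hK'
  change dist x (e j) < η / 2 at hj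
  linarith

end Pool.Agent.P.MP_3ef9ff_gt
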