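import Pool.Agent.P.MP_3ef9ff_gt.Chain

/-!
Limits of finer and finer chains are continua.
-/

set_option autoImplicit false

open Set Metric Filter Topology

namespace Pool.Agent.P.MP_3ef9ff_gt

variable {E : Type*} [MetricSpace E]

lemma ch_of_local {T : Type*} [TopologicalSpace T] {δ : ℝ} {S : Set T} (hS : IsPreconnected S)
    (c : T → E) (h : ∀ t ∈ S, ∀ᶠ t' in 𝓝[S] t, dist (c t) (c t') < δ) :
    ∀ a ∈ c '' S, ∀ b ∈ c '' S, Ch δ (c '' S) a b := by
  rintro _ ⟨a, ha, rfl⟩ _ ⟨b, hb, rfl⟩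
  refine hS.induction₂' (fun s t => Ch δ (c '' S) (c s) (c t)) ?_
    (fun x y z _ _ _ h h' => h.trans h') ha hb
  intro x hx
  filter_upwards [h x hx, self_mem_nhdsWithin] with y hy hyS
  have : Step δ (c '' S) (c x) (c y) := ⟨mem_image_of_mem c hx, mem_image_of_mem c hyS, hy⟩
  exact ⟨Ch.single this, Ch.single this.symm⟩

theorem lim_chain {S : Set E} (hS : IsCompact S) (C : ℕ → Set E) (hCS : ∀ n, C n ⊆ S)
    (hne : ∀ n, (C n).Nonempty)
    (hch : ∀ δ > 0, ∀ᶠ n in atTop, ∀ a ∈ C n, ∀ b ∈ C n, Ch δ (C n) a b) :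
    ∃ K ⊆ S, IsCompact K ∧ IsConnected K ∧ ∀ ε > 0, ∃ᶠ n in atTop,
      (∀ c ∈ C n, ∃ z ∈ K, dist c z < ε) ∧ ∀ z ∈ K, ∃ c ∈ C n, dist c z < ε := by
  let U : Ultrafilter ℕ := Ultrafilter.of atTop
  have hU : (U : Filter ℕ) ≤ atTop := Ultrafilter.of_le _
  let K : Set E := {z | ∀ ε > 0, ∀ᶠ n in U, ∃ c ∈ C n, dist c z < ε}
  have hlim : ∀ c : ℕ → E, (∀ n, c n ∈ C n) → ∃ z ∈ K, Tendsto c U (𝓝 z) := by
    intro c hc
    obtain ⟨z, -, hz⟩ := hS.ultrafilter_le_nhds (U.map c)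
      (le_principal_iff.2 (Filter.mem_map.2 (Filter.univ_mem' fun n => hCS n (hc n))))
    have hz' : Tendsto c U (𝓝 z) := hz
    exact ⟨z, fun ε hε => (Metric.tendsto_nhds.1 hz' ε hε).mono fun n hn => ⟨c n, hc n, hn⟩, hz'⟩
  have hKS : K ⊆ S := fun z hz => hS.isClosed.closure_subset (Metric.mem_closure_iff.2
    fun ε hε => by
      obtain ⟨n, c, hc, h⟩ := (hz ε hε).exists
      exact ⟨c, hCS n hc, by rwa [dist_comm]⟩)
  have hKc : IsClosed K := by
    refine isClosed_of_closure_subset fun z hz ε hε => ?_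
    obtain ⟨z', hz', h⟩ := Metric.mem_closure_iff.1 hz (ε / 2) (half_pos hε)
    filter_upwards [hz' (ε / 2) (half_pos hε)] with n ⟨c, hc, h'⟩
    refine ⟨c, hc, ?_⟩
    have := dist_triangle_right c z z'
    linarith
  have hK : IsCompact K := hS.of_isClosed_subset hKc hKS
  have h1 : ∀ ε > 0, ∀ᶠ n in U, ∀ c ∈ C n, ∃ z ∈ K, dist c z < ε := by
    intro ε hε
    by_contra hcon
    rw [← Ultrafilter.eventually_not] at hcon
    have : ∀ n, ∃ c ∈ C n, (¬ ∀ c ∈ C n, ∃ z ∈ K, dist c z < ε) → ∀ z ∈ K, ε ≤ dist c z := by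
      intro n
      by_cases h : ∀ c ∈ C n, ∃ z ∈ K, dist c z < ε
      · obtain ⟨c, hc⟩ := hne n
        exact ⟨c, hc, fun h' => absurd h h'⟩
      · push Not at h
        obtain ⟨c, hc, h⟩ := h
        exact ⟨c, hc, fun _ => h⟩
    choose c hc hc' using this
    obtain ⟨z, hz, hcz⟩ := hlim c hc
    obtain ⟨n, hn, hn'⟩ := (hcon.and (Metric.tendsto_nhds.1 hcz ε hε)).exists
    exact absurd (hc' n hn z hz) (not_le.2 hn')
  have h2 : ∀ ε > 0, ∀ᶠ n in U, ∀ z ∈ K, ∃ c ∈ C n, dist c z < ε := by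
    intro ε hε
    obtain ⟨t, htK, htf, ht⟩ := finite_cover_balls_of_compact hK (half_pos hε)
    filter_upwards [(eventually_all_finite htf).2 fun z hz => htK hz (ε / 2) (half_pos hε)]
      with n hn z hz
    obtain ⟨y, hy, hzy⟩ := mem_iUnion₂.1 (ht hz)
    obtain ⟨c, hc, h⟩ := hn y hy
    refine ⟨c, hc, ?_⟩
    have := dist_triangle_right c z y
    rw [mem_ball] at hzy
    linarith
  refine ⟨K, hKS, hK, ⟨?_, ?_⟩, fun ε hε =>
    (((h1 ε hε).and (h2 ε hε)).frequently).filter_mono hU⟩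
  · choose c hc using hne
    obtain ⟨z, hz, -⟩ := hlim c hc
    exact ⟨z, hz⟩
  · rw [isPreconnected_iff_subset_of_fully_disjoint_closed hKc]
    intro P Q hP hQ hcov hPQ
    by_contra hcon
    rw [not_or, not_subset, not_subset] at hcon
    obtain ⟨⟨b, hb, hbP⟩, ⟨a, ha, haQ⟩⟩ := hcon
    have haP : a ∈ P := (hcov ha).resolve_right haQ
    have hbQ : b ∈ Q := (hcov hb).resolve_left hbP
    obtain ⟨d, hd, hdist⟩ := exists_pos_le_dist (hK.inter_right hP) hQ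
      (hPQ.mono_left inter_subset_right)
    have h3 : 0 < d / 3 := by positivity
    obtain ⟨n, ⟨e1, e2⟩, e3⟩ := (((h1 _ h3).and (h2 _ h3)).and (hU (hch _ h3))).exists
    obtain ⟨a', ha', haa⟩ := e2 a ha
    obtain ⟨b', hb', hbb⟩ := e2 b hb
    have key : ∀ c, Ch (d / 3) (C n) a' c → ∃ z ∈ K ∩ P, dist c z < d / 3 := by
      intro c hc
      induction hc with
      | refl => exact ⟨a, ⟨ha, haP⟩, haa⟩
      | @tail u v _ hs ih =>
        obtain ⟨z, hz, hz'⟩ := ih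
        obtain ⟨w, hw, hw'⟩ := e1 v hs.2.1
        refine ⟨w, ⟨hw, (hcov hw).resolve_right fun hwQ => ?_⟩, hw'⟩
        have h4 := hdist z hz w hwQ
        have h5 := dist_triangle4 z u v w
        have h6 := hs.2.2
        rw [dist_comm] at hz'
        linarith
    obtain ⟨z, hz, hz'⟩ := key b' (e3 a' ha' b' hb')
    have h4 := hdist z hz b hbQ
    have h5 := dist_triangle_left z b b'
    linarith

/-- the image of the limit continuum under a map is everything if the chains become dense -/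
lemma image_eq_univ {M : Type*} [MetricSpace M] {S K : Set E} (hS : IsCompact S) (hKS : K ⊆ S)
    (hK : IsCompact K) {C : ℕ → Set E} (hCS : ∀ n, C n ⊆ S) {g : E → M} (hg : Continuous g)
    (h : ∀ ε > 0, ∃ᶠ n in atTop, ∀ c ∈ C n, ∃ z ∈ K, dist c z < ε)
    (hd : ∀ ε > 0, ∀ m, ∀ᶠ n in atTop, ∃ c ∈ C n, dist (g c) m < ε) : g '' K = univ := by
  refine eq_univ_of_forall fun m => (hK.image hg).isClosed.closure_subset
    (Metric.mem_closure_iff.2 fun ε hε => ?_)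
  obtain ⟨δ, hδ, hδ'⟩ := Metric.uniformContinuousOn_iff.1
    (hS.uniformContinuousOn_of_continuous hg.continuousOn) (ε / 2) (half_pos hε)
  obtain ⟨n, h1, c, hc, h2⟩ := ((h δ hδ).and_eventually (hd _ (half_pos hε) m)).exists
  obtain ⟨z, hz, h3⟩ := h1 c hc
  refine ⟨g z, mem_image_of_mem g hz, ?_⟩
  have h4 := hδ' c (hCS n hc) z (hKS hz) h3
  have h5 := dist_triangle_left m (g z) (g c)
  linarith

theorem amalgam {X Y : Type*} [MetricSpace X] [CompactSpace X] [MetricSpace Y] [CompactSpace Y]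
    (C : ℕ → Set (X × Y)) (hne : ∀ n, (C n).Nonempty)
    (hch : ∀ δ > 0, ∀ᶠ n in atTop, ∀ a ∈ C n, ∀ b ∈ C n, Ch δ (C n) a b)
    (hX : ∀ ε > 0, ∀ x, ∀ᶠ n in atTop, ∃ c ∈ C n, dist c.1 x < ε)
    (hY : ∀ ε > 0, ∀ y, ∀ᶠ n in atTop, ∃ c ∈ C n, dist c.2 y < ε) :
    ∃ K : Set (X × Y), IsCompact K ∧ IsConnected K ∧ Prod.fst '' K = univ ∧
      Prod.snd '' K = univ ∧ ∀ φ : X × Y → ℝ, Continuous φ →
        (∀ ε > 0, ∀ᶠ n in atTop, ∀ c ∈ C n, φ c < ε) → ∀ z ∈ K, φ z ≤ 0 := by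
  obtain ⟨K, hKS, hK, hc, h⟩ := lim_chain isCompact_univ C (fun _ => subset_univ _) hne hch
  refine ⟨K, hK, hc, image_eq_univ isCompact_univ hKS hK (fun _ => subset_univ _) continuous_fst
    (fun ε hε => (h ε hε).mono fun _ h => h.1) hX, image_eq_univ isCompact_univ hKS hK
    (fun _ => subset_univ _) continuous_snd (fun ε hε => (h ε hε).mono fun _ h => h.1) hY,
    fun φ hφ h0 z hz => le_of_forall_pos_le_add fun ε hε => ?_⟩
  obtain ⟨δ, hδ, hδ'⟩ := Metric.continuous_iff.1 hφ z (ε / 2) (half_pos hε)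
  obtain ⟨n, h1, h2⟩ := ((h δ hδ).and_eventually (h0 _ (half_pos hε))).exists
  obtain ⟨c, hc, h3⟩ := h1.2 z hz
  have h4 := hδ' c h3
  rw [Real.dist_eq] at h4
  linarith [h2 c hc, (abs_lt.1 h4).1]

end Pool.Agent.P.MP_3ef9ff_gt
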