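import Pool.Agent.P.MP_3ef9ff_gt.Main
import Pool.Agent.P.MP_3ef9ff_gt.Lim
import Pool.Agent.P.MP_3ef9ff_gt.Defs

/-!
A continuously ray extendable continuum is an amalgamation base.
-/

set_option autoImplicit false

open Set Metric Filter Topology Relation

namespace Pool.Agent.P.MP_3ef9ff_gt

lemma dist_floor_lt {Y : Type*} [MetricSpace Y] {y : ℕ → Y} {δ : ℝ} (hδ : 0 < δ) {K : ℕ}
    (hK : ∀ k, K ≤ k → dist (y k) (y (k + 1)) < δ) {a b : ℕ} (ha : K ≤ a) (hb : K ≤ b)
    (h1 : a ≤ b + 1) (h2 : b ≤ a + 1) : dist (y a) (y b) < δ := by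
  rcases lt_trichotomy a b with h | h | h
  · rw [show b = a + 1 by omega]
    exact hK a ha
  · rw [h, dist_self]
    exact hδ
  · rw [show a = b + 1 by omega, dist_comm]
    exact hK b hb

lemma floor_le_succ {a b : ℝ} (h : dist a b < 1) : ⌊a⌋₊ ≤ ⌊b⌋₊ + 1 := by
  rw [Real.dist_eq] at h
  have h1 : a ≤ max b 0 + 1 := by linarith [(abs_lt.1 h).2, le_max_left b 0]
  refine (Nat.floor_le_floor h1).trans ?_
  rw [Nat.floor_add_one (le_max_right b 0)]
  rcases le_total b 0 with h | h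
  · simp [max_eq_right h]
  · simp [max_eq_left h]

/-- A ray compactification of `X` over the ray that follows the sequence `p` gives a
parametrised shadow of `p` in `X`. -/
lemma exists_shadow {M : Type} [MetricSpace M] [CompactSpace M] [Nontrivial M] (hM : RayExt M)
    {X : Type} [MetricSpace X] [CompactSpace X] [ConnectedSpace X] {f : X → M}
    (hf : Continuous f) (hfs : Function.Surjective f) {p : ℕ → M}
    (hp : Tendsto (fun k => dist (p k) (p (k + 1))) atTop (𝓝 0))
    (hpd : ∀ x : M, ∀ ε > 0, ∀ K, ∃ k, K ≤ k ∧ dist (p k) x < ε) :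
    ∃ (ξ : ℝ → X) (u : ℝ → ℝ), Continuous u ∧ Tendsto u atTop atTop ∧
      (∀ δ > 0, ∀ᶠ t in atTop, ∀ s, t ≤ s → ∀ᶠ s' in 𝓝[Ici t] s, dist (ξ s) (ξ s') < δ) ∧
      (∀ x, ∀ ε > 0, ∀ T : ℝ, ∃ t, T ≤ t ∧ dist (ξ t) x < ε) ∧
      ∀ ε > 0, ∀ᶠ t in atTop, dist (f (ξ t)) (p ⌊u t⌋₊) < ε := by
  let e := kuratowskiEmbedding M
  have he : Isometry e := kuratowskiEmbedding.isometry M
  obtain ⟨σ, hσc, hσ⟩ := exists_pl fun k => e (p k)
  have hσd : ∀ (k : ℕ) (τ : ℝ), (k : ℝ) ≤ τ → τ ≤ k + 1 →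
      dist (σ τ) (e (p k)) ≤ dist (p k) (p (k + 1)) := by
    intro k τ h1 h2
    rw [hσ k τ h1 h2, dist_eq_norm, add_sub_cancel_left, norm_smul,
      ← dist_eq_norm (e _), he.dist_eq, dist_comm, Real.norm_eq_abs, abs_of_nonneg (by linarith)]
    exact mul_le_of_le_one_left dist_nonneg (by linarith)
  let l : ℝ → (lp (fun _ : ℕ => ℝ) ⊤) × ℝ := fun u => (σ (max u 0), 1 / (1 + max u 0))
  have hl : Continuous l := by
    refine (hσc.comp_continuous (by fun_prop) fun u => le_max_right u 0).prodMk ?_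
    exact continuous_const.div (by fun_prop) fun u => by positivity
  obtain ⟨W, iW, cW, i, hi1, hi2, hi3, F, hF1, hF2, hF3, hF4⟩ := build_ray
    (φ := fun m => (e m, (0 : ℝ))) (he.continuous.prodMk continuous_const) hl (p := p)
    (q := fun k => (k : ℝ)) (by simp) tendsto_natCast_atTop_atTop hp hpd (by
      intro ε hε
      obtain ⟨K, hK⟩ := exists_nat_gt (1 / ε)
      filter_upwards [hp.eventually (gt_mem_nhds hε), eventually_ge_atTop K] with k h1 h2 u hu
      rw [uIcc_of_le (by push_cast; linarith)] at hu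
      have hu0 : 0 ≤ u := (Nat.cast_nonneg k).trans hu.1
      simp only [l, max_eq_left hu0, Prod.dist_eq, max_lt_iff]
      refine ⟨(hσd k u hu.1 (by exact_mod_cast hu.2)).trans_lt h1, ?_⟩
      have h3 : (K : ℝ) ≤ k := by exact_mod_cast h2
      rw [Real.dist_eq, sub_zero, abs_of_nonneg (by positivity)]
      exact (one_div_lt (by positivity) hε).2 (by linarith [hu.1]))
  obtain ⟨W', iW', cW', i', hi1', hi2', ⟨hi3'⟩, G, hG1, hG2, hG3⟩ :=
    hM X f hf hfs W i hi1 hi2 hi3
  obtain ⟨r, hr, hrs, hr1, hr2⟩ := exists_ray_param hi2' hi3'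
  have hFG : Continuous fun w => F (G w) := hF1.comp hG1
  have hFGu := CompactSpace.uniformContinuous_of_continuous hFG
  let θ : ℝ → ℝ := fun t => (F (G (r t))).2
  have hθ : Continuous θ := (hFG.comp hr).snd
  have hval : ∀ t, θ t ≠ 0 → 0 ≤ 1 / θ t - 1 ∧ (F (G (r t))).1 = σ (1 / θ t - 1) := by
    intro t ht
    have hw : G (r t) ∉ range i := by
      rintro ⟨m, hm⟩
      apply ht
      simp only [θ, ← hm, hF3]
    obtain ⟨k, u, -, hu⟩ := hF4 _ hw
    have h1 : 1 / θ t - 1 = max u 0 := by simp [θ, hu, l]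
    rw [h1, hu]
    exact ⟨le_max_right _ _, rfl⟩
  have hpos : ∀ t, θ t ≠ 0 → 0 < θ t := fun t ht =>
    one_div_pos.1 (by linarith [(hval t ht).1])
  have hne : ∀ t, θ t ≠ 0 := by
    have hcl : IsClopen {t | θ t = 0} := by
      refine ⟨isClosed_eq hθ continuous_const, Metric.isOpen_iff.2 fun t0 ht0 => ?_⟩
      have hw : G (r t0) ∈ range i := by
        by_contra hw
        obtain ⟨k, u, -, hu⟩ := hF4 _ hw
        have h1 : θ t0 = 1 / (1 + max u 0) := by simp only [θ, hu, l]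
        have h2 : 0 < 1 / (1 + max u 0) := by positivity
        exact h2.ne' (h1.symm.trans ht0)
      obtain ⟨m0, hm0⟩ := hw
      obtain ⟨m1, hm1⟩ := exists_ne m0
      have hd : 0 < dist m1 m0 / 2 := half_pos (dist_pos.2 hm1)
      obtain ⟨η, hη, hη'⟩ := Metric.continuous_iff.1 (hFG.comp hr).fst t0 _ hd
      refine ⟨η, hη, fun t1 ht1 => ?_⟩
      by_contra h1
      obtain ⟨k, hk, hk'⟩ := hpd m1 _ hd ⌈1 / θ t1⌉₊
      have h2 : 1 / θ t1 ≤ k := Nat.ceil_le.1 hk
      have h3 : 1 / (1 + (k : ℝ)) ∈ uIcc (θ t0) (θ t1) := by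
        rw [show θ t0 = 0 from ht0]
        exact Icc_subset_uIcc ⟨by positivity,
          (one_div_le (by positivity) (hpos t1 h1)).2 (by linarith)⟩
      obtain ⟨t, ht, htk⟩ := intermediate_value_uIcc hθ.continuousOn h3
      have h4 := hη' t ((convex_ball t0 η).ordConnected.uIcc_subset (mem_ball_self hη) ht1 ht)
      have h5 := (hval t (by rw [htk]; positivity)).2
      simp only [Function.comp] at h4
      rw [h5, htk, ← hm0, hF3, one_div_one_div, add_sub_cancel_left,
        hσ k k le_rfl (by linarith), sub_self, zero_smul, add_zero, he.dist_eq] at h4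
      have h6 := dist_triangle_left m1 m0 (p k)
      linarith
    rcases isClopen_iff.1 hcl with h | h
    · exact fun t ht => (h ▸ ht : t ∈ (∅ : Set ℝ))
    · exfalso
      obtain ⟨w, hw⟩ := hF2 0 le_rfl
      obtain ⟨w', rfl⟩ := hG2 w
      have h1 : (F (G w')).2 = 1 := by simp [hw, l]
      have hw' : w' ∉ range i' := by
        rintro ⟨x, rfl⟩
        rw [hG3, hF3] at h1
        exact zero_ne_one h1
      obtain ⟨t, -, rfl⟩ := hrs w' hw'
      have h2 : θ t = 0 := (h ▸ mem_univ t : t ∈ {t | θ t = 0})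
      exact zero_ne_one (h2.symm.trans h1)
  have hξ : ∀ t, ∃ x : X, ∀ x', dist (r t) (i' x) ≤ dist (r t) (i' x') := by
    intro t
    obtain ⟨x, -, hx⟩ := (isCompact_univ (X := X)).exists_isMinOn univ_nonempty
      (f := fun x => dist (r t) (i' x)) (by have := hi1'.continuous; fun_prop)
    exact ⟨x, fun x' => hx (mem_univ x')⟩
  choose ξ hξ using hξ
  have hclose : ∀ ε > 0, ∀ᶠ t in atTop, dist (r t) (i' (ξ t)) < ε := fun ε hε =>
    (hr1 ε hε).mono fun t ⟨x, hx⟩ => (hξ t x).trans_lt hx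
  have hclose' : ∀ ε > 0, ∀ᶠ t in atTop, dist (F (G (r t))) (e (f (ξ t)), (0 : ℝ)) < ε := by
    intro ε hε
    obtain ⟨δ, hδ, hδ'⟩ := Metric.uniformContinuous_iff.1 hFGu ε hε
    filter_upwards [hclose δ hδ] with t ht
    have := hδ' ht
    rwa [hG3, hF3] at this
  have hu : Tendsto (fun t => 1 / θ t - 1) atTop atTop := by
    refine tendsto_atTop_add_const_right _ (-1) ?_
    simp only [one_div]
    refine tendsto_inv_nhdsGT_zero.comp (tendsto_nhdsWithin_iff.2 ⟨?_, ?_⟩)
    · exact Metric.tendsto_nhds.2 fun ε hε => (hclose' ε hε).mono fun t ht =>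
        (le_max_right _ _).trans_lt ht
    · exact Eventually.of_forall fun t => hpos t (hne t)
  refine ⟨ξ, fun t => 1 / θ t - 1, (continuous_const.div hθ hne).sub continuous_const, hu,
    fun δ hδ => ?_, fun x ε hε T => ?_, fun ε hε => ?_⟩
  · obtain ⟨η, hη, hη'⟩ := inverse_uniform hi1'.continuous hi1'.injective hδ
    have h3 : 0 < η / 3 := by positivity
    obtain ⟨T, hT⟩ := eventually_atTop.1 (hclose _ h3)
    filter_upwards [eventually_ge_atTop T] with t ht s hs
    filter_upwards [self_mem_nhdsWithin, mem_nhdsWithin_of_mem_nhds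
      (Metric.tendsto_nhds.1 (hr.tendsto s) _ h3)] with s' h1 h2
    apply hη'
    have h4 := hT s (ht.trans hs)
    have h5 := hT s' (ht.trans h1)
    have h6 := dist_triangle4 (i' (ξ s)) (r s) (r s') (i' (ξ s'))
    rw [dist_comm] at h4
    rw [dist_comm] at h2
    linarith
  · obtain ⟨η, hη, hη'⟩ := inverse_uniform hi1'.continuous hi1'.injective hε
    obtain ⟨t, ht, ht'⟩ := hr2 x _ (half_pos hη) T
    refine ⟨t, ht, hη' _ _ ?_⟩
    have h1 := hξ t x
    have h2 := dist_triangle_left (i' (ξ t)) (i' x) (r t)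
    linarith
  · filter_upwards [hclose' _ (half_pos hε), (tendsto_nat_floor_atTop.comp hu).eventually
      (hp.eventually (gt_mem_nhds (half_pos hε)))] with t h1 h2
    have h3 := hval t (hne t)
    have h4 := hσd _ _ (Nat.floor_le h3.1) (Nat.lt_floor_add_one _).le
    have h5 : dist (F (G (r t))).1 (e (f (ξ t))) < ε / 2 := (le_max_left _ _).trans_lt h1
    rw [h3.2] at h5
    rw [← he.dist_eq]
    have h6 := dist_triangle_left (e (f (ξ t))) (e (p ⌊1 / θ t - 1⌋₊)) (σ (1 / θ t - 1))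
    simp only [Function.comp] at h2
    linarith

theorem base_of_rayExt {M : Type} [MetricSpace M] [CompactSpace M] (hM : RayExt M) : Base M := by
  intro X Y _ _ _ _ _ _ f h hf hfs hh hhs
  rcases subsingleton_or_nontrivial M with hs | hs
  · exact ⟨univ, isCompact_univ, isConnected_univ, image_univ_of_surjective Prod.fst_surjective,
      image_univ_of_surjective Prod.snd_surjective, fun _ _ => Subsingleton.elim _ _⟩
  obtain ⟨y, hy, hyd⟩ := exists_dense_walk Y
  obtain ⟨ξ, u, hu, hu', h1, h2, h3⟩ := exists_shadow hM hf hfs (p := fun k => h (y k))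
    (by
      refine Metric.tendsto_nhds.2 fun ε hε => ?_
      obtain ⟨δ, hδ, hδ'⟩ := Metric.uniformContinuous_iff.1
        (CompactSpace.uniformContinuous_of_continuous hh) ε hε
      filter_upwards [hy.eventually (gt_mem_nhds hδ)] with k hk
      rw [Real.dist_eq, sub_zero, abs_of_nonneg dist_nonneg]
      exact hδ' hk)
    (by
      intro m ε hε K
      obtain ⟨z, rfl⟩ := hhs m
      obtain ⟨δ, hδ, hδ'⟩ := Metric.continuous_iff.1 hh z ε hε
      obtain ⟨k, hk, hk'⟩ := hyd z δ hδ K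
      exact ⟨k, hk, hδ' _ hk'⟩)
  let c : ℝ → X × Y := fun t => (ξ t, y ⌊u t⌋₊)
  obtain ⟨K, hK1, hK2, hK3, hK4, hK5⟩ := amalgam (fun n : ℕ => c '' Ici (n : ℝ))
    (fun n => ⟨_, n, (le_rfl : (n : ℝ) ≤ n), rfl⟩)
    (by
      intro δ hδ
      obtain ⟨N, hN⟩ := eventually_atTop.1 (hy.eventually (gt_mem_nhds hδ))
      obtain ⟨T, hT⟩ := eventually_atTop.1
        ((tendsto_nat_floor_atTop.comp hu').eventually (eventually_ge_atTop N))
      filter_upwards [tendsto_natCast_atTop_atTop.eventually (h1 δ hδ),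
        (tendsto_natCast_atTop_atTop (R := ℝ)).eventually (eventually_ge_atTop T)] with n hn hn'
      refine ch_of_local isPreconnected_Ici c fun s hs => ?_
      filter_upwards [hn s hs, self_mem_nhdsWithin, mem_nhdsWithin_of_mem_nhds
        (Metric.tendsto_nhds.1 (hu.tendsto s) 1 one_pos)] with s' h4 h5 h6
      rw [Prod.dist_eq, max_lt_iff]
      exact ⟨h4, dist_floor_lt hδ hN (hT s (hn'.trans hs)) (hT s' (hn'.trans h5))
        (floor_le_succ (by rw [dist_comm]; exact h6)) (floor_le_succ h6)⟩)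
    (fun ε hε x => Eventually.of_forall fun n => by
      obtain ⟨t, ht, ht'⟩ := h2 x ε hε n
      exact ⟨c t, ⟨t, ht, rfl⟩, ht'⟩)
    (fun ε hε z => Eventually.of_forall fun n => by
      obtain ⟨k, hk, hk'⟩ := hyd z ε hε ⌈u n⌉₊
      obtain ⟨t, ht, ht'⟩ := intermediate_value_Ici hu.continuousOn hu'
        (show (k : ℝ) ∈ Ici (u n) from Nat.ceil_le.1 hk)
      exact ⟨c t, ⟨t, ht, rfl⟩, by simp only [c, ht', Nat.floor_natCast]; exact hk'⟩)
  refine ⟨K, hK1, hK2, hK3, hK4, fun z hz => dist_le_zero.1 (hK5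
    (fun z => dist (f z.1) (h z.2)) (by fun_prop) (fun ε hε => ?_) z hz)⟩
  obtain ⟨T, hT⟩ := eventually_atTop.1 (h3 ε hε)
  filter_upwards [(tendsto_natCast_atTop_atTop (R := ℝ)).eventually (eventually_ge_atTop T)]
    with n hn
  rintro _ ⟨t, ht, rfl⟩
  exact hT t (hn.trans ht)

end Pool.Agent.P.MP_3ef9ff_gt
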