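import Pool.Agent.P.MP_3ef9ff_gt.Lim
import Pool.Agent.P.MP_3ef9ff_gt.Defs

/-!
The window lemma: over an amalgamation base every fine dense finite chain of the base can be
followed from end to end by a dense chain upstairs.
-/

set_option autoImplicit false

open Set Metric Filter Topology Relation

namespace Pool.Agent.P.MP_3ef9ff_gt

section
variable {M X : Type*} [MetricSpace M] [MetricSpace X]

/-- vertices of the following graph -/
def Vx (f : X → M) (m : ℕ → M) (ε : ℝ) (I : Set ℕ) (v : X × ℕ) : Prop :=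
  v.2 ∈ I ∧ dist (f v.1) (m v.2) < ε

/-- edges of the following graph -/
def Ed (f : X → M) (m : ℕ → M) (ε : ℝ) (I : Set ℕ) (v w : X × ℕ) : Prop :=
  Vx f m ε I v ∧ Vx f m ε I w ∧ dist v.1 w.1 < ε ∧ v.2 ≤ w.2 + 1 ∧ w.2 ≤ v.2 + 1

/-- reachability in the following graph -/
def Re (f : X → M) (m : ℕ → M) (ε : ℝ) (I : Set ℕ) : X × ℕ → X × ℕ → Prop :=
  ReflTransGen (Ed f m ε I)

variable {f : X → M} {m : ℕ → M} {ε ε' : ℝ} {I I' : Set ℕ} {u v w : X × ℕ}

lemma Vx.mono (h : Vx f m ε I v) (hε : ε ≤ ε') (hI : I ⊆ I') : Vx f m ε' I' v :=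
  ⟨hI h.1, h.2.trans_le hε⟩

lemma Re.single (h : Ed f m ε I v w) : Re f m ε I v w := ReflTransGen.single h

lemma Re.trans (h : Re f m ε I u v) (h' : Re f m ε I v w) : Re f m ε I u w :=
  ReflTransGen.trans h h'

lemma Re.symm (h : Re f m ε I v w) : Re f m ε I w v := by
  induction h with
  | refl => exact ReflTransGen.refl
  | tail _ hs ih =>
    exact (Re.single ⟨hs.2.1, hs.1, by rw [dist_comm]; exact hs.2.2.1, hs.2.2.2.2,
      hs.2.2.2.1⟩).trans ih

lemma Re.mono (h : Re f m ε I v w) (hε : ε ≤ ε') (hI : I ⊆ I') : Re f m ε' I' v w := by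
  induction h with
  | refl => exact ReflTransGen.refl
  | tail _ hs ih =>
    exact ih.trans (Re.single ⟨hs.1.mono hε hI, hs.2.1.mono hε hI, hs.2.2.1.trans_le hε,
      hs.2.2.2⟩)

lemma Re.vx (h : Re f m ε I v w) (hv : Vx f m ε I v) : Vx f m ε I w := by
  induction h with
  | refl => exact hv
  | tail _ hs _ => exact hs.2.1

lemma Re.ivt (h : Re f m ε I v w) {c : ℕ} (h1 : v.2 ≤ c) (h2 : c ≤ w.2) :
    ∃ x, Re f m ε I v (x, c) := by
  induction h with
  | refl => exact ⟨v.1, by rw [le_antisymm h2 h1]; exact ReflTransGen.refl⟩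
  | @tail a b hva hab ih =>
    by_cases h' : c ≤ a.2
    · exact ih h'
    · have h3 := hab.2.2.2.2
      exact ⟨b.1, by rw [show c = b.2 by omega]; exact ReflTransGen.tail hva hab⟩

lemma exists_net (X : Type*) [MetricSpace X] [CompactSpace X] {η : ℝ} (hη : 0 < η) :
    ∃ N : Finset X, ∀ x, ∃ z ∈ N, dist x z < η := by
  obtain ⟨t, -, htf, ht⟩ := finite_cover_balls_of_compact (isCompact_univ (X := X)) hη
  refine ⟨htf.toFinset, fun x => ?_⟩
  obtain ⟨z, hz, h⟩ := mem_iUnion₂.1 (ht (mem_univ x))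
  exact ⟨z, htf.mem_toFinset.2 hz, h⟩

/-- the closed constraints on a point of the base together with its labels -/
def Lab (f : X → M) (ε : ℝ) (N : Finset X) : Set (M × (Bool ⊕ N → N → ℝ)) :=
  {q | (∀ l z, q.2 l z ∈ Icc 0 ε) ∧
    (∀ x, ∃ l, ∀ z : N, ε - dist (f x) q.1 - dist x z ≤ q.2 l z) ∧
    (∀ l l', l ≠ l' → ∀ z, q.2 l z + q.2 l' z ≤ ε) ∧ ∀ z, q.2 (Sum.inr z) z ≤ ε / 4}

lemma isCompact_lab [CompactSpace M] (f : X → M) (ε : ℝ) (N : Finset X) :
    IsCompact (Lab f ε N) := by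
  refine (isCompact_univ.prod (isCompact_univ_pi fun _ => isCompact_univ_pi fun _ =>
    isCompact_Icc (a := (0 : ℝ)) (b := ε))).of_isClosed_subset ?_
    fun q hq => ⟨trivial, fun l _ z _ => hq.1 l z⟩
  simp only [Lab, ofPred_and, ofPred_forall, ofPred_exists]
  refine (isClosed_iInter fun l => isClosed_iInter fun z => isClosed_Icc.preimage
    (f := fun q : M × (Bool ⊕ N → N → ℝ) => q.2 l z) (by fun_prop)).inter
    ((isClosed_iInter fun x => isClosed_iUnion_of_finite fun l => isClosed_iInter fun z =>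
      isClosed_le (by fun_prop) (by fun_prop)).inter
    ((isClosed_iInter fun l => isClosed_iInter fun l' => isClosed_iInter fun _ =>
      isClosed_iInter fun z => isClosed_le (by fun_prop) (by fun_prop)).inter
    (isClosed_iInter fun z => isClosed_le (by fun_prop) (by fun_prop))))

/-- a window without a good component carries labels -/
lemma exists_labels (hε : 0 < ε) {N : Finset X} (hN : ∀ x, ∃ z ∈ N, dist x z < ε / 4) {a b : ℕ}
    (hbad : ∀ v, Vx f m ε (Icc a b) v → v.2 = a → (∃ w, Re f m ε (Icc a b) v w ∧ w.2 = b) →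
      ∃ x, ∀ w, Re f m ε (Icc a b) v w → ε ≤ dist w.1 x) :
    ∃ g : ℕ → Bool ⊕ N → N → ℝ, (∀ k ∈ Icc a b, (m k, g k) ∈ Lab f ε N) ∧
      (∀ k ∈ Icc a b, ∀ k' ∈ Icc a b, k ≤ k' + 1 → k' ≤ k + 1 → ∀ l z,
        g k l z ≤ g k' l z + dist (m k) (m k')) ∧
      (∀ z, g a (Sum.inl false) z ≤ 0) ∧ ∀ z, g b (Sum.inl true) z ≤ 0 := by
  let Miss : Set (X × ℕ) → Bool ⊕ N → Prop := fun C l => match l with
    | Sum.inl false => ∀ w ∈ C, w.2 ≠ a
    | Sum.inl true => ∀ w ∈ C, w.2 ≠ b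
    | Sum.inr z => ∀ w ∈ C, 3 * ε / 4 ≤ dist w.1 z
  let lab : X × ℕ → Bool ⊕ N := fun v => Classical.epsilon (Miss {w | Re f m ε (Icc a b) v w})
  have hlab : ∀ v, Vx f m ε (Icc a b) v → Miss {w | Re f m ε (Icc a b) v w} (lab v) := by
    intro v hv
    refine Classical.epsilon_spec (p := Miss {w | Re f m ε (Icc a b) v w}) ?_
    by_cases h1 : ∀ w, Re f m ε (Icc a b) v w → w.2 ≠ a
    · exact ⟨Sum.inl false, h1⟩
    by_cases h2 : ∀ w, Re f m ε (Icc a b) v w → w.2 ≠ b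
    · exact ⟨Sum.inl true, h2⟩
    push Not at h1 h2
    obtain ⟨u, hu, hua⟩ := h1
    obtain ⟨w, hw, hwb⟩ := h2
    obtain ⟨x, hx⟩ := hbad u (hu.vx hv) hua ⟨w, hu.symm.trans hw, hwb⟩
    obtain ⟨z, hz, hxz⟩ := hN x
    refine ⟨Sum.inr ⟨z, hz⟩, fun w hw => ?_⟩
    have h3 := hx w (hu.symm.trans hw)
    have h4 := dist_triangle_right w.1 x z
    change 3 * ε / 4 ≤ dist w.1 z
    linarith
  have hedge : ∀ v w, Ed f m ε (Icc a b) v w → lab v = lab w := by
    intro v w h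
    have : {u | Re f m ε (Icc a b) v u} = {u | Re f m ε (Icc a b) w u} :=
      Set.ext fun u => ⟨fun h' => (Re.single h).symm.trans h', fun h' => (Re.single h).trans h'⟩
    simp only [lab, this]
  let A : ℕ → Bool ⊕ N → N → Set ℝ := fun k l z => insert 0 {t | ∃ x,
    Vx f m ε (Icc a b) (x, k) ∧ lab (x, k) = l ∧ t = ε - dist (f x) (m k) - dist x z}
  have hbd : ∀ k l z, ∀ t ∈ A k l z, t ≤ ε := by
    rintro k l z t (rfl | ⟨x, -, -, rfl⟩)
    · exact hε.le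
    · linarith [dist_nonneg (x := f x) (y := m k), dist_nonneg (x := x) (y := z)]
  have h0 : ∀ k l z, 0 ≤ sSup (A k l z) := fun k l z => le_csSup ⟨ε, hbd k l z⟩ (Or.inl rfl)
  have h1 : ∀ k x, Vx f m ε (Icc a b) (x, k) → ∀ z : N,
      ε - dist (f x) (m k) - dist x z ≤ sSup (A k (lab (x, k)) z) := fun k x hx z =>
    le_csSup ⟨ε, hbd k _ z⟩ (Or.inr ⟨x, hx, rfl, rfl⟩)
  have h2 : ∀ k l (z : N) c, 0 ≤ c → (∀ x, Vx f m ε (Icc a b) (x, k) → lab (x, k) = l →
      ε - dist (f x) (m k) - dist x z ≤ c) → sSup (A k l z) ≤ c := by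
    intro k l z c hc h
    refine csSup_le ⟨0, Or.inl rfl⟩ ?_
    rintro t (rfl | ⟨x, hx, hl, rfl⟩)
    · exact hc
    · exact h x hx hl
  have h3 : ∀ k l z, sSup (A k l z) ≤ ε := fun k l z => csSup_le ⟨0, Or.inl rfl⟩ (hbd k l z)
  refine ⟨fun k l z => sSup (A k l z), fun k hk => ⟨fun l z => ⟨h0 k l z, h3 k l z⟩,
    fun x => ?_, fun l l' hl z => ?_, fun z => ?_⟩, fun k hk k' hk' hkk hkk' l z => ?_,
    fun z => ?_, fun z => ?_⟩
  · by_cases hx : Vx f m ε (Icc a b) (x, k)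
    · exact ⟨_, h1 k x hx⟩
    · refine ⟨Sum.inl true, fun z => le_trans ?_ (h0 k _ z)⟩
      have : ε ≤ dist (f x) (m k) := not_lt.1 fun h => hx ⟨hk, h⟩
      linarith [dist_nonneg (x := x) (y := z)]
  · refine le_sub_iff_add_le.1 (h2 k l z _ (sub_nonneg.2 (h3 k l' z)) fun x hx hxl => ?_)
    refine le_sub_comm.1 (h2 k l' z _ ?_ fun x' hx' hxl' => ?_)
    · linarith [dist_nonneg (x := f x) (y := m k), dist_nonneg (x := x) (y := z)]
    · have h4 : ε ≤ dist x x' := not_lt.1 fun h => hl (by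
        rw [← hxl, ← hxl']
        exact hedge _ _ ⟨hx, hx', h, Nat.le_succ k, Nat.le_succ k⟩)
      linarith [dist_nonneg (x := f x) (y := m k), dist_nonneg (x := f x') (y := m k),
        dist_triangle_right x x' z]
  · refine h2 k _ z _ (by positivity) fun x hx hxl => ?_
    have h4 := hlab _ hx
    rw [hxl] at h4
    have h5 : 3 * ε / 4 ≤ dist x z := h4 (x, k) ReflTransGen.refl
    linarith [dist_nonneg (x := f x) (y := m k)]
  · refine h2 k l z _ (add_nonneg (h0 _ _ _) dist_nonneg) fun x hx hxl => ?_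
    have h4 := dist_triangle (f x) (m k) (m k')
    by_cases hx' : Vx f m ε (Icc a b) (x, k')
    · have h5 := h1 k' x hx' z
      rw [← hedge (x, k) (x, k') ⟨hx, hx', by rwa [dist_self], hkk, hkk'⟩, hxl] at h5
      linarith
    · have : ε ≤ dist (f x) (m k') := not_lt.1 fun h => hx' ⟨hk', h⟩
      linarith [dist_nonneg (x := x) (y := z), h0 k' l z]
  · refine h2 a _ z _ le_rfl fun x hx hxl => ?_
    have h4 := hlab _ hx
    rw [hxl] at h4
    exact absurd rfl (h4 (x, a) ReflTransGen.refl)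
  · refine h2 b _ z _ le_rfl fun x hx hxl => ?_
    have h4 := hlab _ hx
    rw [hxl] at h4
    exact absurd rfl (h4 (x, b) ReflTransGen.refl)

lemma ch_of_window {E : Type*} [MetricSpace E] {δ : ℝ} (c : ℕ → E) {a b : ℕ}
    (h : ∀ k, a ≤ k → k < b → dist (c k) (c (k + 1)) < δ) :
    ∀ p ∈ c '' Icc a b, ∀ q ∈ c '' Icc a b, Ch δ (c '' Icc a b) p q := by
  have key : ∀ k, a ≤ k → k ≤ b → Ch δ (c '' Icc a b) (c a) (c k) := by
    intro k hk
    induction k, hk using Nat.le_induction with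
    | base => exact fun _ => Ch.refl _ _ _
    | succ k hk ih =>
      intro hb
      exact (ih (by omega)).trans (Ch.single ⟨⟨k, ⟨hk, by omega⟩, rfl⟩,
        ⟨k + 1, ⟨by omega, hb⟩, rfl⟩, h k hk (by omega)⟩)
  rintro _ ⟨k, hk, rfl⟩ _ ⟨k', hk', rfl⟩
  exact (key k hk.1 hk.2).symm.trans (key k' hk'.1 hk'.2)

end

theorem window {M X : Type} [MetricSpace M] [CompactSpace M] [MetricSpace X] [CompactSpace X]
    [ConnectedSpace X] (hM : Base M) {f : X → M} (hf : Continuous f)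
    (hfs : Function.Surjective f) {ε : ℝ} (hε : 0 < ε) :
    ∃ δ > 0, ∀ (m : ℕ → M) (a b : ℕ), a ≤ b → (∀ k, a ≤ k → k < b → dist (m k) (m (k + 1)) < δ) →
      (∀ y, ∃ k, a ≤ k ∧ k ≤ b ∧ dist (m k) y < δ) →
      ∃ v, Vx f m ε (Icc a b) v ∧ v.2 = a ∧ (∃ w, Re f m ε (Icc a b) v w ∧ w.2 = b) ∧
        ∀ x, ∃ w, Re f m ε (Icc a b) v w ∧ dist w.1 x < ε := by
  by_contra hcon
  push Not at hcon
  choose m a b hab hstep hdense hbad using fun n : ℕ => hcon (1 / ((n : ℝ) + 1)) (by positivity)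
  obtain ⟨N, hN⟩ := exists_net X (show 0 < ε / 4 by positivity)
  choose g hg1 hg2 hg3 hg4 using fun n => exists_labels hε hN (hbad n)
  have hlim : ∀ δ > 0, ∀ᶠ n : ℕ in atTop, 1 / ((n : ℝ) + 1) < δ := fun δ hδ =>
    (tendsto_one_div_add_atTop_nhds_zero_nat (𝕜 := ℝ)).eventually (gt_mem_nhds hδ)
  let C : ℕ → Set (M × (Bool ⊕ N → N → ℝ)) := fun n => (fun k => (m n k, g n k)) '' Icc (a n) (b n)
  have hCS : ∀ n, C n ⊆ Lab f ε N := by
    rintro n _ ⟨k, hk, rfl⟩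
    exact hg1 n k hk
  obtain ⟨K, hKS, hK, hKc, hK'⟩ := lim_chain (isCompact_lab f ε N) C hCS
    (fun n => ⟨_, a n, ⟨le_rfl, hab n⟩, rfl⟩) (by
      intro δ hδ
      filter_upwards [hlim δ hδ] with n hn
      refine ch_of_window _ fun k h1 h2 => ?_
      have h3 := (hstep n k h1 h2).trans hn
      rw [Prod.dist_eq, max_lt_iff]
      refine ⟨h3, lt_of_le_of_lt ((dist_pi_le_iff dist_nonneg).2 fun l =>
        (dist_pi_le_iff dist_nonneg).2 fun z => ?_) h3⟩
      have h4 := hg2 n k ⟨h1, h2.le⟩ (k + 1) ⟨by omega, h2⟩ (by omega) le_rfl l z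
      have h5 := hg2 n (k + 1) ⟨by omega, h2⟩ k ⟨h1, h2.le⟩ le_rfl (by omega) l z
      rw [dist_comm] at h5
      rw [Real.dist_eq, abs_le]
      constructor <;> linarith)
  have hsurj : Prod.fst '' K = univ := image_eq_univ (isCompact_lab f ε N) hKS hK hCS
    continuous_fst (fun ε hε => (hK' ε hε).mono fun _ h => h.1) fun δ hδ y => by
      filter_upwards [hlim δ hδ] with n hn
      obtain ⟨k, h1, h2, h3⟩ := hdense n y
      exact ⟨_, ⟨k, ⟨h1, h2⟩, rfl⟩, h3.trans hn⟩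
  have : CompactSpace K := isCompact_iff_compactSpace.1 hK
  have : ConnectedSpace K := isConnected_iff_connectedSpace.1 hKc
  obtain ⟨L, -, hLc, hL1, hL2, hL⟩ := hM X K f (fun q => q.1.1) hf hfs (by fun_prop) fun y => by
    obtain ⟨q, hq, hqy⟩ := (hsurj ▸ mem_univ y : y ∈ Prod.fst '' K)
    exact ⟨⟨q, hq⟩, hqy⟩
  let P : Bool ⊕ N → Set (X × K) := fun l => {p | ∀ z : N, ε - dist p.1 z ≤ p.2.1.2 l z}
  have hP : ∀ l, IsClosed (P l) := fun l => by
    simp only [P, ofPred_forall]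
    exact isClosed_iInter fun z => isClosed_le (by fun_prop) (by fun_prop)
  have hcov : ∀ p ∈ L, ∃ l, p ∈ P l := by
    intro p hp
    obtain ⟨l, hl⟩ := (hKS p.2.2).2.1 p.1
    refine ⟨l, fun z => ?_⟩
    have := hl z
    rwa [hL p hp, dist_self, sub_zero] at this
  have hbig : ∀ l, ∀ p ∈ P l, ∃ z, 3 * ε / 4 ≤ p.2.1.2 l z ∧ dist p.1 z < ε / 4 := by
    intro l p hp
    obtain ⟨z, hz, h⟩ := hN p.1
    have := hp ⟨z, hz⟩
    exact ⟨⟨z, hz⟩, by linarith, h⟩
  obtain ⟨p0, hp0⟩ := hLc.nonempty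
  obtain ⟨l0, hl0⟩ := hcov p0 hp0
  have hdisj : ∀ p ∈ P l0, ∀ l, l ≠ l0 → p ∉ P l := by
    intro p hp l hl hp'
    obtain ⟨z, h1, h2⟩ := hbig l p hp'
    have h3 := hp z
    have h4 := (hKS p.2.2).2.2.1 l l0 hl z
    linarith
  have hsub : L ⊆ P l0 := by
    rcases isPreconnected_iff_subset_of_disjoint_closed.1 hLc.isPreconnected (P l0)
      (⋃ l : {l // l ≠ l0}, P l) (hP l0) (isClosed_iUnion_of_finite fun l => hP l)
      (fun p hp => by
        obtain ⟨l, hl⟩ := hcov p hp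
        by_cases h : l = l0
        · exact Or.inl (h ▸ hl)
        · exact Or.inr (mem_iUnion.2 ⟨⟨l, h⟩, hl⟩))
      (eq_empty_of_forall_notMem fun p hp => by
        obtain ⟨l, hl⟩ := mem_iUnion.1 hp.2.2
        exact hdisj p hp.2.1 l l.2 hl) with h | h
    · exact h
    · obtain ⟨l, hl⟩ := mem_iUnion.1 (h hp0)
      exact absurd hl (hdisj p0 hl0 l l.2)
  have hend : ∀ (k : ℕ → ℕ), (∀ n, k n ∈ Icc (a n) (b n)) → (∀ n z, g n (k n) l0 z ≤ 0) →
      False := by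
    intro k hk h0
    obtain ⟨n, hn⟩ := (hK' (ε / 4) (by positivity)).exists
    obtain ⟨q, hq, hq'⟩ := hn.1 _ ⟨k n, hk n, rfl⟩
    obtain ⟨p, hp, hpq⟩ := (hL2 ▸ mem_univ _ : (⟨q, hq⟩ : K) ∈ Prod.snd '' L)
    obtain ⟨z, h1, -⟩ := hbig l0 p (hsub hp)
    rw [hpq] at h1
    have h2 : dist (g n (k n) l0 z) (q.2 l0 z) < ε / 4 :=
      ((dist_le_pi_dist _ _ z).trans (dist_le_pi_dist _ _ l0)).trans_lt
        ((le_max_right _ _).trans_lt hq')
    rw [Real.dist_eq] at h2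
    have h3 := h0 n z
    have h4 := (abs_lt.1 h2).1
    change 3 * ε / 4 ≤ q.2 l0 z at h1
    linarith
  rcases l0 with (_ | _) | z
  · exact hend a (fun n => ⟨le_rfl, hab n⟩) hg3
  · exact hend b (fun n => ⟨hab n, le_rfl⟩) hg4
  · obtain ⟨p, hp, hpz⟩ := (hL1 ▸ mem_univ _ : (z : X) ∈ Prod.fst '' L)
    have h1 := hsub hp z
    have h2 := (hKS p.2.2).2.2.2 z
    rw [hpz, dist_self] at h1
    linarith

end Pool.Agent.P.MP_3ef9ff_gt
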