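import Pool.Agent.P.MP_3ef9ff_gt.Circ

/-!
Solenoids are amalgamation bases.
-/

set_option autoImplicit false

open Set Metric Filter Topology Relation

namespace Pool.Agent.P.MP_3ef9ff_gt

lemma nsmul_coe_div {p : ℕ} (hp : 2 ≤ p) (a : ℝ) :
    p • ((a / p : ℝ) : UnitAddCircle) = (a : UnitAddCircle) := by
  have h : (p : ℝ) ≠ 0 := by positivity
  rw [← QuotientAddGroup.mk_nsmul, nsmul_eq_mul, mul_div_cancel₀ _ h]

lemma ess_of_tower {X : Type*} [MetricSpace X] [CompactSpace X] [ConnectedSpace X] {p : ℕ → ℕ}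
    (hp : ∀ n, 2 ≤ p n) {φ : ℕ → X → UnitAddCircle} (hφ : ∀ n, Continuous (φ n))
    (hs : ∀ n, Function.Surjective (φ n)) (ht : ∀ n x, p n • φ (n + 1) x = φ n x) (n : ℕ) :
    Ess (φ n) := by
  rintro ⟨l, hl, hl'⟩
  obtain ⟨D, hD⟩ := Metric.isBounded_iff.1 (isCompact_range hl).isBounded
  have key : ∀ k, ∃ l : X → ℝ, Continuous l ∧ (∀ x, (l x : UnitAddCircle) = φ (n + k) x) ∧
      ∀ x y, |l x - l y| ≤ D * (1 / 2) ^ k := by
    intro k
    induction k with
    | zero => exact ⟨l, hl, hl', fun x y => by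
        simpa [Real.dist_eq] using hD (mem_range_self x) (mem_range_self y)⟩
    | succ k ih =>
      obtain ⟨l, hl, h1, h2⟩ := ih
      obtain ⟨x0⟩ : Nonempty X := inferInstance
      have h3 : (2 : ℝ) ≤ p (n + k) := by exact_mod_cast hp _
      let g : X → UnitAddCircle := fun x => φ (n + k + 1) x - ((l x / p (n + k) : ℝ) : UnitAddCircle)
      have hg : Continuous g := (hφ _).sub (continuous_quotient_mk'.comp (hl.div_const _))
      have hc : ∀ x, g x = g x0 := fun x => isPreconnected_univ.constant_of_mapsTo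
        (AddCircle.finite_torsion (1 : ℝ) (n := p (n + k)) (by linarith [hp (n + k)])).isDiscrete
        hg.continuousOn (fun x _ => by
          simp only [g, mem_ofPred_eq, smul_sub, ht, nsmul_coe_div (hp _), h1, sub_self])
        trivial trivial
      obtain ⟨c, hc', -⟩ := exists_near_lift 0 (g x0)
      refine ⟨fun x => c + l x / p (n + k), by fun_prop, fun x => ?_, fun x y => ?_⟩
      · rw [QuotientAddGroup.mk_add, hc', ← hc x]
        exact sub_add_cancel _ _
      · rw [add_sub_add_left_eq_sub, ← sub_div, abs_div, abs_of_pos (by linarith : (0 : ℝ) < p _),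
          pow_succ, ← mul_assoc, mul_one_div]
        exact div_le_div₀ ((abs_nonneg _).trans (h2 x y)) (h2 x y) two_pos h3
  have hlim : Tendsto (fun k : ℕ => D * (1 / 2 : ℝ) ^ k) atTop (𝓝 (D * 0)) :=
    (tendsto_pow_atTop_nhds_zero_of_lt_one (by norm_num) (by norm_num)).const_mul D
  obtain ⟨k, hk⟩ := (hlim.eventually (gt_mem_nhds (show D * 0 < 1 / 2 by norm_num))).exists
  obtain ⟨l, -, h1, h2⟩ := key k
  obtain ⟨x, hx⟩ := hs (n + k) ((1 / 2 : ℝ) : UnitAddCircle)
  obtain ⟨y, hy⟩ := hs (n + k) 0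
  have h3 := dist_coe_le (l x) (l y)
  rw [h1, h1, hx, hy, dist_zero_right, AddCircle.norm_half_period_eq, abs_one] at h3
  linarith [h2 x y]

theorem base_of_tower {M : Type} [MetricSpace M] {p : ℕ → ℕ} (hp : ∀ n, 2 ≤ p n)
    {P : ℕ → M → UnitAddCircle} (hP : ∀ n, Continuous (P n))
    (hs : ∀ n, Function.Surjective (P n)) (ht : ∀ n x, p n • P (n + 1) x = P n x)
    (hinj : ∀ a b, (∀ n, P n a = P n b) → a = b) : Base M := by
  intro X Y _ _ _ _ _ _ f h hf hfs hh hhs
  choose K hK1 hK2 hK3 hK4 using fun n => ess_amalgam ((hP n).comp hf) ((hP n).comp hh)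
    (ess_of_tower hp (φ := fun n => P n ∘ f) (fun n => (hP n).comp hf)
      (fun n => (hs n).comp hfs) (fun n x => ht n _) n)
    (ess_of_tower hp (φ := fun n => P n ∘ h) (fun n => (hP n).comp hh)
      (fun n => (hs n).comp hhs) (fun n x => ht n _) n)
  have hdown : ∀ a b m n, m ≤ n → P n a = P n b → P m a = P m b := by
    intro a b m n hmn
    induction n, hmn using Nat.le_induction with
    | base => exact id
    | succ n _ ih => exact fun h => ih (by rw [← ht, h, ht])
  obtain ⟨L, h1, h2, h3, h4, h5⟩ := amalgam K (fun n => (hK1 n).nonempty)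
    (fun δ hδ => Eventually.of_forall fun n a ha b hb =>
      ch_of_preconnected hδ (hK1 n).isPreconnected Subset.rfl ha hb)
    (fun δ hδ x => Eventually.of_forall fun n => by
      obtain ⟨c, hc, hx⟩ := (hK2 n ▸ mem_univ x : x ∈ Prod.fst '' K n)
      exact ⟨c, hc, by rwa [hx, dist_self]⟩)
    (fun δ hδ y => Eventually.of_forall fun n => by
      obtain ⟨c, hc, hy⟩ := (hK3 n ▸ mem_univ y : y ∈ Prod.snd '' K n)
      exact ⟨c, hc, by rwa [hy, dist_self]⟩)
  refine ⟨L, h1, h2, h3, h4, fun z hz => hinj _ _ fun m => dist_le_zero.1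
    (h5 (fun z => dist (P m (f z.1)) (P m (h z.2))) (by have := hP m; fun_prop)
      (fun δ hδ => ?_) z hz)⟩
  filter_upwards [eventually_ge_atTop m] with n hn c hc
  rwa [hdown _ _ m n hn (hK4 n c hc), dist_self]

/-- the solenoid of the sequence `p` -/
abbrev Sol (p : ℕ → ℕ) : Type := {z : ℕ → UnitAddCircle // ∀ n, p n • z (n + 1) = z n}

/-- the one-parameter subgroup of the solenoid -/
noncomputable def line {p : ℕ → ℕ} (hp : ∀ n, 2 ≤ p n) (t : ℝ) : Sol p :=
  ⟨fun n => ((t / ∏ i ∈ Finset.range n, (p i : ℝ) : ℝ) : UnitAddCircle), fun n => by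
    simp only [Finset.prod_range_succ, ← div_div, nsmul_coe_div (hp n)]⟩

lemma line_eq {p : ℕ → ℕ} (hp : ∀ n, 2 ≤ p n) (n : ℕ) (t : UnitAddCircle) :
    ∃ a, (line hp a).1 n = t := by
  obtain ⟨a, ha, -⟩ := exists_near_lift 0 t
  have h : ∏ i ∈ Finset.range n, (p i : ℝ) ≠ 0 := Finset.prod_ne_zero_iff.2 fun i _ => by
    have := hp i
    positivity
  exact ⟨a * ∏ i ∈ Finset.range n, (p i : ℝ), by simp only [line, mul_div_cancel_right₀ _ h, ha]⟩

lemma compactSpace_sol (p : ℕ → ℕ) : CompactSpace (Sol p) := by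
  refine isCompact_iff_compactSpace.1 (IsClosed.isCompact
    (s := {z : ℕ → UnitAddCircle | ∀ n, p n • z (n + 1) = z n}) ?_)
  simp only [ofPred_forall]
  exact isClosed_iInter fun n => isClosed_eq (by fun_prop) (by fun_prop)

lemma connectedSpace_sol {p : ℕ → ℕ} (hp : ∀ n, 2 ≤ p n) : ConnectedSpace (Sol p) := by
  have hc : Continuous (line hp) := Continuous.subtype_mk (continuous_pi fun n =>
    continuous_quotient_mk'.comp (continuous_id.div_const _)) _
  have : Nonempty (Sol p) := ⟨line hp 0⟩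
  suffices h : DenseRange (line hp) by
    have := h.preconnectedSpace hc
    exact ⟨inferInstance⟩
  intro z
  choose a ha using fun n => line_eq hp n (z.1 n)
  refine mem_closure_of_tendsto (b := atTop) (f := fun n => line hp (a n)) ?_
    (Eventually.of_forall fun n => mem_range_self _)
  refine tendsto_subtype_rng.2 (tendsto_pi_nhds.2 fun m => tendsto_const_nhds.congr' ?_)
  filter_upwards [eventually_ge_atTop m] with n hn
  have key : ∀ (w : Sol p) n, m ≤ n → z.1 n = w.1 n → z.1 m = w.1 m := by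
    intro w n hmn
    induction n, hmn using Nat.le_induction with
    | base => exact id
    | succ n _ ih => exact fun h => ih (by rw [← z.2, h, w.2])
  exact key _ n hn (ha n).symm

theorem base_sol {p : ℕ → ℕ} (hp : ∀ n, 2 ≤ p n) {M : Type} [MetricSpace M] (e : M ≃ₜ Sol p) :
    Base M :=
  base_of_tower hp (P := fun n m => (e m).1 n) 
    (fun n => (continuous_apply n).comp (continuous_subtype_val.comp e.continuous))
    (fun n t => by
      obtain ⟨a, ha⟩ := line_eq hp n t
      exact ⟨e.symm (line hp a), by simpa using ha⟩)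
    (fun n m => (e m).2 n) fun a b h => e.injective (Subtype.ext (funext h))

theorem dodge_sol {p : ℕ → ℕ} (hp : ∀ n, 2 ≤ p n) :
    ∃ Z : Set (Sol p × Sol p), IsCompact Z ∧ IsConnected Z ∧ Prod.fst '' Z = univ ∧
      Prod.snd '' Z = univ ∧ ∀ q ∈ Z, q.1 ≠ q.2 := by
  have := compactSpace_sol p
  have := connectedSpace_sol hp
  obtain ⟨a, ha⟩ := line_eq hp 0 ((1 / 2 : ℝ) : UnitAddCircle)
  let c := line hp a
  let τ : Sol p → Sol p := fun z => ⟨z.1 + c.1, fun n => by
    simp only [Pi.add_apply, smul_add, z.2, c.2]⟩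
  have hτ : Continuous fun z => (z, τ z) :=
    continuous_id.prodMk (Continuous.subtype_mk (by fun_prop) _)
  refine ⟨range fun z => (z, τ z), isCompact_range hτ, isConnected_range hτ,
    eq_univ_of_forall fun z => ⟨_, ⟨z, rfl⟩, rfl⟩, eq_univ_of_forall fun z => ⟨_,
      ⟨⟨z.1 - c.1, fun n => by simp only [Pi.sub_apply, smul_sub, z.2, c.2]⟩, rfl⟩,
      Subtype.ext (sub_add_cancel _ _)⟩, ?_⟩
  rintro _ ⟨z, rfl⟩ h
  have h1 : z.1 0 = z.1 0 + c.1 0 := congrArg (fun w : Sol p => w.1 0) h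
  have h2 : ‖((1 / 2 : ℝ) : UnitAddCircle)‖ = 0 := by
    rw [← ha, norm_eq_zero]
    exact left_eq_add.1 h1
  rw [AddCircle.norm_half_period_eq] at h2
  norm_num at h2

end Pool.Agent.P.MP_3ef9ff_gt
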