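import Pool.Agent.P.MP_3ef9ff_gt.Chain

/-!
Span zero implies weak confluence of maps onto subcontinua, hence semispan zero.
-/

set_option autoImplicit false

open Set Metric Filter Topology

namespace Pool.Agent.P.MP_3ef9ff_gt

variable {E M : Type*} [MetricSpace E] [MetricSpace M]

/-- Span zero. -/
def SpanZero (M : Type*) [MetricSpace M] : Prop :=
  ∀ Z : Set (M × M), IsCompact Z → IsConnected Z →
    Prod.fst '' Z = Prod.snd '' Z → ∃ p ∈ Z, p.1 = p.2

/-- A compact subset of a product with connected fibres over a connected set is connected. -/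
lemma isPreconnected_of_fibres {Z : Set E} (hZ : IsPreconnected Z) {W : Set (E × M)}
    (hW : IsCompact W) (hsub : ∀ p ∈ W, p.1 ∈ Z)
    (hfib : ∀ z ∈ Z, IsConnected {b | (z, b) ∈ W}) : IsPreconnected W := by
  rw [isPreconnected_closed_iff]
  intro P Q hP hQ hcov hWP hWQ
  have hP' : IsClosed (Prod.fst '' (W ∩ P)) :=
    ((hW.inter_right hP).image continuous_fst).isClosed
  have hQ' : IsClosed (Prod.fst '' (W ∩ Q)) :=
    ((hW.inter_right hQ).image continuous_fst).isClosed
  have hcov' : Z ⊆ Prod.fst '' (W ∩ P) ∪ Prod.fst '' (W ∩ Q) := by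
    intro z hz
    obtain ⟨b, hb⟩ := (hfib z hz).nonempty
    rcases hcov hb with h | h
    · exact Or.inl ⟨(z, b), ⟨hb, h⟩, rfl⟩
    · exact Or.inr ⟨(z, b), ⟨hb, h⟩, rfl⟩
  obtain ⟨p, hp⟩ := hWP
  obtain ⟨q, hq⟩ := hWQ
  obtain ⟨z, hz, ⟨p', hp', rfl⟩, ⟨q', hq', hq'z⟩⟩ := isPreconnected_closed_iff.1 hZ _ _ hP' hQ' hcov'
    ⟨p.1, hsub p hp.1, p, hp, rfl⟩ ⟨q.1, hsub q hq.1, q, hq, rfl⟩
  have hc : Continuous fun b : M => (p'.1, b) := by fun_prop
  obtain ⟨b, hb, hbP, hbQ⟩ := isPreconnected_closed_iff.1 (hfib p'.1 hz).isPreconnected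
    _ _ (hP.preimage hc) (hQ.preimage hc) (fun b hb => hcov hb)
    ⟨p'.2, hp'.1, hp'.2⟩ ⟨q'.2, by rw [← hq'z]; exact hq'.1, by
      rw [mem_preimage, ← hq'z]; exact hq'.2⟩
  exact ⟨(p'.1, b), hb, hbP, hbQ⟩

/-- Maps into a span zero space are weakly confluent onto their image. -/
lemma weakly_confluent (hM : SpanZero M) {Z : Set E} (hZc : IsCompact Z) (hZ : IsConnected Z)
    {g : E → M} (hg : Continuous g) {B : Set M} (hBc : IsCompact B) (hB : IsConnected B)
    (hBZ : B ⊆ g '' Z) :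
    ∃ D ⊆ Z, IsCompact D ∧ IsConnected D ∧ g '' D = B := by
  classical
  set K : Set E := Z ∩ g ⁻¹' B with hKdef
  have hK : IsCompact K := hZc.inter_right (hBc.isClosed.preimage hg)
  by_contra hcon
  have hcomp : ∀ y ∈ K, ∃ b ∈ B, b ∉ g '' connectedComponentIn K y := by
    intro y hy
    by_contra h
    push Not at h
    apply hcon
    refine ⟨connectedComponentIn K y, (connectedComponentIn_subset K y).trans inter_subset_left,
      ?_, isConnected_connectedComponentIn_iff.2 hy, ?_⟩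
    · have : CompactSpace K := isCompact_iff_compactSpace.1 hK
      rw [connectedComponentIn_eq_image hy]
      exact isClosed_connectedComponent.isCompact.image continuous_subtype_val
    · refine Subset.antisymm ?_ h
      rintro _ ⟨z, hz, rfl⟩
      exact (connectedComponentIn_subset K y hz).2
  obtain ⟨δ, hδ, hU⟩ := uniform_chain hK hg hcomp
  -- the classes
  set cl : E → Set E := fun y => {z | Ch δ K y z} with hcl
  have cl_eq : ∀ {y y'}, Ch δ K y y' → cl y = cl y' := by
    intro y y' h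
    ext z
    exact ⟨fun hz => h.symm.trans hz, fun hz => h.trans hz⟩
  -- two incomparable classes
  have hinc : ∃ y ∈ K, ∃ y' ∈ K, g y ∉ g '' cl y' ∧ g y' ∉ g '' cl y := by
    by_contra hall
    push Not at hall
    have hcomp' : ∀ y ∈ K, ∀ y' ∈ K, g '' cl y ⊆ g '' cl y' ∨ g '' cl y' ⊆ g '' cl y := by
      intro y hy y' hy'
      by_contra hn
      rw [not_or, not_subset, not_subset] at hn
      obtain ⟨⟨_, ⟨z, hz, rfl⟩, hz'⟩, ⟨_, ⟨w, hw, rfl⟩, hw'⟩⟩ := hn
      have h1 := hall z (Ch.mem hz hy) w (Ch.mem hw hy') (by rwa [← cl_eq hw])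
      rw [← cl_eq hz] at h1
      exact hw' h1
    obtain ⟨t, htK, ht⟩ := hK.elim_nhds_subcover (fun y => ball y δ)
      (fun y _ => ball_mem_nhds y hδ)
    obtain ⟨b0, hb0⟩ := hB.nonempty
    obtain ⟨z0, hz0, rfl⟩ := hBZ hb0
    obtain ⟨w0, hw0, -⟩ := mem_iUnion₂.1 (ht (⟨hz0, hb0⟩ : z0 ∈ K))
    obtain ⟨S, hS⟩ := (t.image fun y => g '' cl y).exists_maximal
      ⟨_, Finset.mem_image_of_mem _ hw0⟩
    obtain ⟨y, hy, rfl⟩ := Finset.mem_image.1 hS.prop
    obtain ⟨b, hb, hb'⟩ := hU y (htK y hy)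
    obtain ⟨z, hz, rfl⟩ := hBZ hb
    have hzK : z ∈ K := ⟨hz, hb⟩
    obtain ⟨w, hw, hzw⟩ := mem_iUnion₂.1 (ht hzK)
    have hzw' : z ∈ cl w := Ch.single ⟨htK w hw, hzK, by rw [dist_comm]; exact hzw⟩
    have hsub : g '' cl w ⊆ g '' cl y := by
      rcases hcomp' w (htK w hw) y (htK y hy) with h | h
      · exact h
      · exact hS.le_of_ge (Finset.mem_image_of_mem _ hw) h
    obtain ⟨z', hz', hgz⟩ := hsub ⟨z, hzw', rfl⟩
    have := hb' z' hz'
    rw [hgz, dist_self] at this
    exact absurd this (not_le.2 hδ)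
  obtain ⟨y, hy, y', hy', hyy', hy'y⟩ := hinc
  -- a choice of a missed point for every class
  have hchoice : ∀ C : Set E, ∃ b, (∃ y ∈ K, C = cl y) → b ∈ B ∧ b ∉ g '' C := by
    intro C
    by_cases h : ∃ y ∈ K, C = cl y
    · obtain ⟨w, hw, rfl⟩ := h
      obtain ⟨b, hb, hb'⟩ := hU w hw
      refine ⟨b, fun _ => ⟨hb, ?_⟩⟩
      rintro ⟨z, hz, rfl⟩
      have := hb' z hz
      rw [dist_self] at this
      exact absurd this (not_le.2 hδ)
    · exact ⟨g y, fun h' => absurd h' h⟩
  choose γ hγ using hchoice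
  set γ' : Set E → M := fun C => if C = cl y then g y' else if C = cl y' then g y else γ C
    with hγ'
  set β : E → M := fun k => γ' (cl k) with hβ
  have hβB : ∀ k ∈ K, β k ∈ B ∧ β k ∉ g '' cl k := by
    intro k hk
    simp only [hβ, hγ']
    split_ifs with h1 h2
    · exact ⟨hy'.2, by rwa [h1]⟩
    · exact ⟨hy.2, by rwa [h2]⟩
    · exact hγ _ ⟨k, hk, rfl⟩
  have hβy : β y = g y' := by simp [hβ, hγ']
  have hne : cl y' ≠ cl y := fun h => hy'y ⟨y', by rw [← h]; exact Ch.refl _ _ _, rfl⟩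
  have hβy' : β y' = g y := by simp [hβ, hγ', hne]
  have hβeq : ∀ k ∈ K, ∀ k' ∈ K, dist k k' < δ → β k = β k' := by
    intro k hk k' hk' h
    simp only [hβ]
    rw [cl_eq (Ch.single ⟨hk, hk', h⟩)]
  -- the connected set over `Z`
  set W : Set (E × M) := (Z ×ˢ B) ∩ {p | ∀ k ∈ K, dist p.1 k < δ / 2 → p.2 = β k} with hW
  have hWc : IsCompact W := by
    refine (hZc.prod hBc).inter_right ?_
    have h1 : {p : E × M | ∀ k ∈ K, dist p.1 k < δ / 2 → p.2 = β k} =
        ⋂ k ∈ K, ({p : E × M | δ / 2 ≤ dist p.1 k} ∪ {p : E × M | p.2 = β k}) := by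
      ext p
      simp only [mem_ofPred_eq, mem_union, mem_iInter]
      constructor
      · intro h k hk
        by_cases h' : δ / 2 ≤ dist p.1 k
        · exact Or.inl h'
        · exact Or.inr (h k hk (not_le.1 h'))
      · intro h k hk h'
        rcases h k hk with h | h
        · exact absurd h (not_le.2 h')
        · exact h
    rw [h1]
    exact isClosed_biInter fun k _ => (isClosed_le continuous_const (by fun_prop)).union
        (isClosed_eq continuous_snd continuous_const)
  have hWk : ∀ k ∈ K, ∀ z ∈ Z, dist z k < δ / 2 → (z, β k) ∈ W := by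
    intro k hk z hz hzk
    refine ⟨⟨hz, (hβB k hk).1⟩, fun k' hk' hzk' => hβeq k hk k' hk' ?_⟩
    calc dist k k' ≤ dist z k + dist z k' := dist_triangle_left _ _ _
      _ < δ / 2 + δ / 2 := add_lt_add hzk hzk'
      _ = δ := add_halves δ
  have hWconn : IsPreconnected W := by
    refine isPreconnected_of_fibres hZ.isPreconnected hWc (fun p hp => hp.1.1) ?_
    intro z hz
    by_cases h : ∃ k ∈ K, dist z k < δ / 2
    · obtain ⟨k, hk, hzk⟩ := h
      have : {b | (z, b) ∈ W} = {β k} := by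
        ext b
        constructor
        · intro hb
          exact hb.2 k hk hzk
        · rintro rfl
          exact hWk k hk z hz hzk
      rw [this]
      exact isConnected_singleton
    · have : {b | (z, b) ∈ W} = B := by
        ext b
        constructor
        · intro hb
          exact hb.1.2
        · intro hb
          exact ⟨⟨hz, hb⟩, fun k hk hzk => absurd ⟨k, hk, hzk⟩ h⟩
      rw [this]
      exact hB
  have hWoff : ∀ p ∈ W, g p.1 ≠ p.2 := by
    intro p hp h
    have hpK : p.1 ∈ K := ⟨hp.1.1, by rw [mem_preimage, h]; exact hp.1.2⟩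
    have h1 := hp.2 p.1 hpK (by rw [dist_self]; exact half_pos hδ)
    exact (hβB p.1 hpK).2 ⟨p.1, Ch.refl _ _ _, by rw [h, h1]⟩
  set φ : E × M → M × M := fun p => (g p.1, p.2) with hφ
  have hφc : Continuous φ := by fun_prop
  set W1 : Set (M × M) := φ '' W with hW1
  have h1 : (g y, g y') ∈ W1 :=
    ⟨(y, β y), hWk y hy y hy.1 (by rw [dist_self]; exact half_pos hδ), by simp [hφ, hβy]⟩
  have h2 : (g y', g y) ∈ W1 :=
    ⟨(y', β y'), hWk y' hy' y' hy'.1 (by rw [dist_self]; exact half_pos hδ), by simp [hφ, hβy']⟩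
  have hW1c : IsCompact W1 := hWc.image hφc
  have hW1conn : IsPreconnected W1 := hWconn.image _ hφc.continuousOn
  obtain ⟨p, hp, hpp⟩ := hM (W1 ∪ Prod.swap '' W1)
    (hW1c.union (hW1c.image continuous_swap))
    ⟨⟨_, Or.inl h1⟩, IsPreconnected.union (g y, g y') h1 ⟨_, h2, rfl⟩ hW1conn
      (hW1conn.image _ continuous_swap.continuousOn)⟩
    (by
      simp only [image_union, image_image, Prod.fst_swap, Prod.snd_swap]
      exact union_comm _ _)
  rcases hp with ⟨q, hq, rfl⟩ | ⟨_, ⟨q, hq, rfl⟩, rfl⟩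
  · exact hWoff q hq hpp
  · exact hWoff q hq hpp.symm

lemma isPreconnected_iInter_of_antitone {Z : ℕ → Set E} (hanti : Antitone Z)
    (hc : ∀ n, IsCompact (Z n)) (hconn : ∀ n, IsPreconnected (Z n)) :
    IsPreconnected (⋂ n, Z n) := by
  have hcl : IsClosed (⋂ n, Z n) := isClosed_iInter fun n => (hc n).isClosed
  rw [isPreconnected_iff_subset_of_fully_disjoint_closed hcl]
  intro P Q hP hQ hcov hPQ
  obtain ⟨U, V, hU, hV, hPU, hQV, hUV⟩ := normal_separation hP hQ hPQ
  have hdir : Directed (· ⊇ ·) Z := directed_of_isDirected_le fun _ _ h => hanti h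
  obtain ⟨n, hn⟩ := ((hc 0).diff (hU.union hV)).elim_directed_family_closed Z
    (fun n => (hc n).isClosed) (by
      ext x
      simp only [mem_inter_iff, Set.mem_sdiff, mem_empty_iff_false, iff_false, not_and]
      intro hx hx'
      apply hx.2
      rcases hcov hx' with h | h
      · exact Or.inl (hPU h)
      · exact Or.inr (hQV h)) hdir
  have hsub : Z n ⊆ U ∪ V := by
    intro x hx
    by_contra h
    have : x ∈ (Z 0 \ (U ∪ V)) ∩ Z n := ⟨⟨hanti (Nat.zero_le n) hx, h⟩, hx⟩
    rw [hn] at this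
    exact this
  rcases (hconn n).subset_or_subset hU hV hUV hsub with h | h
  · left
    intro x hx
    rcases hcov hx with h' | h'
    · exact h'
    · exact absurd (h (mem_iInter.1 hx n)) (Set.disjoint_right.1 hUV (hQV h'))
  · right
    intro x hx
    rcases hcov hx with h' | h'
    · exact absurd (h (mem_iInter.1 hx n)) (Set.disjoint_left.1 hUV (hPU h'))
    · exact h'

lemma image_iInter_of_antitone {Z : ℕ → Set E} (hanti : Antitone Z)
    (hc : ∀ n, IsCompact (Z n)) {g : E → M} (hg : Continuous g) :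
    g '' (⋂ n, Z n) = ⋂ n, g '' Z n := by
  refine Subset.antisymm (subset_iInter fun n => image_mono (iInter_subset _ n)) ?_
  intro b hb
  have h := IsCompact.nonempty_iInter_of_sequence_nonempty_isCompact_isClosed
    (fun n => Z n ∩ g ⁻¹' {b}) (fun n => inter_subset_inter_left _ (hanti (Nat.le_succ n)))
    (fun n => by
      obtain ⟨z, hz, hzb⟩ := mem_iInter.1 hb n
      exact ⟨z, hz, hzb⟩)
    ((hc 0).inter_right (isClosed_singleton.preimage hg))
    (fun n => (hc n).isClosed.inter (isClosed_singleton.preimage hg))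
  obtain ⟨z, hz⟩ := h
  exact ⟨z, mem_iInter.2 fun n => (mem_iInter.1 hz n).1, (mem_iInter.1 hz 0).2⟩

/-- Span zero implies semispan zero. -/
lemma semispan_zero (hM : SpanZero M) {Z : Set (M × M)} (hZc : IsCompact Z) (hZ : IsConnected Z)
    (hsub : Prod.snd '' Z ⊆ Prod.fst '' Z) : ∃ p ∈ Z, p.1 = p.2 := by
  let T := {Z : Set (M × M) // IsCompact Z ∧ IsConnected Z ∧ Prod.snd '' Z ⊆ Prod.fst '' Z}
  have hstep : ∀ S : T, ∃ S' : T, S'.1 ⊆ S.1 ∧ Prod.fst '' S'.1 = Prod.snd '' S.1 := by
    rintro ⟨S, hSc, hS, hSs⟩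
    obtain ⟨D, hD, hDc, hDconn, hDim⟩ := weakly_confluent hM hSc hS continuous_fst
      (hSc.image continuous_snd) (hS.image _ continuous_snd.continuousOn) hSs
    exact ⟨⟨D, hDc, hDconn, by rw [hDim]; exact image_mono hD⟩, hD, hDim⟩
  choose nxt hnxt using hstep
  let seq : ℕ → T := fun n => nxt^[n] ⟨Z, hZc, hZ, hsub⟩
  have hseq : ∀ n, seq (n + 1) = nxt (seq n) := fun n => Function.iterate_succ_apply' _ _ _
  let Zs : ℕ → Set (M × M) := fun n => (seq n).1
  have hanti : Antitone Zs := antitone_nat_of_succ_le fun n => by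
    simp only [Zs, hseq]
    exact (hnxt _).1
  have hc : ∀ n, IsCompact (Zs n) := fun n => (seq n).2.1
  have hne : (⋂ n, Zs n).Nonempty :=
    IsCompact.nonempty_iInter_of_sequence_nonempty_isCompact_isClosed Zs
      (fun n => hanti (Nat.le_succ n)) (fun n => (seq n).2.2.1.nonempty) (hc 0)
      (fun n => (hc n).isClosed)
  obtain ⟨p, hp, hpp⟩ := hM (⋂ n, Zs n)
    ((hc 0).of_isClosed_subset (isClosed_iInter fun n => (hc n).isClosed) (iInter_subset _ 0))
    ⟨hne, isPreconnected_iInter_of_antitone hanti hc fun n => (seq n).2.2.1.isPreconnected⟩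
    (by
      rw [image_iInter_of_antitone hanti hc continuous_fst,
        image_iInter_of_antitone hanti hc continuous_snd]
      refine Subset.antisymm (subset_iInter fun n => (iInter_subset _ (n + 1)).trans ?_)
        (iInter_mono fun n => (seq n).2.2.2)
      simp only [Zs, hseq]
      exact (hnxt _).2.subset)
  exact ⟨p, mem_iInter.1 hp 0, hpp⟩

/-- Far chains cannot be dense in either coordinate. -/
lemma no_dense_far_chain [CompactSpace M] (hM : SpanZero M) {K : Set (M × M)} (hK : IsClosed K)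
    (hoff : ∀ p ∈ K, p.1 ≠ p.2) :
    ∃ δ > 0, ∀ y ∈ K, ∃ m1 m2 : M, ∀ z, Ch δ K y z → δ ≤ dist z.1 m1 ∧ δ ≤ dist z.2 m2 := by
  have hKc : IsCompact K := hK.isCompact
  have hcc : ∀ y ∈ K, IsCompact (connectedComponentIn K y) := by
    intro y hy
    have : CompactSpace K := isCompact_iff_compactSpace.1 hKc
    rw [connectedComponentIn_eq_image hy]
    exact isClosed_connectedComponent.isCompact.image continuous_subtype_val
  have h1 : ∀ y ∈ K, ∃ b ∈ (univ : Set M), b ∉ Prod.fst '' connectedComponentIn K y := by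
    intro y hy
    by_contra h
    push Not at h
    obtain ⟨p, hp, hpp⟩ := semispan_zero hM (hcc y hy) (isConnected_connectedComponentIn_iff.2 hy)
      (fun b _ => h b trivial)
    exact hoff p (connectedComponentIn_subset K y hp) hpp
  have h2 : ∀ y ∈ K, ∃ b ∈ (univ : Set M), b ∉ Prod.snd '' connectedComponentIn K y := by
    intro y hy
    by_contra h
    push Not at h
    obtain ⟨_, ⟨p, hp, rfl⟩, hpp⟩ := semispan_zero hM ((hcc y hy).image continuous_swap)
      ((isConnected_connectedComponentIn_iff.2 hy).image _ continuous_swap.continuousOn)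
      (fun b _ => by
        rw [image_image]
        exact h b trivial)
    exact hoff p (connectedComponentIn_subset K y hp) hpp.symm
  obtain ⟨δ1, hδ1, H1⟩ := uniform_chain hKc continuous_fst h1
  obtain ⟨δ2, hδ2, H2⟩ := uniform_chain hKc continuous_snd h2
  refine ⟨min δ1 δ2, lt_min hδ1 hδ2, fun y hy => ?_⟩
  obtain ⟨m1, -, hm1⟩ := H1 y hy
  obtain ⟨m2, -, hm2⟩ := H2 y hy
  exact ⟨m1, m2, fun z hz => ⟨(min_le_left _ _).trans (hm1 z (hz.mono (min_le_left _ _))),
    (min_le_right _ _).trans (hm2 z (hz.mono (min_le_right _ _)))⟩⟩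

end Pool.Agent.P.MP_3ef9ff_gt
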