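import Mathlib

/-!
Chainable and weakly chainable continua.
-/

set_option autoImplicit false

namespace Pool.Agent.P.MP_3ef9ff_gt

/-- `X` is chainable (arc-like): it has real valued maps with arbitrarily small fibres. -/
def Chainable (X : Type) [MetricSpace X] : Prop :=
  ∀ ε > 0, ∃ g : X → ℝ, Continuous g ∧ ∀ x y, g x = g y → dist x y < ε

/-- `M` is weakly chainable: it is a continuous image of a chainable continuum. -/
def WeaklyChainable (M : Type) [MetricSpace M] : Prop :=
  ∃ (X : Type) (_ : MetricSpace X) (_ : CompactSpace X) (_ : ConnectedSpace X),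
    Chainable X ∧ ∃ f : X → M, Continuous f ∧ Function.Surjective f

end Pool.Agent.P.MP_3ef9ff_gt
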