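import Pool.Agent.P.MP_3ef9ff_gt.Fwd
import Pool.Agent.P.MP_3ef9ff_gt.Key
import Pool.Agent.P.MP_3ef9ff_gt.WCDefs

/-!
A weakly chainable amalgamation base has surjective semispan zero, and maps onto an
amalgamation base are weakly confluent.
-/

set_option autoImplicit false

open Set Metric Filter Topology Relation

namespace Pool.Agent.P.MP_3ef9ff_gt

theorem semi_of_base {M : Type} [MetricSpace M] [CompactSpace M] [ConnectedSpace M] (hM : Base M)
    (hW : WeaklyChainable M) {Z : Set (M × M)} (hZ : IsCompact Z) (hZc : IsConnected Z)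
    (hZ1 : Prod.fst '' Z = univ) : ∃ p ∈ Z, p.1 = p.2 := by
  by_contra hcon
  push Not at hcon
  obtain ⟨X, _, _, _, hX, f, hf, hfs⟩ := hW
  have : CompactSpace Z := isCompact_iff_compactSpace.1 hZ
  have : ConnectedSpace Z := isConnected_iff_connectedSpace.1 hZc
  obtain ⟨z0, -, hz0⟩ := (isCompact_univ (X := Z)).exists_isMinOn univ_nonempty
    (f := fun z : Z => dist z.1.1 z.1.2) (by fun_prop)
  obtain ⟨ε, hε, hε'⟩ := Metric.uniformContinuous_iff.1
    (CompactSpace.uniformContinuous_of_continuous hf) _ (dist_pos.2 (hcon _ z0.2))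
  obtain ⟨g, hg, hg'⟩ := hX ε hε
  obtain ⟨K, hK, hKc, hK1, -, hK3⟩ := hM X Z f (fun z => z.1.1) hf hfs (by fun_prop) fun m => by
    obtain ⟨z, hz, hzm⟩ := (hZ1 ▸ mem_univ m : m ∈ Prod.fst '' Z)
    exact ⟨⟨z, hz⟩, hzm⟩
  obtain ⟨x1, -, hx1⟩ := (isCompact_univ (X := X)).exists_isMaxOn univ_nonempty hg.continuousOn
  obtain ⟨x0, -, hx0⟩ := (isCompact_univ (X := X)).exists_isMinOn univ_nonempty hg.continuousOn
  obtain ⟨k1, hk1, hk1'⟩ := (hK1 ▸ mem_univ x1 : x1 ∈ Prod.fst '' K)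
  obtain ⟨k0, hk0, hk0'⟩ := (hK1 ▸ mem_univ x0 : x0 ∈ Prod.fst '' K)
  let A : Set ((X × Z) × M) := (fun k => (k, k.2.1.2)) '' K
  let B : Set ((X × Z) × M) := range fun m => (k1, m)
  have hA : IsCompact A := hK.image (by fun_prop)
  have hB : IsCompact B := isCompact_range (by fun_prop)
  have : CompactSpace ↥(A ∪ B) := isCompact_iff_compactSpace.1 (hA.union hB)
  have : ConnectedSpace ↥(A ∪ B) := isConnected_iff_connectedSpace.1
    (IsConnected.union ⟨(k1, k1.2.1.2), ⟨k1, hk1, rfl⟩, _, rfl⟩ (hKc.image _ (by fun_prop))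
      (isConnected_range (by fun_prop)))
  obtain ⟨L, -, hLc, -, hL2, hL3⟩ := hM X ↥(A ∪ B) f (fun w => w.1.2) hf hfs (by fun_prop)
    fun m => ⟨⟨(k1, m), Or.inr ⟨m, rfl⟩⟩, rfl⟩
  have hne : ∀ l ∈ L, l.2.1 ∈ A → g l.2.1.1.1 ≠ g l.1 := by
    rintro l hl ⟨k, hk, hkl⟩ h
    have h1 := hε' (hg' _ _ h)
    rw [hL3 l hl, ← hkl, hK3 k hk] at h1
    exact absurd (hz0 (mem_univ k.2)) (not_le.2 h1)
  obtain ⟨l0, hl0, hl0'⟩ := (hL2 ▸ mem_univ _ :
    (⟨(k0, k0.2.1.2), Or.inl ⟨k0, hk0, rfl⟩⟩ : ↥(A ∪ B)) ∈ Prod.snd '' L)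
  obtain ⟨l1, hl1, hl1'⟩ := (hL2 ▸ mem_univ _ :
    (⟨(k1, k1.2.1.2), Or.inl ⟨k1, hk1, rfl⟩⟩ : ↥(A ∪ B)) ∈ Prod.snd '' L)
  obtain ⟨l, hl, ⟨h1, h2⟩, h3⟩ := isPreconnected_closed_iff.1 hLc.isPreconnected
    ({l | l.2.1 ∈ A} ∩ {l | g l.2.1.1.1 ≤ g l.1}) {l | g l.1 ≤ g l.2.1.1.1}
    ((hA.isClosed.preimage (by fun_prop)).inter (isClosed_le (by fun_prop) (by fun_prop)))
    (isClosed_le (by fun_prop) (by fun_prop))
    (fun l _ => by
      rcases l.2.2 with h | ⟨m, h⟩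
      · rcases le_total (g l.2.1.1.1) (g l.1) with h' | h'
        exacts [Or.inl ⟨h, h'⟩, Or.inr h']
      · refine Or.inr ?_
        rw [mem_ofPred_eq, ← h, hk1']
        exact hx1 (mem_univ _))
    ⟨l0, hl0, by rw [mem_ofPred_eq, hl0']; exact ⟨k0, hk0, rfl⟩, by
      rw [mem_ofPred_eq, hl0', hk0']; exact hx0 (mem_univ _)⟩
    ⟨l1, hl1, by rw [mem_ofPred_eq, hl1', hk1']; exact hx1 (mem_univ _)⟩
  exact hne l hl h1 (le_antisymm h2 h3)

lemma Re.last {M X : Type*} [MetricSpace M] [MetricSpace X] {f : X → M} {m : ℕ → M} {ε : ℝ}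
    {I : Set ℕ} {v w : X × ℕ} (h : Re f m ε I v w) {c : ℕ} (hc : v.2 < c) :
    w.2 < c ∨ ∃ x, Vx f m ε (Ici c) (x, c) ∧ Re f m ε (Ici c) (x, c) w := by
  induction h with
  | refl => exact Or.inl hc
  | @tail a b _ hab ih =>
    by_cases hb : b.2 < c
    · exact Or.inl hb
    have hb' : Vx f m ε (Ici c) b := ⟨not_lt.1 hb, hab.2.1.2⟩
    rcases ih with ha | ⟨x, hx, hx'⟩
    · have h1 := hab.2.2.2.2
      obtain rfl : c = b.2 := by omega
      exact Or.inr ⟨b.1, hb', ReflTransGen.refl⟩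
    · exact Or.inr ⟨x, hx, hx'.trans (Re.single ⟨hx'.vx hx, hb', hab.2.2⟩)⟩

lemma exists_fine_walk (X : Type*) [MetricSpace X] [CompactSpace X] [ConnectedSpace X] {δ : ℝ}
    (hδ : 0 < δ) : ∃ (a : ℕ → X) (L : ℕ), (∀ k, dist (a k) (a (k + 1)) < δ) ∧
      ∀ y, ∃ k ≤ L, dist (a k) y < δ := by
  obtain ⟨x, hx, hxd⟩ := exists_dense_walk X
  obtain ⟨K, hK⟩ := eventually_atTop.1 (hx.eventually (gt_mem_nhds hδ))
  obtain ⟨L, hL⟩ := dense_block hxd hδ K
  refine ⟨fun k => x (K + k), L, fun k => hK _ (Nat.le_add_right K k), fun y => ?_⟩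
  obtain ⟨i, h1, h2, h3⟩ := hL y
  exact ⟨i - K, by omega, by simpa only [Nat.add_sub_cancel' h1] using h3⟩

theorem confluent_of_base {M X : Type} [MetricSpace M] [CompactSpace M] [ConnectedSpace M]
    [MetricSpace X] [CompactSpace X] [ConnectedSpace X] (hM : Base M) {f : X → M}
    (hf : Continuous f) (hfs : Function.Surjective f) {N : Set M} (hN : IsCompact N)
    (hNc : IsConnected N) : ∃ D : Set X, IsCompact D ∧ IsConnected D ∧ f '' D = N := by
  have : CompactSpace N := isCompact_iff_compactSpace.1 hN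
  have : ConnectedSpace N := isConnected_iff_connectedSpace.1 hNc
  have key : ∀ ε > 0, ∃ C : Set X, C.Nonempty ∧ (∀ a ∈ C, ∀ b ∈ C, Ch ε C a b) ∧
      (∀ c ∈ C, ∃ y ∈ N, dist (f c) y < ε) ∧ ∀ y ∈ N, ∃ c ∈ C, dist (f c) y < 2 * ε := by
    intro ε hε
    obtain ⟨δ, hδ, hw⟩ := window hM hf hfs hε
    have hδ' : 0 < min δ ε / 2 := half_pos (lt_min hδ hε)
    have h1 : min δ ε / 2 + min δ ε / 2 ≤ δ := by linarith [min_le_left δ ε]
    have h2 : min δ ε / 2 ≤ ε := by linarith [min_le_right δ ε]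
    obtain ⟨b, L', hb, hbd⟩ := exists_fine_walk N hδ'
    obtain ⟨x, hx, hxd⟩ := exists_dense_walk M
    obtain ⟨K, hK⟩ := eventually_atTop.1 (hx.eventually (gt_mem_nhds hδ'))
    obtain ⟨L0, hL0⟩ := dense_block hxd hδ' K
    obtain ⟨L, hL, hLb⟩ := hxd (b 0) _ hδ' (K + L0)
    let m : ℕ → M := fun k => if k ≤ L then x k else b (k - (L + 1))
    have hm : ∀ k, m (L + 1 + k) = b k := fun k => by
      simp only [m]
      rw [if_neg (by omega), Nat.add_sub_cancel_left]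
    obtain ⟨v, -, hv2, ⟨w, hvw, hw2⟩, -⟩ := hw m K (L + 1 + L') (by omega)
      (fun k hk _ => by
        rcases lt_trichotomy k L with h | h | h
        · simp only [m, if_pos h.le, if_pos (Nat.succ_le_of_lt h)]
          linarith [hK k hk]
        · rw [h, show m (L + 1) = b 0 from hm 0]
          simp only [m, le_refl, if_true]
          linarith
        · obtain ⟨j, rfl⟩ : ∃ j, k = L + 1 + j := ⟨k - (L + 1), by omega⟩
          rw [add_assoc (L + 1), hm, hm]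
          have := hb j
          rw [Subtype.dist_eq] at this
          linarith)
      fun y => by
        obtain ⟨i, h3, h4, h5⟩ := hL0 y
        refine ⟨i, h3, by omega, ?_⟩
        simp only [m, if_pos (show i ≤ L by omega)]
        linarith
    obtain ⟨x0, hx0, hx0'⟩ := (hvw.last (c := L + 1) (by omega)).resolve_left (by omega)
    have hch : ∀ u, Re f m ε (Ici (L + 1)) (x0, L + 1) u →
        Ch ε (Prod.fst '' {u | Re f m ε (Ici (L + 1)) (x0, L + 1) u}) x0 u.1 := by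
      intro u hu
      induction hu with
      | refl => exact Ch.refl _ _ _
      | @tail a b ha hab ih =>
        exact ih.trans (Ch.single ⟨⟨a, ha, rfl⟩, ⟨b, ReflTransGen.tail ha hab, rfl⟩, hab.2.2.1⟩)
    refine ⟨Prod.fst '' {u | Re f m ε (Ici (L + 1)) (x0, L + 1) u},
      ⟨_, _, ReflTransGen.refl, rfl⟩, ?_, ?_, fun y hy => ?_⟩
    · rintro _ ⟨u, hu, rfl⟩ _ ⟨u', hu', rfl⟩
      exact (hch u hu).symm.trans (hch u' hu')
    · rintro _ ⟨u, hu, rfl⟩
      have h3 := Re.vx hu hx0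
      obtain ⟨j, hj⟩ : ∃ j, u.2 = L + 1 + j := ⟨u.2 - (L + 1), by
        have : L + 1 ≤ u.2 := h3.1
        omega⟩
      exact ⟨b j, (b j).2, by rw [← hm, ← hj]; exact h3.2⟩
    · obtain ⟨j, hj, hjy⟩ := hbd ⟨y, hy⟩
      obtain ⟨z, hz⟩ := hx0'.ivt (c := L + 1 + j) (Nat.le_add_right _ _) (by omega)
      refine ⟨z, ⟨_, hz, rfl⟩, ?_⟩
      have h3 : dist (f z) (m (L + 1 + j)) < ε := (hz.vx hx0).2
      rw [hm] at h3
      rw [Subtype.dist_eq] at hjy
      linarith [dist_triangle (f z) (b j) y]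
  choose C h1 h2 h3 h4 using fun n : ℕ => key (1 / ((n : ℝ) + 1)) (by positivity)
  have hlim : ∀ δ > 0, ∀ᶠ n : ℕ in atTop, 1 / ((n : ℝ) + 1) < δ := fun δ hδ =>
    (tendsto_one_div_add_atTop_nhds_zero_nat (𝕜 := ℝ)).eventually (gt_mem_nhds hδ)
  obtain ⟨D, -, hD, hDc, hD'⟩ := lim_chain isCompact_univ C (fun _ => subset_univ _) h1
    fun δ hδ => (hlim δ hδ).mono fun n hn a ha b hb => (h2 n a ha b hb).mono hn.le
  have hfu := Metric.uniformContinuous_iff.1 (CompactSpace.uniformContinuous_of_continuous hf)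
  refine ⟨D, hD, hDc, Subset.antisymm ?_ fun y hy => (hD.image hf).isClosed.closure_subset
    (Metric.mem_closure_iff.2 fun ε hε => ?_)⟩
  · rintro _ ⟨z, hz, rfl⟩
    refine hN.isClosed.closure_subset (Metric.mem_closure_iff.2 fun ε hε => ?_)
    obtain ⟨δ, hδ, hδ'⟩ := hfu _ (half_pos hε)
    obtain ⟨n, h5, h6⟩ := ((hD' δ hδ).and_eventually (hlim _ (half_pos hε))).exists
    obtain ⟨c, hc, hcz⟩ := h5.2 z hz
    obtain ⟨y, hy, hcy⟩ := h3 n c hc
    exact ⟨y, hy, by linarith [hδ' hcz, dist_triangle_left (f z) y (f c)]⟩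
  · have h3 : 0 < ε / 3 := by positivity
    obtain ⟨δ, hδ, hδ'⟩ := hfu _ h3
    obtain ⟨n, h5, h6⟩ := ((hD' δ hδ).and_eventually (hlim _ h3)).exists
    obtain ⟨c, hc, hcy⟩ := h4 n y hy
    obtain ⟨z, hz, hcz⟩ := h5.1 c hc
    exact ⟨f z, ⟨z, hz, rfl⟩, by linarith [hδ' hcz, dist_triangle_left y (f z) (f c)]⟩

theorem weaklyChainable_sub {M : Type} [MetricSpace M] [CompactSpace M] [ConnectedSpace M]
    (hM : Base M) (hW : WeaklyChainable M) {N : Set M} (hN : IsCompact N) (hNc : IsConnected N) :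
    WeaklyChainable N := by
  obtain ⟨X, _, _, _, hX, f, hf, hfs⟩ := hW
  obtain ⟨D, hD, hDc, hDN⟩ := confluent_of_base hM hf hfs hN hNc
  refine ⟨D, inferInstance, isCompact_iff_compactSpace.1 hD, isConnected_iff_connectedSpace.1 hDc,
    fun ε hε => ?_, fun x => ⟨f x, hDN ▸ mem_image_of_mem f x.2⟩, by fun_prop, fun y => ?_⟩
  · obtain ⟨g, hg, hg'⟩ := hX ε hε
    exact ⟨fun x => g x, by fun_prop, fun x y h => hg' _ _ h⟩
  · obtain ⟨x, hx, hxy⟩ := (hDN ▸ y.2 : y.1 ∈ f '' D)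
    exact ⟨⟨x, hx⟩, Subtype.ext hxy⟩

end Pool.Agent.P.MP_3ef9ff_gt
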