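import Pool.Agent.P.MP_3ef9ff_gt.WC1

/-!
A continuum of span zero is weakly chainable.
-/

set_option autoImplicit false

open Set Metric Filter Topology Relation

namespace Pool.Agent.P.MP_3ef9ff_gt

lemma refine_walk {M : Type} [MetricSpace M] [CompactSpace M] [ConnectedSpace M]
    (hM : SpanZero M) {ε : ℝ} (hε : 0 < ε) : ∃ δ > 0, δ ≤ ε ∧ ∀ (a : ℕ → M) (L : ℕ),
      (∀ k, dist (a k) (a (k + 1)) < δ) → (∀ y, ∃ k ≤ L, dist (a k) y < δ) → ∀ δ' > 0,
      ∃ (a' : ℕ → M) (L' : ℕ) (i : ℕ → ℕ), (∀ k, dist (a' k) (a' (k + 1)) < δ') ∧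
        (∀ y, ∃ k ≤ L', dist (a' k) y < δ') ∧ (∀ k, i k ≤ L) ∧
        (∀ k, i k ≤ i (k + 1) + 1 ∧ i (k + 1) ≤ i k + 1) ∧ ∀ k, dist (a' k) (a (i k)) < ε := by
  obtain ⟨δ, hδ, hK⟩ := no_dense_far_chain hM (K := {p : M × M | ε ≤ dist p.1 p.2})
    (isClosed_le continuous_const (by fun_prop)) (by
      intro p hp h
      rw [mem_ofPred_eq, h, dist_self] at hp
      exact absurd hp (not_le.2 hε))
  refine ⟨min δ ε, lt_min hδ hε, min_le_right _ _, fun a L ha had δ' hδ' => ?_⟩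
  obtain ⟨b, L', hb, hbd⟩ := exists_fine_walk M (lt_min hδ hδ')
  have hstep : ∀ v w, Adj v w → dist (b v.1) (b w.1) < min δ δ' ∧
      dist (a (min v.2 L)) (a (min w.2 L)) < min δ ε := fun v w h =>
    ⟨dist_floor_lt (lt_min hδ hδ') (K := 0) (fun k _ => hb k) (Nat.zero_le _) (Nat.zero_le _)
      h.1 h.2.1, dist_floor_lt (lt_min hδ hε) (K := 0) (fun k _ => ha k) (Nat.zero_le _)
      (Nat.zero_le _) (by have := h.2.2.1; omega) (by have := h.2.2.2; omega)⟩
  obtain ⟨u, v, hu0, hu, huv, hv⟩ := hex (fun v => dist (b v.1) (a (min v.2 L)) < ε) (L + L') (by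
    intro u v hu0 hu hp hv _
    obtain ⟨m1, m2, hm⟩ := hK (b u.1, a (min u.2 L)) (not_lt.1 hu)
    obtain ⟨k, hk, hk'⟩ := had m2
    obtain ⟨w, hw, hwk⟩ := path_ivt_snd hp k (Or.inl ⟨by omega, by omega⟩)
    have hch : Ch δ {p : M × M | ε ≤ dist p.1 p.2} (b u.1, a (min u.2 L))
        (b w.1, a (min w.2 L)) := by
      clear hwk
      induction hw with
      | refl => exact Ch.refl _ _ _
      | @tail x y hx hxy ih =>
        exact ih.trans (Ch.single ⟨not_lt.1 (Path.mem hx hu), not_lt.1 hxy.2,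
          max_lt ((hstep x y hxy.1).1.trans_le (min_le_left _ _))
            ((hstep x y hxy.1).2.trans_le (min_le_left _ _))⟩)
    have h1 := (hm _ hch).2
    rw [hwk, min_eq_left hk] at h1
    exact absurd h1 (not_le.2 (hk'.trans_le (min_le_left _ _))))
  have hself : ∀ w : ℕ × ℕ, Adj w w := fun w => by simp only [Adj]; omega
  obtain ⟨s, -, -, hs, hs0, hsv⟩ := concat_paths
    (fun _ x y => Adj x y ∧ dist (b y.1) (a (min y.2 L)) < ε) (fun n => if n = 0 then u else v)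
    fun n => by
      rcases n with _ | n
      · exact TransGen.head' ⟨hself u, hu⟩ huv
      · exact TransGen.single ⟨hself v, huv.mem hu⟩
  obtain ⟨T, -, hT⟩ := hsv 1
  have hs0' : s 0 = u := hs0
  have hT' : s T = v := hT
  refine ⟨fun k => b (s k).1, T, fun k => min (s k).2 L,
    fun k => (hstep _ _ (hs k).1).1.trans_le (min_le_right _ _), fun y => ?_,
    fun k => min_le_right _ _, fun k => ?_, fun k => ?_⟩
  · obtain ⟨j, hj, hjy⟩ := hbd y
    have key : ∀ n, j ≤ (s n).1 → ∃ k ≤ n, (s k).1 = j := by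
      intro n
      induction n with
      | zero => exact fun h => ⟨0, le_rfl, by rw [hs0'] at h ⊢; omega⟩
      | succ n ih =>
        intro h
        by_cases h' : j ≤ (s n).1
        · obtain ⟨k, hk, hk'⟩ := ih h'
          exact ⟨k, by omega, hk'⟩
        · have := (hs n).1.2.1
          exact ⟨n + 1, le_rfl, by omega⟩
    obtain ⟨k, hk, hk'⟩ := key T (by rw [hT']; omega)
    exact ⟨k, hk, by simp only [hk']; exact hjy.trans_le (min_le_right _ _)⟩
  · have h1 := (hs k).1.2.2.1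
    have h2 := (hs k).1.2.2.2
    constructor <;> simp only <;> omega
  · rcases k with _ | k
    · simpa only [hs0'] using hu
    · exact (hs k).2

lemma exists_tower {M : Type} [MetricSpace M] [CompactSpace M] [ConnectedSpace M]
    (hM : SpanZero M) : ∃ (a : ℕ → ℕ → M) (L : ℕ → ℕ) (g : ℕ → ℝ → ℝ),
      (∀ n k, dist (a n k) (a n (k + 1)) < (1 / 2) ^ n) ∧
      (∀ n y, ∃ k ≤ L n, dist (a n k) y < (1 / 2) ^ n) ∧ (∀ n, Continuous (g n)) ∧
      ∀ n t, 0 ≤ t → g n t ∈ Icc (0 : ℝ) (L n) ∧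
        dist (a n ⌊g n t⌋₊) (a (n + 1) ⌊t⌋₊) ≤ 2 * (1 / 2) ^ n := by
  choose δ hδ hδε hstep using fun n : ℕ => refine_walk hM (show (0 : ℝ) < (1 / 2) ^ n by positivity)
  let T : ℕ → Type := fun n => {d : (ℕ → M) × ℕ // (∀ k, dist (d.1 k) (d.1 (k + 1)) < δ n) ∧
    ∀ y, ∃ k ≤ d.2, dist (d.1 k) y < δ n}
  have h1 : ∀ n (d : T n), ∃ (d' : T (n + 1)) (i : ℕ → ℕ), (∀ k, i k ≤ d.1.2) ∧
      (∀ k, i k ≤ i (k + 1) + 1 ∧ i (k + 1) ≤ i k + 1) ∧
      ∀ k, dist (d'.1.1 k) (d.1.1 (i k)) < (1 / 2) ^ n := by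
    intro n d
    obtain ⟨a', L', i, h1, h2, h3⟩ := hstep n d.1.1 d.1.2 d.2.1 d.2.2 _ (hδ (n + 1))
    exact ⟨⟨(a', L'), h1, h2⟩, i, h3⟩
  choose nxt i hi1 hi2 hi3 using h1
  obtain ⟨a0, L0, h0⟩ := exists_fine_walk M (hδ 0)
  let d : ∀ n, T n := fun n => Nat.rec ⟨(a0, L0), h0⟩ nxt n
  choose σ hσc hσ using fun n => exists_pl fun k => (i n (d n) k : ℝ)
  refine ⟨fun n => (d n).1.1, fun n => (d n).1.2, fun n t => σ n (max t 0),
    fun n k => ((d n).2.1 k).trans_le (hδε n), fun n y => ?_,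
    fun n => (hσc n).comp_continuous (by fun_prop) fun t => le_max_right t 0, fun n t ht => ?_⟩
  · obtain ⟨k, hk, h⟩ := (d n).2.2 y
    exact ⟨k, hk, h.trans_le (hδε n)⟩
  have hmem : σ n t ∈ uIcc (i n (d n) ⌊t⌋₊ : ℝ) (i n (d n) (⌊t⌋₊ + 1)) := by
    rw [hσ n _ t (Nat.floor_le ht) (Nat.lt_floor_add_one t).le, ← segment_eq_uIcc,
      segment_eq_image']
    exact ⟨t - ⌊t⌋₊, ⟨by linarith [Nat.floor_le ht], by linarith [Nat.lt_floor_add_one t]⟩, rfl⟩
  simp only [max_eq_left ht]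
  refine ⟨ordConnected_Icc.uIcc_subset ⟨by positivity, by exact_mod_cast hi1 n _ _⟩
    ⟨by positivity, by exact_mod_cast hi1 n _ _⟩ hmem, ?_⟩
  have h2 := Nat.floor_le_floor hmem.1
  have h3 := Nat.floor_le_floor hmem.2
  rw [← Nat.cast_min, Nat.floor_natCast] at h2
  rw [← Nat.cast_max, Nat.floor_natCast] at h3
  have h4 := hi2 n (d n) ⌊t⌋₊
  have h5 := dist_floor_lt (hδ n) (K := 0) (fun k _ => (d n).2.1 k) (Nat.zero_le ⌊σ n t⌋₊)
    (Nat.zero_le (i n (d n) ⌊t⌋₊)) (by omega) (by omega)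
  have h6 : dist ((d (n + 1)).1.1 ⌊t⌋₊) ((d n).1.1 (i n (d n) ⌊t⌋₊)) < (1 / 2) ^ n := hi3 n _ _
  linarith [hδε n, dist_triangle_right ((d n).1.1 ⌊σ n t⌋₊) ((d (n + 1)).1.1 ⌊t⌋₊)
    ((d n).1.1 (i n (d n) ⌊t⌋₊))]

lemma chainable_of_tower {K : Type} [MetricSpace K] [CompactSpace K] {g : ℕ → K → ℝ}
    (hg : ∀ n, Continuous (g n)) (h1 : ∀ n x y, g (n + 1) x = g (n + 1) y → g n x = g n y)
    (h2 : ∀ x y, (∀ n, g n x = g n y) → x = y) : Chainable K := by
  intro ε hε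
  by_contra hcon
  push Not at hcon
  obtain ⟨p, hp⟩ := IsCompact.nonempty_iInter_of_sequence_nonempty_isCompact_isClosed
    (fun n => {p : K × K | g n p.1 = g n p.2} ∩ {p | ε ≤ dist p.1 p.2})
    (fun n p hp => ⟨h1 n _ _ hp.1, hp.2⟩)
    (fun n => by
      obtain ⟨x, y, h⟩ := hcon (g n) (hg n)
      exact ⟨(x, y), h⟩)
    (IsClosed.isCompact ((isClosed_eq (by have := hg 0; fun_prop)
      (by have := hg 0; fun_prop)).inter (isClosed_le (by fun_prop) (by fun_prop))))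
    fun n => (isClosed_eq (by have := hg n; fun_prop)
      (by have := hg n; fun_prop)).inter (isClosed_le (by fun_prop) (by fun_prop))
  have h3 : ε ≤ dist p.1 p.2 := (mem_iInter.1 hp 0).2
  rw [h2 p.1 p.2 fun n => (mem_iInter.1 hp n).1, dist_self] at h3
  exact absurd h3 (not_le.2 hε)

theorem weaklyChainable_of_spanZero {M : Type} [MetricSpace M] [CompactSpace M]
    [ConnectedSpace M] (hM : SpanZero M) : WeaklyChainable M := by
  obtain ⟨a, L, g, ha, had, hg, hg'⟩ := exists_tower hM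
  let D : ℕ → ℕ → ℝ → ℝ := fun j => Nat.rec (fun _ t => t) (fun _ E k t => g k (E (k + 1) t)) j
  have hDs : ∀ j k t, D (j + 1) k t = g k (D j (k + 1) t) := fun _ _ _ => rfl
  have hDc : ∀ j k, Continuous (D j k) := by
    intro j
    induction j with
    | zero => exact fun _ => continuous_id
    | succ j ih => exact fun k => (hg k).comp (ih (k + 1))
  have hD : ∀ j k t, t ∈ Icc (0 : ℝ) (L (k + j)) → D j k t ∈ Icc (0 : ℝ) (L k) ∧
      dist (a k ⌊D j k t⌋₊) (a (k + j) ⌊t⌋₊) ≤ 4 * (1 / 2) ^ k - 4 * (1 / 2) ^ (k + j) := by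
    intro j
    induction j with
    | zero => exact fun k t ht => ⟨ht, by simp [D]⟩
    | succ j ih =>
      intro k t ht
      rw [show k + (j + 1) = k + 1 + j by omega] at ht ⊢
      obtain ⟨h1, h2⟩ := ih (k + 1) t ht
      obtain ⟨h3, h4⟩ := hg' k _ h1.1
      refine ⟨h3, ?_⟩
      rw [hDs]
      rw [pow_succ] at h2
      linarith [dist_triangle (a k ⌊g k (D j (k + 1) t)⌋₊) (a (k + 1) ⌊D j (k + 1) t⌋₊)
        (a (k + 1 + j) ⌊t⌋₊)]
  letI : MetricSpace (ℕ → ℝ) := TopologicalSpace.metrizableSpaceMetric _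
  let γ : ℕ → ℝ → ℕ → ℝ := fun N t k => if k ≤ N then D (N - k) k t else 0
  have hγ : ∀ N, Continuous (γ N) := fun N => continuous_pi fun k => by
    simp only [γ]
    split_ifs
    exacts [hDc _ _, continuous_const]
  let c : ℕ → ℝ → M × (ℕ → ℝ) := fun N t => (a N ⌊t⌋₊, γ N t)
  have hS : IsCompact ((univ : Set M) ×ˢ (univ.pi fun k => Icc (0 : ℝ) (L k))) :=
    isCompact_univ.prod (isCompact_univ_pi fun _ => isCompact_Icc)
  have hCS : ∀ N, c N '' Icc (0 : ℝ) (L N) ⊆ univ ×ˢ (univ.pi fun k => Icc (0 : ℝ) (L k)) := by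
    rintro N _ ⟨t, ht, rfl⟩
    refine ⟨trivial, fun k _ => ?_⟩
    simp only [c, γ]
    split_ifs with h
    · exact (hD _ k t (by rwa [Nat.add_sub_cancel' h])).1
    · exact ⟨le_rfl, by positivity⟩
  have hlim : ∀ δ > 0, ∀ᶠ n : ℕ in atTop, (1 / 2 : ℝ) ^ n < δ := fun δ hδ =>
    (tendsto_pow_atTop_nhds_zero_of_lt_one (by norm_num) (by norm_num)).eventually
      (gt_mem_nhds hδ)
  have hnear : ∀ n (s t : ℝ), dist s t < 1 → dist (a n ⌊s⌋₊) (a n ⌊t⌋₊) < (1 / 2) ^ n :=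
    fun n s t h => dist_floor_lt (by positivity) (K := 0) (fun k _ => ha n k) (Nat.zero_le _)
      (Nat.zero_le _) (floor_le_succ h) (floor_le_succ (by rwa [dist_comm]))
  obtain ⟨K, hKS, hK, hKc, hK'⟩ := lim_chain hS (fun N => c N '' Icc (0 : ℝ) (L N)) hCS
    (fun N => ⟨_, 0, ⟨le_rfl, by positivity⟩, rfl⟩) (by
      intro δ hδ
      filter_upwards [hlim δ hδ] with N hN
      refine ch_of_local isPreconnected_Icc (c N) fun t _ => mem_nhdsWithin_of_mem_nhds ?_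
      filter_upwards [ball_mem_nhds t one_pos,
        Metric.tendsto_nhds.1 ((hγ N).tendsto t) δ hδ] with s h1 h2
      rw [dist_comm]
      exact max_lt ((hnear N s t h1).trans hN) h2)
  have hsurj : Prod.fst '' K = univ := image_eq_univ hS hKS hK hCS continuous_fst
    (fun ε hε => (hK' ε hε).mono fun _ h => h.1) fun δ hδ y => by
      filter_upwards [hlim δ hδ] with N hN
      obtain ⟨k, hk, h⟩ := had N y
      refine ⟨_, ⟨k, ⟨by positivity, by exact_mod_cast hk⟩, rfl⟩, ?_⟩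
      simp only [c, Nat.floor_natCast]
      exact h.trans hN
  have happ : ∀ z ∈ K, ∀ U ∈ 𝓝 z, ∀ n, ∃ N, n ≤ N ∧ ∃ t ∈ Icc (0 : ℝ) (L N), c N t ∈ U := by
    intro z hz U hU n
    obtain ⟨ε, hε, hε'⟩ := Metric.mem_nhds_iff.1 hU
    obtain ⟨N, h1, h2⟩ := ((hK' ε hε).and_eventually (eventually_ge_atTop n)).exists
    obtain ⟨_, ⟨t, ht, rfl⟩, h3⟩ := h1.2 z hz
    exact ⟨N, h2, t, ht, hε' h3⟩
  have hthread : ∀ z ∈ K, ∀ n, g n (z.2 (n + 1)) = z.2 n := by
    intro z hz n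
    by_contra h
    obtain ⟨N, hN, t, -, ht⟩ := happ z hz {w | g n (w.2 (n + 1)) ≠ w.2 n}
      ((isOpen_ne_fun ((hg n).comp ((continuous_apply (n + 1)).comp continuous_snd))
        ((continuous_apply n).comp continuous_snd)).mem_nhds h) (n + 1)
    apply ht
    simp only [c, γ, if_pos hN, if_pos (show n ≤ N by omega)]
    rw [← hDs, show N - (n + 1) + 1 = N - n by omega]
  have hclose : ∀ z ∈ K, ∀ n, dist (a n ⌊z.2 n⌋₊) z.1 ≤ 6 * (1 / 2) ^ n := by
    intro z hz n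
    obtain ⟨N, hN, t, ht, h1, h2⟩ := happ z hz
      ({w | dist w.1 z.1 < (1 / 2) ^ n} ∩ {w | dist (w.2 n) (z.2 n) < 1})
      (inter_mem (Metric.tendsto_nhds.1 (continuous_fst.tendsto z) _ (by positivity))
        (Metric.tendsto_nhds.1 (((continuous_apply n).comp continuous_snd).tendsto z) _ one_pos)) n
    have h3 := (hD (N - n) n t (by rwa [Nat.add_sub_cancel' hN])).2
    rw [Nat.add_sub_cancel' hN] at h3
    simp only [mem_ofPred_eq, c, γ, if_pos hN] at h1 h2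
    have h4 := hnear n _ _ h2
    have h5 : (0 : ℝ) < (1 / 2) ^ N := by positivity
    rw [dist_comm] at h4
    linarith [dist_triangle4 (a n ⌊z.2 n⌋₊) (a n ⌊D (N - n) n t⌋₊) (a N ⌊t⌋₊) z.1]
  have := isCompact_iff_compactSpace.1 hK
  refine ⟨K, inferInstance, this, isConnected_iff_connectedSpace.1 hKc,
    chainable_of_tower (g := fun n z => z.1.2 n) (fun n => (continuous_apply n).comp
      (continuous_snd.comp continuous_subtype_val)) (fun n x y h => ?_) fun x y h => ?_,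
    fun z => z.1.1, continuous_fst.comp continuous_subtype_val, fun y => ?_⟩
  · rw [← hthread _ x.2, ← hthread _ y.2, h]
  · refine Subtype.ext (Prod.ext (dist_le_zero.1 (le_of_forall_pos_le_add fun ε hε => ?_))
      (funext h))
    obtain ⟨n, hn⟩ := (hlim (ε / 12) (by positivity)).exists
    have h1 := hclose _ x.2 n
    have h2 := hclose _ y.2 n
    rw [h n] at h1
    linarith [dist_triangle_left x.1.1 y.1.1 (a n ⌊y.1.2 n⌋₊)]
  · obtain ⟨z, hz, hzy⟩ := (hsurj ▸ mem_univ y : y ∈ Prod.fst '' K)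
    exact ⟨⟨z, hz⟩, hzy⟩

end Pool.Agent.P.MP_3ef9ff_gt
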