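import Pool.Agent.P.MP_3ef9ff_gt.WC2

/-!
Span zero is weak chainability together with hereditary continuous ray extendability.
-/

set_option autoImplicit false

open Set Metric Filter Topology Relation

namespace Pool.Agent.P.MP_3ef9ff_gt

lemma SpanZero.sub {M : Type} [MetricSpace M] (hM : SpanZero M) (N : Set M) : SpanZero N := by
  intro Z hZ hZc h
  have hc : Continuous (Prod.map (↑) (↑) : N × N → M × M) := by fun_prop
  obtain ⟨_, ⟨p, hp, rfl⟩, hpp⟩ := hM _ (hZ.image hc) (hZc.image _ hc.continuousOn) (by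
    have := congrArg (fun S : Set N => ((↑) : N → M) '' S) h
    simpa only [image_image, Prod.map_fst, Prod.map_snd] using this)
  exact ⟨p, hp, Subtype.ext hpp⟩

lemma base_of_univ {M : Type} [MetricSpace M] (hM : Base (univ : Set M)) : Base M := by
  intro X Y _ _ _ _ _ _ f h hf hfs hh hhs
  obtain ⟨K, h1, h2, h3, h4, h5⟩ := hM X Y (fun x => ⟨f x, trivial⟩) (fun y => ⟨h y, trivial⟩)
    (hf.subtype_mk _) (fun m => (hfs m.1).imp fun _ h => Subtype.ext h) (hh.subtype_mk _)
    fun m => (hhs m.1).imp fun _ h => Subtype.ext h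
  exact ⟨K, h1, h2, h3, h4, fun p hp => congrArg Subtype.val (h5 p hp)⟩

theorem spanZero_iff {M : Type} [MetricSpace M] [CompactSpace M] [ConnectedSpace M] :
    SpanZero M ↔ WeaklyChainable M ∧ ∀ N : Set M, IsCompact N → IsConnected N → RayExt N := by
  refine ⟨fun hM => ⟨weaklyChainable_of_spanZero hM, fun N hN _ => ?_⟩, fun ⟨hW, h⟩ Z hZ hZc hZ' => ?_⟩
  · have := isCompact_iff_compactSpace.1 hN
    intro X _ _ _ f hf hfs Y _ _ j hj hd ⟨e⟩
    exact ray_extendable N (hM.sub N) X f hf hfs Y j hj hd e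
  have := isCompact_iff_compactSpace.1 (isCompact_univ (X := M))
  have hM : Base M := base_of_univ (base_of_rayExt (h univ isCompact_univ isConnected_univ))
  have hN := hZ.image continuous_fst
  have hNc := hZc.image _ continuous_fst.continuousOn
  have := isCompact_iff_compactSpace.1 hN
  have := isConnected_iff_connectedSpace.1 hNc
  have := isCompact_iff_compactSpace.1 hZ
  have := isConnected_iff_connectedSpace.1 hZc
  let c : Z → (Prod.fst '' Z) × (Prod.fst '' Z) := fun z =>
    (⟨z.1.1, z, z.2, rfl⟩, ⟨z.1.2, hZ' ▸ ⟨z, z.2, rfl⟩⟩)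
  have hc : Continuous c := Continuous.prodMk (Continuous.subtype_mk (by fun_prop) _)
    (Continuous.subtype_mk (by fun_prop) _)
  obtain ⟨_, ⟨z, rfl⟩, hz⟩ := semi_of_base (base_of_rayExt (h _ hN hNc))
    (weaklyChainable_sub hM hW hN hNc) (isCompact_range hc) (isConnected_range hc)
    (eq_univ_of_forall fun ⟨_, z, hz, rfl⟩ => ⟨_, ⟨⟨z, hz⟩, rfl⟩, rfl⟩)
  exact ⟨z, z.2, congrArg Subtype.val hz⟩

end Pool.Agent.P.MP_3ef9ff_gt
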